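import Pool.Agent.helper53.DC.SpecA

/-! Module dc:A21: finitely many orbits of pairs of walls in a common finite residue. -/

set_option autoImplicit false

namespace Pool.Agent.helper78.DC

open Pool.Agent.helper53.DC

theorem A21_val {B W : Type} [Group W] {M : CoxeterMatrix B} (cs : CoxeterSystem M W)
    (r : Wall cs) (x : W) (i j : B) (a : ℕ)
    (h : r.1 = x * (cs.simple i * cs.simple j) ^ a * cs.simple i * x⁻¹) :
    (x⁻¹ • r).1 = (cs.simple i * cs.simple j) ^ (a % M i j) * cs.simple i := by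
  rw [smul_wall_val, h, ← pow_eq_pow_mod a (cs.simple_mul_simple_pow i j)]
  group

theorem A21 : A21_stmt := by
  intro B W _ _ M cs
  refine ⟨⋃ i : B, ⋃ j : B, ⋃ a ∈ Finset.range (M i j), ⋃ b ∈ Finset.range (M i j),
    {p : Wall cs × Wall cs | p.1.1 = (cs.simple i * cs.simple j) ^ a * cs.simple i ∧
      p.2.1 = (cs.simple i * cs.simple j) ^ b * cs.simple i}, ?_, ?_⟩
  · refine Set.finite_iUnion fun i => Set.finite_iUnion fun j => ?_
    refine Set.Finite.biUnion (Finset.finite_toSet _) fun a _ => ?_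
    refine Set.Finite.biUnion (Finset.finite_toSet _) fun b _ => ?_
    refine Set.Subsingleton.finite ?_
    rintro p ⟨h1, h2⟩ q ⟨h3, h4⟩
    exact Prod.ext (Subtype.ext (h1.trans h3.symm)) (Subtype.ext (h2.trans h4.symm))
  · rintro r r' ⟨x, i, j, a, b, hM, h1, h2⟩
    refine ⟨x, (x⁻¹ • r, x⁻¹ • r'), ?_, ?_, ?_⟩
    · simp only [Set.mem_iUnion]
      refine ⟨i, j, a % M i j, ?_, b % M i j, ?_, ?_, ?_⟩
      · exact Finset.mem_range.2 (Nat.mod_lt _ (Nat.pos_of_ne_zero hM))
      · exact Finset.mem_range.2 (Nat.mod_lt _ (Nat.pos_of_ne_zero hM))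
      · exact A21_val cs r x i j a h1
      · exact A21_val cs r' x i j b h2
    · show r = x • (x⁻¹ • r)
      rw [smul_inv_smul]
    · show r' = x • (x⁻¹ • r')
      rw [smul_inv_smul]

end Pool.Agent.helper78.DC
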