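import Pool.Agent.helper53.DC.SpecM

/-! Module dc:M4: gates of convex sets in right-angled Coxeter groups. -/

set_option autoImplicit false

namespace Pool.Agent.helper78.DC

open Pool.Agent.helper53.DC

theorem M4_flip {P Q R : Prop} (h : ¬ (P ↔ Q)) (h' : ¬ (Q ↔ R)) : P ↔ R := by
  by_cases hP : P <;> by_cases hQ : Q <;> by_cases hR : R <;> simp_all

theorem M4 (hM3 : M3_stmt) (hA3 : A3_stmt) (hA14 : A14_stmt) (hA15 : A15_stmt) : M4_stmt := by
  classical
  intro Γ G C hC hne x
  obtain ⟨g, hg, hmin⟩ : ∃ g ∈ C, ∀ z ∈ C, dd (ra G) g x ≤ dd (ra G) z x := by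
    have hS : ((fun z => dd (ra G) z x) '' C).Nonempty := hne.image _
    obtain ⟨g, hg, he⟩ := Nat.sInf_mem hS
    refine ⟨g, hg, fun z hz => ?_⟩
    have he' : dd (ra G) g x = sInf ((fun z => dd (ra G) z x) '' C) := he
    rw [he']
    exact Nat.sInf_le ⟨z, hz, rfl⟩
  refine ⟨g, hg, fun w hw => ?_⟩
  have hNe : Nonempty (Wall (ra G)) := ⟨w⟩
  obtain ⟨X, wl, hGal, hX0, hXn⟩ := hA14 (ra G) g x
  set n := dd (ra G) g x with hn
  obtain ⟨p1, p2, p3, p4, p5⟩ := hA15 (ra G) n X wl hGal
  have hw' : (cw (ra G)).Sep w (X 0) (X n) := by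
    rw [hX0, hXn]
    exact fun h => hw h.symm
  obtain ⟨k, hk, rfl⟩ := p4 w hw'
  clear hw hw'
  -- every wall of the gallery separates `x` from `C`
  induction k using Nat.strong_induction_on with
  | _ k ih =>
    intro z hz
    by_contra hns
    have hcross : ∀ i < k, (cw (ra G)).Cross (wl i) (wl k) := by
      intro i hi b b'
      have q1 : (cw (ra G)).Sep (wl i) (X 0) (X k) :=
        (p2 i 0 k (by omega) (by omega) (by omega)).2 ⟨by omega, hi⟩
      have q2 : ¬ (cw (ra G)).Sep (wl i) (X k) (X n) := fun h =>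
        absurd ((p2 i k n (by omega) (by omega) le_rfl).1 h).1 (by omega)
      have q3 : ¬ (cw (ra G)).Sep (wl k) (X 0) (X k) := fun h =>
        absurd ((p2 k 0 k hk (by omega) (by omega)).1 h).2 (by omega)
      have q4 : (cw (ra G)).Sep (wl k) (X k) (X n) :=
        (p2 k k n hk (by omega) le_rfl).2 ⟨le_rfl, hk⟩
      have q5 : (cw (ra G)).Sep (wl i) (X n) z := by
        rw [hXn]
        exact ih i hi (by omega) z hz
      have q6 : ¬ (cw (ra G)).Sep (wl k) (X n) z := by
        rw [hXn]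
        exact hns
      unfold WS.Sep at q1 q2 q3 q4 q5 q6
      by_cases hb : X n ∈ (cw (ra G)).H (wl i) ↔ b = true <;>
        by_cases hb' : X n ∈ (cw (ra G)).H (wl k) ↔ b' = true
      · exact ⟨X n, hb, hb'⟩
      · exact ⟨X k, (not_not.1 q2).trans hb, M4_flip q4 hb'⟩
      · exact ⟨z, M4_flip (fun h => q5 h.symm) hb, (not_not.1 q6).symm.trans hb'⟩
      · exact ⟨X 0, M4_flip (fun h => q1 (h.trans (not_not.1 q2).symm)) hb,
          M4_flip (fun h => q4 ((not_not.1 q3).symm.trans h)) hb'⟩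
    have hG1 : Gal (ra G) (k + 1) X wl := by
      have h1 := p5 0 (k + 1) (by omega) (by omega)
      simpa using h1
    have hcar : X 0 ∈ Car (ra G) (wl k) := hM3 G k X wl hG1 hcross 0 (by omega)
    obtain ⟨s, hs⟩ := hcar
    rw [hX0] at hs
    -- the neighbour `g' = wl k * g` is nearer to `x`
    have hstep : X (k + 1) = (wl k).1 * X k := hGal.step k hk
    have hd1 : dd (ra G) ((wl k).1 * g) (X (k + 1)) = k := by
      rw [hstep, dd_left, ← hX0]
      have := p1 0 k (by omega) (by omega)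
      rw [this]
      omega
    have hd2 : dd (ra G) (X (k + 1)) x = n - (k + 1) := by
      rw [← hXn]
      exact p1 (k + 1) n (by omega) le_rfl
    have hd3 : dd (ra G) ((wl k).1 * g) x < n := by
      have := dd_tri (ra G) ((wl k).1 * g) (X (k + 1)) x
      omega
    have hg' : (wl k).1 * g ∉ C := fun h => absurd (hmin _ h) (by omega)
    obtain ⟨v, b, hv1, hv2⟩ := hC _ hg'
    have hgv : g ∈ (cw (ra G)).hs v b := hv1 hg
    have hsep : (cw (ra G)).Sep v g (g * (ra G).simple s) := by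
      rw [← hs]
      intro h
      apply hv2
      show (wl k).1 * g ∈ (cw (ra G)).H v ↔ b = true
      exact h.symm.trans hgv
    have hvk : v = wl k := by
      rw [(hA3 (ra G) v g s).1 hsep]
      apply Subtype.ext
      rw [wall_val, ← hs]
      group
    subst hvk
    have hzv : z ∈ (cw (ra G)).hs (wl k) b := hv1 hz
    have hgx : (cw (ra G)).Sep (wl k) (X 0) (X n) :=
      (p2 k 0 n hk (by omega) le_rfl).2 ⟨by omega, hk⟩
    rw [hX0, hXn] at hgx
    unfold WS.Sep at hgx hns
    have e1 : g ∈ (cw (ra G)).H (wl k) ↔ b = true := hgv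
    have e2 : z ∈ (cw (ra G)).H (wl k) ↔ b = true := hzv
    exact hgx (e1.trans (e2.symm.trans (not_not.1 hns).symm))

end Pool.Agent.helper78.DC
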