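import Pool.Agent.helper53.DC.SpecM

/-! Module dc:M7: the truncated right action on a convex set. -/

set_option autoImplicit false

namespace Pool.Agent.helper78.DC

open Pool.Agent.helper53.DC

theorem M7_b {P : Prop} {b : Bool} (h : ¬ (P ↔ b = true)) : P ↔ (!b) = true := by
  cases b
  · by_cases hP : P
    · exact ⟨fun _ => rfl, fun _ => hP⟩
    · exact absurd ⟨fun h1 => absurd h1 hP, fun h1 => absurd h1 Bool.false_ne_true⟩ h
  · by_cases hP : P
    · exact absurd ⟨fun _ => rfl, fun _ => hP⟩ h
    · exact ⟨fun h1 => absurd h1 hP, fun h1 => absurd h1 Bool.false_ne_true⟩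

theorem M7_c {P : Prop} {b : Bool} (h : P ↔ b = true) (h' : P ↔ (!b) = true) : False := by
  cases b
  · exact Bool.false_ne_true (h.1 (h'.2 rfl))
  · exact Bool.false_ne_true (h'.1 (h.2 rfl))

section
variable {Γ : Type} (G : SimpleGraph Γ) (Y : Set (RA G))

open Classical in
/-- the truncated right multiplication by a simple reflection -/
noncomputable def M7_f (s : Γ) (y : Y) : Y :=
  if h : (y : RA G) * (ra G).simple s ∈ Y then ⟨(y : RA G) * (ra G).simple s, h⟩ else y

theorem M7_pos {s : Γ} {y : Y} (h : (y : RA G) * (ra G).simple s ∈ Y) :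
    ((M7_f G Y s y : Y) : RA G) = (y : RA G) * (ra G).simple s := by
  unfold M7_f
  rw [dif_pos h]

theorem M7_neg {s : Γ} {y : Y} (h : (y : RA G) * (ra G).simple s ∉ Y) : M7_f G Y s y = y := by
  unfold M7_f
  rw [dif_neg h]

theorem M7_inv (s : Γ) : Function.Involutive (M7_f G Y s) := by
  intro y
  by_cases h : (y : RA G) * (ra G).simple s ∈ Y
  · have h1 := M7_pos G Y h
    have h2 : ((M7_f G Y s y : Y) : RA G) * (ra G).simple s = (y : RA G) := by
      rw [h1, mul_assoc, (ra G).simple_mul_simple_self, mul_one]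
    apply Subtype.ext
    rw [M7_pos G Y (by rw [h2]; exact y.2), h2]
  · rw [M7_neg G Y h, M7_neg G Y h]

/-- if `y` and `y s t` are in `Y` then so is `y t` -/
theorem M7_mid (hA3 : A3_stmt) (hM1 : M1_stmt) (hM2 : M2_stmt) (hY : (cw (ra G)).Conv Y)
    {s t : Γ} (hst : G.Adj s t) {y : RA G} (h0 : y ∈ Y)
    (h1 : y * (ra G).simple s * (ra G).simple t ∈ Y) : y * (ra G).simple t ∈ Y := by
  by_contra h
  have hc := (hM2 G).1 s t hst
  obtain ⟨τ, hτ, -⟩ := hM1 G
  obtain ⟨w, b, hw1, hw2⟩ := hY _ h
  have e0 : y ∈ (cw (ra G)).H w ↔ b = true := hw1 h0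
  have e1 : y * (ra G).simple s * (ra G).simple t ∈ (cw (ra G)).H w ↔ b = true := hw1 h1
  have e2 : ¬ (y * (ra G).simple t ∈ (cw (ra G)).H w ↔ b = true) := hw2
  have s1 : (cw (ra G)).Sep w y (y * (ra G).simple t) := fun h3 => e2 (h3.symm.trans e0)
  have s2 : (cw (ra G)).Sep w (y * (ra G).simple t) (y * (ra G).simple t * (ra G).simple s) := by
    have e3 : y * (ra G).simple t * (ra G).simple s = y * (ra G).simple s * (ra G).simple t := by
      rw [mul_assoc, ← hc, ← mul_assoc]
    rw [e3]
    exact fun h3 => e2 (h3.trans e1)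
  have w1 := (hA3 (ra G) w y t).1 s1
  have w2 := (hA3 (ra G) w (y * (ra G).simple t) s).1 s2
  have t1 := hτ y t
  have t2 := hτ (y * (ra G).simple t) s
  rw [← w1] at t1
  rw [← w2] at t2
  exact hst.ne (t2.symm.trans t1)

/-- if `y`, `y s` and `y t` are in `Y` then so is `y s t` -/
theorem M7_sq (hA3 : A3_stmt) (hM2 : M2_stmt) (hY : (cw (ra G)).Conv Y)
    {s t : Γ} (hst : G.Adj s t) {y : RA G} (h0 : y ∈ Y) (hs : y * (ra G).simple s ∈ Y)
    (ht : y * (ra G).simple t ∈ Y) : y * (ra G).simple s * (ra G).simple t ∈ Y := by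
  by_contra h
  have hc := (hM2 G).1 s t hst
  obtain ⟨w, b, hw1, hw2⟩ := hY _ h
  have e0 : y ∈ (cw (ra G)).H w ↔ b = true := hw1 h0
  have e1 : y * (ra G).simple s ∈ (cw (ra G)).H w ↔ b = true := hw1 hs
  have e2 : y * (ra G).simple t ∈ (cw (ra G)).H w ↔ b = true := hw1 ht
  have e3 : ¬ (y * (ra G).simple s * (ra G).simple t ∈ (cw (ra G)).H w ↔ b = true) := hw2
  have s1 : (cw (ra G)).Sep w (y * (ra G).simple s)
      (y * (ra G).simple s * (ra G).simple t) := fun h3 => e3 (h3.symm.trans e1)
  have w1 := (hA3 (ra G) w (y * (ra G).simple s) t).1 s1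
  have w2 : wall (ra G) (y * (ra G).simple s) t = wall (ra G) y t := by
    apply Subtype.ext
    rw [wall_val, wall_val, mul_inv_rev, (ra G).inv_simple, mul_assoc y, hc]
    rw [show y * ((ra G).simple t * (ra G).simple s) * ((ra G).simple s * y⁻¹) =
      y * (ra G).simple t * ((ra G).simple s * (ra G).simple s) * y⁻¹ by group]
    rw [(ra G).simple_mul_simple_self, mul_one]
  have s2 := (hA3 (ra G) w y t).2 (w1.trans w2)
  exact s2 (e0.trans e2.symm)

theorem M7_comm (hA3 : A3_stmt) (hM1 : M1_stmt) (hM2 : M2_stmt) (hY : (cw (ra G)).Conv Y)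
    {s t : Γ} (hst : G.Adj s t) (y : Y) :
    M7_f G Y s (M7_f G Y t y) = M7_f G Y t (M7_f G Y s y) := by
  have hc := (hM2 G).1 s t hst
  by_cases hs : (y : RA G) * (ra G).simple s ∈ Y <;> by_cases ht : (y : RA G) * (ra G).simple t ∈ Y
  · have h1 := M7_pos G Y hs
    have h2 := M7_pos G Y ht
    have h3 := M7_sq G Y hA3 hM2 hY hst y.2 hs ht
    have h4 := M7_sq G Y hA3 hM2 hY hst.symm y.2 ht hs
    have k1 := M7_pos G Y (s := s) (y := M7_f G Y t y) (by rw [h2]; exact h4)
    have k2 := M7_pos G Y (s := t) (y := M7_f G Y s y) (by rw [h1]; exact h3)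
    apply Subtype.ext
    rw [k1, k2, h1, h2, mul_assoc, mul_assoc, hc]
  · have h1 := M7_pos G Y hs
    rw [M7_neg G Y ht]
    have h3 : ((M7_f G Y s y : Y) : RA G) * (ra G).simple t ∉ Y := by
      rw [h1]
      exact fun h => ht (M7_mid G Y hA3 hM1 hM2 hY hst y.2 h)
    rw [M7_neg G Y h3]
  · have h1 := M7_pos G Y ht
    rw [M7_neg G Y hs]
    have h3 : ((M7_f G Y t y : Y) : RA G) * (ra G).simple s ∉ Y := by
      rw [h1]
      exact fun h => hs (M7_mid G Y hA3 hM1 hM2 hY hst.symm y.2 h)
    rw [M7_neg G Y h3]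
  · rw [M7_neg G Y ht, M7_neg G Y hs, M7_neg G Y ht]

end

theorem M7 (hA3 : A3_stmt) (hA23 : A23_stmt) (hM1 : M1_stmt) (hM2 : M2_stmt) : M7_stmt := by
  classical
  intro Γ G Y hY
  let f : Γ → Equiv.Perm Y := fun s => (M7_inv G Y s).toPerm
  have hf : ∀ s y, f s y = M7_f G Y s y := fun s y => rfl
  have hlift : CoxeterMatrix.IsLiftable (raM G) f := by
    intro s t
    by_cases hst : s = t
    · subst hst
      rw [(raM G).diagonal, pow_one]
      ext y
      rw [Equiv.Perm.mul_apply, hf, hf, M7_inv G Y s y]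
      rfl
    · by_cases hadj : G.Adj s t
      · have e : (raM G) s t = 2 := by
          show (if s = t then 1 else if G.Adj s t then 2 else 0) = 2
          rw [if_neg hst, if_pos hadj]
        rw [e]
        have hcomm : f s * f t = f t * f s := by
          ext y
          rw [Equiv.Perm.mul_apply, Equiv.Perm.mul_apply, hf, hf, hf, hf,
            M7_comm G Y hA3 hM1 hM2 hY hadj y]
        have hself : ∀ r, f r * f r = 1 := by
          intro r
          ext y
          rw [Equiv.Perm.mul_apply, hf, hf, M7_inv G Y r y]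
          rfl
        rw [pow_two]
        calc f s * f t * (f s * f t) = f s * (f t * f s) * f t := by group
          _ = f s * (f s * f t) * f t := by rw [hcomm]
          _ = (f s * f s) * (f t * f t) := by group
          _ = 1 := by rw [hself, hself, one_mul]
      · have e : (raM G) s t = 0 := by
          show (if s = t then 1 else if G.Adj s t then 2 else 0) = 0
          rw [if_neg hst, if_neg hadj]
        rw [e, pow_zero]
  let φ : RA G →* Equiv.Perm Y := (ra G).lift ⟨f, hlift⟩
  have hφ : ∀ s, φ ((ra G).simple s) = f s := fun s => (ra G).lift_apply_simple hlift s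
  refine ⟨φ, ?_, ?_⟩
  · -- induction on the length
    have key : ∀ (n : ℕ) (g : RA G), (ra G).length g = n → ∀ y : Y, (y : RA G) * g⁻¹ ∈ Y →
        ((φ g y : Y) : RA G) = (y : RA G) * g⁻¹ := by
      intro n
      induction n with
      | zero =>
        intro g hg y hy
        rw [(ra G).length_eq_zero_iff.1 hg, map_one, inv_one, mul_one]
        rfl
      | succ n ih =>
        intro g hg y hy
        have hne : g ≠ 1 := by
          rintro rfl
          rw [(ra G).length_one] at hg
          omega
        obtain ⟨s, hs⟩ := (ra G).exists_rightDescent_of_ne_one hne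
        have hs1 := (ra G).isRightDescent_iff.1 hs
        have hl : (ra G).length (g * (ra G).simple s) = n := by omega
        have e1 : (ra G).simple s * g⁻¹ = (g * (ra G).simple s)⁻¹ := by
          rw [mul_inv_rev, (ra G).inv_simple]
        have hgeo : dd (ra G) (y : RA G) ((y : RA G) * (ra G).simple s) +
            dd (ra G) ((y : RA G) * (ra G).simple s) ((y : RA G) * g⁻¹) =
            dd (ra G) (y : RA G) ((y : RA G) * g⁻¹) := by
          rw [dd_simple]
          unfold dd
          rw [show ((y : RA G) * (ra G).simple s)⁻¹ * ((y : RA G) * g⁻¹) =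
            ((ra G).simple s)⁻¹ * g⁻¹ by group, (ra G).inv_simple, e1, (ra G).length_inv,
            show ((y : RA G))⁻¹ * ((y : RA G) * g⁻¹) = g⁻¹ by group, (ra G).length_inv]
          omega
        have hmem : (y : RA G) * (ra G).simple s ∈ Y := by
          by_contra h
          obtain ⟨w, b, hw1, hw2⟩ := hY _ h
          have h3 : (y : RA G) * (ra G).simple s ∈ (cw (ra G)).hs w (!b) := by
            have h4 : ¬ ((y : RA G) * (ra G).simple s ∈ (cw (ra G)).H w ↔ b = true) := hw2
            exact M7_b h4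
          have hopp : ∀ z : RA G, z ∈ (cw (ra G)).hs w b → z ∈ (cw (ra G)).hs w (!b) → False := by
            intro z h4 h5
            have h6 : z ∈ (cw (ra G)).H w ↔ b = true := h4
            have h7 : z ∈ (cw (ra G)).H w ↔ (!b) = true := h5
            exact M7_c h6 h7
          rcases hA23 (ra G) _ _ _ hgeo w (!b) h3 with h4 | h4
          · exact hopp _ (hw1 y.2) h4
          · exact hopp _ (hw1 hy) h4
        have e2 : g = (g * (ra G).simple s) * (ra G).simple s := by
          rw [mul_assoc, (ra G).simple_mul_simple_self, mul_one]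
        have e3 : φ g y = φ (g * (ra G).simple s) (M7_f G Y s y) := by
          conv_lhs => rw [e2]
          rw [map_mul φ (g * (ra G).simple s), Equiv.Perm.mul_apply, hφ, hf]
        have e4 := M7_pos G Y hmem
        have e5 : ((M7_f G Y s y : Y) : RA G) * (g * (ra G).simple s)⁻¹ = (y : RA G) * g⁻¹ := by
          rw [e4, ← e1]
          rw [show (y : RA G) * (ra G).simple s * ((ra G).simple s * g⁻¹) =
            (y : RA G) * ((ra G).simple s * (ra G).simple s) * g⁻¹ by group,
            (ra G).simple_mul_simple_self, mul_one]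
        rw [e3, ih _ hl _ (by rw [e5]; exact hy), e5]
    exact fun g y hy => key _ g rfl y hy
  · intro γ hγ g
    refine (ra G).simple_induction (p := fun g => ∀ (y y' : Y), (y' : RA G) = γ * (y : RA G) →
      ((φ g y' : Y) : RA G) = γ * ((φ g y : Y) : RA G)) g ?_ ?_ ?_
    · intro s y y' hyy
      rw [hφ, hf, hf]
      by_cases h : (y : RA G) * (ra G).simple s ∈ Y
      · have h' : (y' : RA G) * (ra G).simple s ∈ Y := by
          rw [hyy, mul_assoc]
          exact (hγ _).2 h
        rw [M7_pos G Y h, M7_pos G Y h', hyy, mul_assoc]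
      · have h' : (y' : RA G) * (ra G).simple s ∉ Y := by
          rw [hyy, mul_assoc]
          exact fun h2 => h ((hγ _).1 h2)
        rw [M7_neg G Y h, M7_neg G Y h', hyy]
    · intro y y' hyy
      rw [map_one]
      exact hyy
    · intro a b ha hb y y' hyy
      rw [map_mul, Equiv.Perm.mul_apply, Equiv.Perm.mul_apply]
      exact ha _ _ (hb _ _ hyy)

end Pool.Agent.helper78.DC
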