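import Pool.Agent.helper53.DC.SpecR

/-! Module dc:R2: dihedral positivity. -/

set_option autoImplicit false

namespace Pool.Agent.helper78.DC

open Pool.Agent.helper53.DC

theorem R2_col {B : Type} [Fintype B] [DecidableEq B] (c : B → B → ℝ) (i j : B) :
    (sgA c i).mulVec (Pi.single j 1) = Pi.single j 1 + c i j • Pi.single i 1 := by
  funext k
  rw [Matrix.mulVec_single_one]
  simp only [sgA, Matrix.col_apply, Matrix.of_apply, Pi.add_apply, Pi.smul_apply, smul_eq_mul,
    Pi.single_apply]
  split_ifs <;> simp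

theorem R2_self {B : Type} (M : CoxeterMatrix B) (i : B) : cc M i i = -2 := by
  unfold cc
  rw [M.diagonal]
  simp

theorem R2_symm {B : Type} (M : CoxeterMatrix B) (i j : B) : cc M i j = cc M j i := by
  unfold cc
  rw [M.symmetric]

theorem R2_aux {B W : Type} [Group W] [Fintype B] [DecidableEq B] {M : CoxeterMatrix B}
    (cs : CoxeterSystem M W) (φ : W →* Matrix B B ℝ) (hφ : ∀ i, φ (cs.simple i) = sgA (cc M) i)
    (i j : B) (u : ℕ → ℝ) (h0 : u 0 = 0) (h1 : u 1 = 1)
    (hrec : ∀ n, u (n + 2) = cc M i j * u (n + 1) - u n) (n : ℕ) :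
    (φ (cs.wordProd (CoxeterSystem.alternatingWord i j n))).mulVec (Pi.single i 1) =
      if Even n then u (n + 1) • Pi.single i 1 + u n • Pi.single j 1
      else u n • Pi.single i 1 + u (n + 1) • Pi.single j 1 := by
  induction n with
  | zero =>
    rw [if_pos (by decide)]
    show (φ (cs.wordProd [])).mulVec (Pi.single i 1) = u (0 + 1) • Pi.single i 1 +
      u 0 • Pi.single j 1
    rw [CoxeterSystem.wordProd_nil, map_one, Matrix.one_mulVec, zero_add, h0, h1, one_smul,
      zero_smul, add_zero]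
  | succ n ih =>
    rw [CoxeterSystem.alternatingWord_succ', CoxeterSystem.wordProd_cons, map_mul,
      ← Matrix.mulVec_mulVec, ih, hφ]
    by_cases hn : Even n
    · have hn' : ¬ Even (n + 1) := by
        rw [Nat.even_add_one]
        exact fun h => h hn
      rw [if_pos hn, if_pos hn, if_neg hn', Matrix.mulVec_add, Matrix.mulVec_smul,
        Matrix.mulVec_smul, R2_col, R2_col, R2_self, R2_symm M j i, hrec]
      module
    · have hn' : Even (n + 1) := by
        rw [Nat.even_add_one]
        exact hn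
      rw [if_neg hn, if_neg hn, if_pos hn', Matrix.mulVec_add, Matrix.mulVec_smul,
        Matrix.mulVec_smul, R2_col, R2_col, R2_self, hrec]
      module

theorem R2 : R2_stmt := by
  intro B W _ _ _ M cs φ hφ i j n hij hn
  -- the numbers `u`
  obtain ⟨u, h0, h1, hrec, hu, hu'⟩ : ∃ u : ℕ → ℝ, u 0 = 0 ∧ u 1 = 1 ∧
      (∀ n, u (n + 2) = cc M i j * u (n + 1) - u n) ∧ 0 ≤ u n ∧ 0 ≤ u (n + 1) := by
    by_cases hm : M i j = 0
    · refine ⟨fun n => n, by simp, by simp, fun n => ?_, by positivity, by positivity⟩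
      have : cc M i j = 2 := by
        unfold cc
        rw [hm]
        simp
      rw [this]
      push_cast
      ring
    · have hn2 : n < M i j := hn.resolve_right hm
      have hm2 : 2 ≤ M i j := by
        have h1 := M.off_diagonal i j hij
        omega
      have hm0 : (0 : ℝ) < (M i j : ℝ) := by exact_mod_cast Nat.pos_of_ne_zero hm
      set θ : ℝ := Real.pi / (M i j : ℝ) with hθ
      have hθ0 : 0 < θ := div_pos Real.pi_pos hm0
      have hθ1 : θ < Real.pi := by
        rw [hθ, div_lt_iff₀ hm0]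
        have : (2 : ℝ) ≤ (M i j : ℝ) := by exact_mod_cast hm2
        nlinarith [Real.pi_pos]
      have hs : 0 < Real.sin θ := Real.sin_pos_of_pos_of_lt_pi hθ0 hθ1
      have hpos : ∀ m : ℕ, m ≤ M i j → 0 ≤ Real.sin (m * θ) / Real.sin θ := by
        intro m hmm
        refine div_nonneg (Real.sin_nonneg_of_nonneg_of_le_pi (by positivity) ?_) hs.le
        rw [hθ]
        have : (m : ℝ) ≤ (M i j : ℝ) := by exact_mod_cast hmm
        calc (m : ℝ) * (Real.pi / (M i j : ℝ)) ≤ (M i j : ℝ) * (Real.pi / (M i j : ℝ)) :=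
              mul_le_mul_of_nonneg_right this (by positivity)
          _ = Real.pi := by field_simp
      refine ⟨fun n => Real.sin (n * θ) / Real.sin θ, by simp, ?_, fun n => ?_,
        hpos n (by omega), hpos (n + 1) (by omega)⟩
      · simp only [Nat.cast_one, one_mul]
        exact div_self hs.ne'
      · have e : cc M i j = 2 * Real.cos θ := rfl
        rw [e]
        have h2 : Real.sin (((n + 2 : ℕ) : ℝ) * θ) =
            2 * Real.cos θ * Real.sin (((n + 1 : ℕ) : ℝ) * θ) - Real.sin ((n : ℝ) * θ) := by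
          have e1 : ((n + 2 : ℕ) : ℝ) * θ = ((n + 1 : ℕ) : ℝ) * θ + θ := by push_cast; ring
          have e2 : (n : ℝ) * θ = ((n + 1 : ℕ) : ℝ) * θ - θ := by push_cast; ring
          rw [e1, e2, Real.sin_add, Real.sin_sub]
          ring
        show Real.sin (((n + 2 : ℕ) : ℝ) * θ) / Real.sin θ = _
        rw [h2]
        show _ = 2 * Real.cos θ * (Real.sin (((n + 1 : ℕ) : ℝ) * θ) / Real.sin θ) -
          Real.sin ((n : ℝ) * θ) / Real.sin θ
        ring
  rw [R2_aux cs φ hφ i j u h0 h1 hrec n]
  by_cases he : Even n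
  · rw [if_pos he]
    exact ⟨_, _, hu', hu, rfl⟩
  · rw [if_neg he]
    exact ⟨_, _, hu, hu', rfl⟩

end Pool.Agent.helper78.DC
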