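import Pool.Agent.helper53.DC.SpecR

/-! Module dc:R5: faithfulness of the geometric representation. -/

set_option autoImplicit false

namespace Pool.Agent.helper78.DC

open Pool.Agent.helper53.DC

theorem R5_col {B : Type} [Fintype B] [DecidableEq B] (M : CoxeterMatrix B) (i : B) :
    (sgA (cc M) i).mulVec (Pi.single i 1) = -Pi.single i 1 := by
  have hc : cc M i i = -2 := by
    unfold cc
    rw [M.diagonal]
    simp
  funext k
  rw [Matrix.mulVec_single_one]
  simp only [sgA, Matrix.col_apply, Matrix.of_apply, Pi.neg_apply, Pi.single_apply, hc]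
  split_ifs <;> norm_num

theorem R5 (hR4 : R4_stmt) : R5_stmt := by
  intro B W _ _ _ M cs φ hφ w hw
  by_contra hne
  obtain ⟨i, hi⟩ := cs.exists_rightDescent_of_ne_one hne
  have hi' : cs.length (w * cs.simple i) < cs.length w := hi
  have e : w = (w * cs.simple i) * cs.simple i := by
    rw [mul_assoc, cs.simple_mul_simple_self, mul_one]
  have h1 := hR4 cs φ hφ (w * cs.simple i) i (by rw [← e]; exact hi') i
  have h2 : (φ w).mulVec (Pi.single i 1) = -(φ (w * cs.simple i)).mulVec (Pi.single i 1) := by
    conv_lhs => rw [e]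
    rw [map_mul φ (w * cs.simple i), ← Matrix.mulVec_mulVec, hφ, R5_col, Matrix.mulVec_neg]
  rw [hw, Matrix.one_mulVec] at h2
  have h3 := congrFun h2 i
  rw [Pi.neg_apply, Pi.single_eq_same] at h3
  linarith

end Pool.Agent.helper78.DC
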