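import Pool.Agent.helper53.DC.SpecR

/-! Module dc:R9: avoiding finitely many elements. -/

set_option autoImplicit false

namespace Pool.Agent.helper78.DC

open Pool.Agent.helper53.DC

theorem R9 (hR8 : R8_stmt) : R9_stmt := by
  classical
  intro B W _ _ M cs F hF
  induction F using Finset.induction_on with
  | empty => exact ⟨⊤, inferInstance, inferInstance, fun g hg => absurd hg (Finset.notMem_empty g)⟩
  | insert a s ha ih =>
    obtain ⟨H, h1, h2, h3⟩ := ih fun g hg => hF g (Finset.mem_insert_of_mem hg)
    obtain ⟨H', h1', h2', h3'⟩ := hR8 cs a (hF a (Finset.mem_insert_self a s))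
    refine ⟨H ⊓ H', inferInstance, inferInstance, fun g hg hgH => ?_⟩
    rcases Finset.mem_insert.1 hg with rfl | hg
    · exact h3' hgH.2
    · exact h3 g hg hgH.1

end Pool.Agent.helper78.DC
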