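import Pool.Agent.helper53.DC.SpecA

/-! Module dc:W6: hulls. -/

set_option autoImplicit false

namespace Pool.Agent.helper78.DC

open Pool.Agent.helper53.DC

theorem W6_mono {X Wl : Type} (S : WS X Wl) {E E' : Set X} (h : E ⊆ E') :
    S.hull E ⊆ S.hull E' := fun _ hx w b hE => hx w b (h.trans hE)

theorem W6_sub {X Wl : Type} (S : WS X Wl) (E : Set X) : E ⊆ S.hull E :=
  fun _ hx _ _ hE => hE hx

theorem W6_sep {X Wl : Type} (S : WS X Wl) (E : Set X) (w : Wl) (h : ¬ S.CrS w E) :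
    ∃ b, E ⊆ S.hs w b := by
  classical
  by_cases h1 : ∃ x ∈ E, x ∈ S.H w
  · obtain ⟨x, hx, hxw⟩ := h1
    refine ⟨true, fun y hy => ?_⟩
    show y ∈ S.H w ↔ true = true
    by_contra hne
    apply h
    refine ⟨x, hx, y, hy, fun hiff => hne ?_⟩
    exact ⟨fun _ => rfl, fun _ => hiff.1 hxw⟩
  · refine ⟨false, fun y hy => ?_⟩
    show y ∈ S.H w ↔ false = true
    exact ⟨fun hyw => absurd ⟨y, hy, hyw⟩ h1, fun hf => by cases hf⟩

theorem W6 : W6_stmt := by
  intro X Wl S E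
  refine ⟨?_, W6_sub S E, ?_, ?_, fun E' h => W6_mono S h⟩
  · intro x hx
    have hx' : ¬ ∀ w b, E ⊆ S.hs w b → x ∈ S.hs w b := hx
    push Not at hx'
    obtain ⟨w, b, hE, hxb⟩ := hx'
    exact ⟨w, b, fun y hy => hy w b hE, hxb⟩
  · intro C hC hEC x hx
    by_contra hxC
    obtain ⟨w, b, h1, h2⟩ := hC x hxC
    exact h2 (hx w b (hEC.trans h1))
  · intro w
    constructor
    · intro h
      by_contra hne
      obtain ⟨b, hb⟩ := W6_sep S E w hne
      obtain ⟨x, hx, y, hy, hs⟩ := h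
      have h1 : x ∈ S.H w ↔ b = true := hx w b hb
      have h2 : y ∈ S.H w ↔ b = true := hy w b hb
      exact hs (h1.trans h2.symm)
    · rintro ⟨x, hx, y, hy, hs⟩
      exact ⟨x, W6_sub S E hx, y, W6_sub S E hy, hs⟩

end Pool.Agent.helper78.DC
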