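import Mathlib
import Pool.Agent.helper58.DC.Spec2

/-!
# Project dq, module FX (MP_baa4d7_al): the signed number of fixed elements of a path set
-/

set_option autoImplicit false

namespace Pool.Agent.helper78.DC

open Pool.Agent.helper58.DC

theorem FX_act {A L T : Type} [Group A] [Group L] [MulAction L T] [Fintype T] (S : SSet A)
    (c : Cocycle L T A) (l : L) (w : (pathS S c).Z) :
    (pathS S c).act l w = w ↔
      (∀ t, w.1.1 (l • t) = S.act (c.κ l t) (w.1.1 t)) ∧ wAct l w.1.2 = w.1.2 := by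
  have h1 : ((pathS S c).act l w).1 =
      (fun s => S.act (c.κ l (l⁻¹ • s)) (w.1.1 (l⁻¹ • s)), wAct l w.1.2) := rfl
  constructor
  · intro h
    have h2 : ((pathS S c).act l w).1 = w.1 := congrArg Subtype.val h
    rw [h1] at h2
    have h3 := congrArg Prod.fst h2
    have h4 := congrArg Prod.snd h2
    refine ⟨fun t => ?_, h4⟩
    have h5 := congrFun h3 (l • t)
    simp only [inv_smul_smul] at h5
    exact h5.symm
  · rintro ⟨h2, h3⟩
    apply Subtype.ext
    rw [h1]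
    refine Prod.ext ?_ h3
    funext s
    have h4 := h2 (l⁻¹ • s)
    rw [smul_inv_smul] at h4
    exact h4.symm

theorem FX_sigma {B : Type} {C : B → Type} (h1 : Finite B) (h2 : ∀ z, Finite (C z))
    (g : (Σ z, C z) → ℤ) : ∑ᶠ y, g y = ∑ᶠ z, ∑ᶠ W : C z, g ⟨z, W⟩ := by
  classical
  let _ := Fintype.ofFinite B
  let _ : ∀ z, Fintype (C z) := fun z => Fintype.ofFinite _
  rw [finsum_eq_sum_of_fintype, Fintype.sum_sigma, finsum_eq_sum_of_fintype]
  refine Finset.sum_congr rfl fun z _ => ?_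
  rw [finsum_eq_sum_of_fintype]

theorem FX (hOS : OS_stmt) : FX_stmt := by
  classical
  intro A L T _ _ _ _ S c d V
  have hfin := S.fin
  have hfZ : Finite (pathS S c).Z := (pathS S c).fin
  let P : (pathS S c).Z → Prop := fun w => (pathS S c).dfc w = d ∧ ∀ a ∈ V, (pathS S c).act a w = w
  let B : Type := {z : T → S.Z // (∀ l ∈ V, ∀ t, z (l • t) = S.act (c.κ l t) (z t)) ∧
      ∑ t, S.dfc (z t) = d}
  let C : B → Type := fun z =>
    {W : Finset (T → ℕ) // IsPath (fun t => S.len (z.1 t)) W ∧ ∀ v ∈ V, wAct v W = W}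
  let e : {w // P w} ≃ (Σ z, C z) :=
    { toFun := fun x => ⟨⟨x.1.1.1, ⟨fun l hl => ((FX_act S c l x.1).1 (x.2.2 l hl)).1, x.2.1⟩⟩,
        ⟨x.1.1.2, x.1.2, fun l hl => ((FX_act S c l x.1).1 (x.2.2 l hl)).2⟩⟩
      invFun := fun y => ⟨⟨(y.1.1, y.2.1), y.2.2.1⟩, y.1.2.2, fun l hl =>
        (FX_act S c l ⟨(y.1.1, y.2.1), y.2.2.1⟩).2 ⟨y.1.2.1 l hl, y.2.2.2 l hl⟩⟩
      left_inv := fun x => rfl
      right_inv := fun y => rfl }
  have hB : Finite B := Subtype.finite
  have hfS : Finite (Σ z, C z) := Finite.of_equiv _ e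
  have hC : ∀ z, Finite (C z) := fun z =>
    Finite.of_injective (fun W => (⟨z, W⟩ : Σ z, C z)) sigma_mk_injective
  have h1 : (pathS S c).fix d V = ∑ᶠ x : {w // P w}, (-1 : ℤ) ^ (pathS S c).len x.1 := by
    rw [finsum_subtype_eq_finsum_cond P (f := fun w => (-1 : ℤ) ^ (pathS S c).len w)]
    unfold SSet.fix
    refine finsum_congr fun w => ?_
    rw [finsum_eq_if]
  have h2 : ∑ᶠ x : {w // P w}, (-1 : ℤ) ^ (pathS S c).len x.1 =
      ∑ᶠ y : (Σ z, C z), (-1 : ℤ) ^ (y.2.1.card - 1) :=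
    finsum_comp_equiv e (f := fun y : (Σ z, C z) => (-1 : ℤ) ^ (y.2.1.card - 1))
  rw [h1, h2, FX_sigma hB hC]
  refine finsum_congr fun z => ?_
  have h3 := hOS L T V (fun t => S.len (z.1 t)) (fun v hv t => by
    have h4 := z.2.1 v hv t

    rw [h4, S.len_act])
  exact h3

end Pool.Agent.helper78.DC
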