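import Mathlib

set_option autoImplicit false

namespace Pool.Agent.helper78.DC

/-- The Apery polynomial `A_n(x) = ∑_{k=0}^n C(n,k)^2 C(n+k,k)^2 x^k` at a rational `x`. -/
def aperyPoly (n : ℕ) (x : ℚ) : ℚ :=
  ∑ k ∈ Finset.range (n + 1), (n.choose k : ℚ) ^ 2 * ((n + k).choose k : ℚ) ^ 2 * x ^ k

/-- The polynomial `D_n(x) = ∑_{k=0}^n C(n,k) C(n+k,k) x^k` at a rational `x`. -/
def dPoly (n : ℕ) (x : ℚ) : ℚ :=
  ∑ k ∈ Finset.range (n + 1), (n.choose k : ℚ) * ((n + k).choose k : ℚ) * x ^ k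

/-- `s(n) = n^{-2} ∑_{k=0}^{n-1} (2k+1) (-1)^k A_k(1/4)`. -/
def s (n : ℕ) : ℚ :=
  1 / (n : ℚ) ^ 2 * ∑ k ∈ Finset.range n, (2 * (k : ℚ) + 1) * (-1) ^ k * aperyPoly k (1 / 4)

/-- `t(n) = n^{-2} ∑_{k=0}^{n-1} (2k+1) (-1)^k D_k(-1/4)^3`. -/
def t (n : ℕ) : ℚ :=
  1 / (n : ℚ) ^ 2 * ∑ k ∈ Finset.range n, (2 * (k : ℚ) + 1) * (-1) ^ k * dPoly k (-1 / 4) ^ 3

/-- The congruence `r ≡ c (mod p^m)` in the localisation of the integers at `p`: the denominator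
of the rational number `r` is prime to `p` and `p^m` divides the numerator of `r - c`. -/
def RatCongr (r : ℚ) (c : ℤ) (p m : ℕ) : Prop :=
  ¬ p ∣ r.den ∧ (p : ℤ) ^ m ∣ r.num - c * (r.den : ℤ)

end Pool.Agent.helper78.DC
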