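import Pool.Agent.helper78.DC.Ident

set_option autoImplicit false

namespace Pool.Agent.helper78.DC

open Finset

/-- natural number version of `phi` -/
def phiN (k m : ℕ) : ℕ := k.choose m * (k + m).choose m

lemma phiN_cast (k m : ℕ) : ((phiN k m : ℕ) : ℚ) = phi k m := by
  unfold phiN phi
  push_cast
  ring

lemma linN (k i j : ℕ) :
    phiN k i * phiN k j
      = ∑ m ∈ range (k + 1), phiN k m * (m.choose i * m.choose j * (i + j).choose m) := by
  have h := lin k i j
  simp only [← phiN_cast] at h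
  exact_mod_cast h

/-- The Legendre-type polynomial `D_k(x) = ∑ C(k,m) C(k+m,m) x^m`. -/
def DD {R : Type*} [CommRing R] (k : ℕ) (x : R) : R :=
  ∑ m ∈ range (k + 1), (phiN k m : R) * x ^ m

/-- Bailey's product formula for Legendre polynomials. -/
lemma bailey {R : Type*} [CommRing R] (k : ℕ) (x y : R) :
    DD k (-x) * DD k (-y) = ∑ m ∈ range (k + 1), (-1) ^ m * (phiN k m : R) *
      ∑ r ∈ range (m + 1), (m.choose r : R) ^ 2 * (x * (1 - y)) ^ r * (y * (1 - x)) ^ (m - r) := by
  have e1 : DD k (-x) * DD k (-y)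
      = ∑ i ∈ range (k + 1), ∑ j ∈ range (k + 1), ∑ m ∈ range (k + 1),
        (phiN k m : R) * ((m.choose i : R) * (m.choose j : R) * ((i + j).choose m : R)
          * (-x) ^ i * (-y) ^ j) := by
    unfold DD
    rw [Finset.sum_mul_sum]
    apply Finset.sum_congr rfl
    intro i _
    apply Finset.sum_congr rfl
    intro j _
    have h := linN k i j
    have h' : ((phiN k i : ℕ) : R) * ((phiN k j : ℕ) : R)
        = ∑ m ∈ range (k + 1), (phiN k m : R) * ((m.choose i : R) * (m.choose j : R) * ((i + j).choose m : R)) := by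
      exact_mod_cast congrArg (Nat.cast (R := R)) h
    calc (phiN k i : R) * (-x) ^ i * ((phiN k j : R) * (-y) ^ j)
        = ((phiN k i : ℕ) : R) * ((phiN k j : ℕ) : R) * ((-x) ^ i * (-y) ^ j) := by ring
      _ = _ := by
        rw [h', Finset.sum_mul]
        apply Finset.sum_congr rfl
        intro m _
        ring
  rw [e1]
  have e2 : ∀ i ∈ range (k + 1), ∑ j ∈ range (k + 1), ∑ m ∈ range (k + 1),
        (phiN k m : R) * ((m.choose i : R) * (m.choose j : R) * ((i + j).choose m : R)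
          * (-x) ^ i * (-y) ^ j)
      = ∑ m ∈ range (k + 1), ∑ j ∈ range (k + 1),
        (phiN k m : R) * ((m.choose i : R) * (m.choose j : R) * ((i + j).choose m : R)
          * (-x) ^ i * (-y) ^ j) := by
    intro i _
    rw [Finset.sum_comm]
  rw [Finset.sum_congr rfl e2, Finset.sum_comm]
  apply Finset.sum_congr rfl
  intro m hm
  have hm' : m ≤ k := by
    have := Finset.mem_range.mp hm
    omega
  have e3 : ∑ i ∈ range (k + 1), ∑ j ∈ range (k + 1),
        (phiN k m : R) * ((m.choose i : R) * (m.choose j : R) * ((i + j).choose m : R)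
          * (-x) ^ i * (-y) ^ j)
      = (phiN k m : R) * ∑ i ∈ range (m + 1), ∑ j ∈ range (m + 1),
        (m.choose i : R) * (m.choose j : R) * ((i + j).choose m : R) * (-x) ^ i * (-y) ^ j := by
    rw [Finset.mul_sum]
    symm
    apply Finset.sum_subset_zero_on_sdiff (Finset.range_mono (by omega : m + 1 ≤ k + 1))
    · intro i hi
      have hi' : m < i := by
        simp only [Finset.mem_sdiff, Finset.mem_range] at hi
        omega
      rw [Nat.choose_eq_zero_of_lt hi']
      simp
    · intro i _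
      rw [Finset.mul_sum]
      apply Finset.sum_subset_zero_on_sdiff (Finset.range_mono (by omega : m + 1 ≤ k + 1))
      · intro j hj
        have hj' : m < j := by
          simp only [Finset.mem_sdiff, Finset.mem_range] at hj
          omega
        rw [Nat.choose_eq_zero_of_lt hj']
        simp
      · intro j _
        rfl
  rw [e3, double_sum]
  ring

lemma DD_neg_one {R : Type*} [CommRing R] (k : ℕ) : DD k (-1 : R) = (-1) ^ k := by
  have h := alt_sum k k k
  rw [if_pos le_rfl, Nat.sub_self, Nat.choose_zero_right] at h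
  unfold DD phiN
  have h' : ((∑ l ∈ range (k + 1), (-1 : ℤ) ^ l * (k.choose l) * ((k + l).choose k) : ℤ) : R)
      = (((-1) ^ k * ((1 : ℕ) : ℤ) : ℤ) : R) := by rw [h]
  push_cast at h'
  rw [mul_one] at h'
  rw [← h']
  apply Finset.sum_congr rfl
  intro m _
  have : (k + m).choose m = (k + m).choose k := by
    rw [← Nat.choose_symm (Nat.le_add_left m k)]
    congr 1
    omega
  rw [this]
  push_cast
  ring

/-- Reflection formula. -/
lemma DD_reflect {R : Type*} [CommRing R] (k : ℕ) (x : R) :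
    (-1) ^ k * DD k (-x) = DD k (-(1 - x)) := by
  have h := bailey k x (1 : R)
  rw [DD_neg_one] at h
  rw [mul_comm, h]
  unfold DD
  apply Finset.sum_congr rfl
  intro m _
  have e : ∑ r ∈ range (m + 1), (m.choose r : R) ^ 2 * (x * (1 - 1)) ^ r * (1 * (1 - x)) ^ (m - r)
      = (1 - x) ^ m := by
    rw [Finset.sum_range_succ']
    have h0 : ∀ r ∈ range m, (m.choose (r + 1) : R) ^ 2 * (x * (1 - 1)) ^ (r + 1)
        * (1 * (1 - x)) ^ (m - (r + 1)) = 0 := by
      intro r _
      simp
    rw [Finset.sum_eq_zero h0]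
    simp
  rw [e, neg_pow (1 - x) m]
  ring

/-! The moment functional `X^j ↦ C(2j,j)`. -/

open Polynomial in
/-- The moment functional. -/
noncomputable def Lf : ℚ[X] →ₗ[ℚ] ℚ :=
  Polynomial.lsum (fun n => (Nat.centralBinom n : ℚ) • (LinearMap.id : ℚ →ₗ[ℚ] ℚ))

open Polynomial in
lemma Lf_monomial (a : ℚ) (n : ℕ) : Lf (C a * X ^ n) = a * (Nat.centralBinom n : ℚ) := by
  unfold Lf
  rw [Polynomial.lsum_apply, C_mul_X_pow_eq_monomial, Polynomial.sum_monomial_index]
  · simp
    ring
  · simp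

open Polynomial in
lemma Lf_X_pow (n : ℕ) : Lf (X ^ n) = (Nat.centralBinom n : ℚ) := by
  have := Lf_monomial 1 n
  simpa using this

open Polynomial in
lemma Lf_C_mul (a : ℚ) (p : ℚ[X]) : Lf (C a * p) = a * Lf p := by
  rw [← smul_eq_C_mul, map_smul]
  simp

/-- Super Catalan-type numbers. -/
def SC (i j : ℕ) : ℚ :=
  ((2 * i).factorial : ℚ) * ((2 * j).factorial : ℚ) / ((i.factorial : ℚ) * (j.factorial : ℚ) * ((i + j).factorial : ℚ))

lemma SC_rec (i j : ℕ) : SC (i + 1) j = 4 * SC i j - SC i (j + 1) := by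
  unfold SC
  have h1 : ((2 * (i + 1)).factorial : ℚ) = (2 * i + 2) * (2 * i + 1) * ((2 * i).factorial : ℚ) := by
    rw [show 2 * (i + 1) = 2 * i + 1 + 1 by ring, Nat.factorial_succ, Nat.factorial_succ]
    push_cast
    ring
  have h2 : ((2 * (j + 1)).factorial : ℚ) = (2 * j + 2) * (2 * j + 1) * ((2 * j).factorial : ℚ) := by
    rw [show 2 * (j + 1) = 2 * j + 1 + 1 by ring, Nat.factorial_succ, Nat.factorial_succ]
    push_cast
    ring
  have h3 : ((i + 1).factorial : ℚ) = (i + 1) * (i.factorial : ℚ) := by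
    rw [Nat.factorial_succ]
    push_cast
    ring
  have h4 : ((j + 1).factorial : ℚ) = (j + 1) * (j.factorial : ℚ) := by
    rw [Nat.factorial_succ]
    push_cast
    ring
  have h5 : ((i + 1 + j).factorial : ℚ) = (i + j + 1) * ((i + j).factorial : ℚ) := by
    rw [show i + 1 + j = i + j + 1 by ring, Nat.factorial_succ]
    push_cast
    ring
  have h6 : ((i + (j + 1)).factorial : ℚ) = (i + j + 1) * ((i + j).factorial : ℚ) := by
    rw [show i + (j + 1) = i + j + 1 by ring, Nat.factorial_succ]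
    push_cast
    ring
  rw [h1, h2, h3, h4, h5, h6]
  have n1 : (i.factorial : ℚ) ≠ 0 := by positivity
  have n2 : (j.factorial : ℚ) ≠ 0 := by positivity
  have n3 : ((i + j).factorial : ℚ) ≠ 0 := by positivity
  have n4 : (i : ℚ) + 1 ≠ 0 := by positivity
  have n5 : (j : ℚ) + 1 ≠ 0 := by positivity
  have n6 : (i : ℚ) + j + 1 ≠ 0 := by positivity
  field_simp
  ring

lemma cb_cast (n : ℕ) :
    (Nat.centralBinom n : ℚ) = ((2 * n).factorial : ℚ) / ((n.factorial : ℚ) * (n.factorial : ℚ)) := by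
  rw [Nat.centralBinom_eq_two_mul_choose, Nat.cast_choose ℚ (by omega : n ≤ 2 * n),
    show 2 * n - n = n by omega]

lemma SC_zero (j : ℕ) : SC 0 j = (Nat.centralBinom j : ℚ) := by
  unfold SC
  rw [cb_cast]
  simp

open Polynomial in
lemma Lf_mixed (i j : ℕ) : Lf (X ^ j * (C 4 - X) ^ i) = SC i j := by
  induction i generalizing j with
  | zero =>
    rw [pow_zero, mul_one, Lf_X_pow, SC_zero]
  | succ i ih =>
    have e : (X ^ j * (C 4 - X) ^ (i + 1) : ℚ[X])
        = C 4 * (X ^ j * (C 4 - X) ^ i) - X ^ (j + 1) * (C 4 - X) ^ i := by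
      ring
    rw [e, map_sub, Lf_C_mul, ih, ih, SC_rec]

lemma choose_mul_SC (m j : ℕ) (h : j ≤ m) :
    (m.choose j : ℚ) * SC (m - j) j = (Nat.centralBinom j : ℚ) * (Nat.centralBinom (m - j) : ℚ) := by
  unfold SC
  rw [cb_cast, cb_cast, Nat.cast_choose ℚ h, Nat.sub_add_cancel h]
  have n1 : (m.factorial : ℚ) ≠ 0 := by positivity
  have n2 : (j.factorial : ℚ) ≠ 0 := by positivity
  have n3 : ((m - j).factorial : ℚ) ≠ 0 := by positivity
  field_simp

/-- `G b m = ∑_j C(m+j,j) C(2j,j) C(2(m-j),m-j) b^(m-j)`. -/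
def G (b m : ℕ) : ℕ :=
  ∑ j ∈ range (m + 1), (m + j).choose j * Nat.centralBinom j * Nat.centralBinom (m - j) * b ^ (m - j)

open Polynomial in
lemma Lf_sq (c : ℕ) (m : ℕ) :
    Lf (∑ j ∈ range (m + 1), (m.choose j : ℚ[X]) ^ 2 * X ^ j *
      (X + C (c : ℚ) * (C 4 - X)) ^ (m - j)) = (G c m : ℚ) := by
  rw [sq_sum, map_sum]
  unfold G
  push_cast
  apply Finset.sum_congr rfl
  intro j hj
  have hj' : j ≤ m := by
    have := Finset.mem_range.mp hj
    omega
  have e : ((m.choose j : ℚ[X]) * ((m + j).choose j : ℚ[X]) * X ^ j * (C (c : ℚ) * (C 4 - X)) ^ (m - j))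
      = C ((m.choose j : ℚ) * ((m + j).choose j : ℚ) * (c : ℚ) ^ (m - j)) * (X ^ j * (C 4 - X) ^ (m - j)) := by
    rw [mul_pow]
    simp only [map_mul, map_pow, map_natCast]
    ring
  rw [e, Lf_C_mul, Lf_mixed]
  have h := choose_mul_SC m j hj'
  calc (m.choose j : ℚ) * ((m + j).choose j : ℚ) * (c : ℚ) ^ (m - j) * SC (m - j) j
      = ((m.choose j : ℚ) * SC (m - j) j) * ((m + j).choose j : ℚ) * (c : ℚ) ^ (m - j) := by ring
    _ = _ := by rw [h]; ring

/-- First expansion: `∑ C(m,j)^2 C(2j,j) 4^(m-j) = G 1 m`. -/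
lemma G_one (m : ℕ) :
    ∑ j ∈ range (m + 1), (m.choose j : ℚ) ^ 2 * (Nat.centralBinom j : ℚ) * 4 ^ (m - j) = (G 1 m : ℚ) := by
  rw [← Lf_sq 1 m, map_sum]
  apply Finset.sum_congr rfl
  intro j _
  have e : ((m.choose j : Polynomial ℚ) ^ 2 * Polynomial.X ^ j *
      (Polynomial.X + Polynomial.C ((1 : ℕ) : ℚ) * (Polynomial.C 4 - Polynomial.X)) ^ (m - j))
      = Polynomial.C ((m.choose j : ℚ) ^ 2 * 4 ^ (m - j)) * Polynomial.X ^ j := by
    have e1 : (Polynomial.X + Polynomial.C ((1 : ℕ) : ℚ) * (Polynomial.C 4 - Polynomial.X))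
        = Polynomial.C 4 := by
      simp
    rw [e1]
    simp only [map_mul, map_pow, map_natCast]
    ring
  rw [e, Lf_monomial]
  ring

/-- Coefficient identity for the Apery polynomials. -/
lemma apery_coeff (k j : ℕ) (hj : j ≤ k) :
    (-1 : ℚ) ^ k * ((k.choose j : ℚ) ^ 2 * ((k + j).choose j : ℚ) ^ 2)
      = ∑ m ∈ range (k + 1), (-1) ^ m * phi k m * ((m.choose j : ℚ) ^ 2 * (Nat.centralBinom j : ℚ)) := by
  have h0 : ∑ m ∈ range (k + 1), (-1) ^ m * phi k m * ((m.choose j : ℚ) ^ 2 * (Nat.centralBinom j : ℚ))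
      = ∑ l ∈ range (k - j + 1), (-1) ^ (j + l) * phi k (j + l) *
        (((j + l).choose j : ℚ) ^ 2 * (Nat.centralBinom j : ℚ)) := by
    rw [Finset.range_eq_Ico, ← Finset.sum_Ico_consecutive _ (Nat.zero_le j) (by omega : j ≤ k + 1)]
    rw [Finset.sum_eq_zero, zero_add, Finset.sum_Ico_eq_sum_range]
    · congr 1
      congr 1
      omega
    · intro m hm
      have : m < j := (Finset.mem_Ico.mp hm).2
      rw [Nat.choose_eq_zero_of_lt this]
      simp
  rw [h0]
  have h1 : ∀ l ∈ range (k - j + 1), (-1) ^ (j + l) * phi k (j + l) *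
        (((j + l).choose j : ℚ) ^ 2 * (Nat.centralBinom j : ℚ))
      = ((-1) ^ j * phi k j * (Nat.centralBinom j : ℚ)) *
        (((-1 : ℤ) ^ l * ((k - j).choose l) * ((k + j + l).choose (k + j)) : ℤ) : ℚ) := by
    intro l hl
    have hl' : l ≤ k - j := by
      have := Finset.mem_range.mp hl
      omega
    unfold phi
    push_cast
    have c1 : (k.choose (j + l) : ℚ) = k.factorial / ((j + l).factorial * (k - j - l).factorial) := by
      rw [Nat.cast_choose ℚ (by omega : j + l ≤ k), show k - (j + l) = k - j - l by omega]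
    have c2 : ((k + (j + l)).choose (j + l) : ℚ)
        = (k + j + l).factorial / ((j + l).factorial * k.factorial) := by
      rw [Nat.cast_choose ℚ (by omega : j + l ≤ k + (j + l)), show k + (j + l) - (j + l) = k by omega,
        show k + (j + l) = k + j + l by omega]
    have c3 : ((j + l).choose j : ℚ) = (j + l).factorial / (j.factorial * l.factorial) := by
      rw [Nat.cast_choose ℚ (by omega : j ≤ j + l), show j + l - j = l by omega]
    have c4 : (k.choose j : ℚ) = k.factorial / (j.factorial * (k - j).factorial) := by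
      rw [Nat.cast_choose ℚ hj]
    have c5 : ((k + j).choose j : ℚ) = (k + j).factorial / (j.factorial * k.factorial) := by
      rw [Nat.cast_choose ℚ (by omega : j ≤ k + j), show k + j - j = k by omega]
    have c6 : ((k - j).choose l : ℚ) = (k - j).factorial / (l.factorial * (k - j - l).factorial) := by
      rw [Nat.cast_choose ℚ hl']
    have c7 : ((k + j + l).choose (k + j) : ℚ) = (k + j + l).factorial / ((k + j).factorial * l.factorial) := by
      rw [Nat.cast_choose ℚ (by omega : k + j ≤ k + j + l), show k + j + l - (k + j) = l by omega]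
    rw [c1, c2, c3, c4, c5, c6, c7, pow_add]
    have n1 : (k.factorial : ℚ) ≠ 0 := by positivity
    have n2 : (j.factorial : ℚ) ≠ 0 := by positivity
    have n3 : (l.factorial : ℚ) ≠ 0 := by positivity
    have n4 : ((k - j).factorial : ℚ) ≠ 0 := by positivity
    have n5 : ((k - j - l).factorial : ℚ) ≠ 0 := by positivity
    have n6 : ((j + l).factorial : ℚ) ≠ 0 := by positivity
    have n7 : ((k + j).factorial : ℚ) ≠ 0 := by positivity
    have n8 : ((k + j + l).factorial : ℚ) ≠ 0 := by positivity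
    field_simp
  rw [Finset.sum_congr rfl h1, ← Finset.mul_sum, ← Int.cast_sum, alt_sum, if_pos (by omega)]
  rw [show k + j - (k - j) = 2 * j by omega]
  unfold phi
  push_cast
  have c1 : ((k + j).choose (2 * j) : ℚ) * (Nat.centralBinom j : ℚ)
      = (k.choose j : ℚ) * ((k + j).choose j : ℚ) := by
    rw [cb_cast, Nat.cast_choose ℚ (by omega : 2 * j ≤ k + j), Nat.cast_choose ℚ hj,
      Nat.cast_choose ℚ (by omega : j ≤ k + j), show k + j - 2 * j = k - j by omega,
      show k + j - j = k by omega]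
    have n1 : (k.factorial : ℚ) ≠ 0 := by positivity
    have n2 : (j.factorial : ℚ) ≠ 0 := by positivity
    have n3 : ((2 * j).factorial : ℚ) ≠ 0 := by positivity
    have n4 : ((k - j).factorial : ℚ) ≠ 0 := by positivity
    field_simp
  have c2 : (-1 : ℚ) ^ k = (-1) ^ j * (-1) ^ (k - j) := by
    rw [← pow_add]
    congr 1
    omega
  rw [c2]
  linear_combination (-(-1 : ℚ) ^ j * (-1) ^ (k - j) * (k.choose j : ℚ) * ((k + j).choose j : ℚ)) * c1

/-- Expansion of the Apery polynomials at `1/4`. -/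
lemma apery_expand (k : ℕ) :
    (-1 : ℚ) ^ k * ∑ j ∈ range (k + 1), (k.choose j : ℚ) ^ 2 * ((k + j).choose j : ℚ) ^ 2 * (1 / 4) ^ j
      = ∑ m ∈ range (k + 1), (-1) ^ m * phi k m * ((G 1 m : ℚ) / 4 ^ m) := by
  rw [Finset.mul_sum]
  have h1 : ∀ j ∈ range (k + 1),
      (-1 : ℚ) ^ k * ((k.choose j : ℚ) ^ 2 * ((k + j).choose j : ℚ) ^ 2 * (1 / 4) ^ j)
      = ∑ m ∈ range (k + 1), (-1) ^ m * phi k m *
        ((m.choose j : ℚ) ^ 2 * (Nat.centralBinom j : ℚ) * (1 / 4) ^ j) := by
    intro j hj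
    have hj' : j ≤ k := by
      have := Finset.mem_range.mp hj
      omega
    have := apery_coeff k j hj'
    calc (-1 : ℚ) ^ k * ((k.choose j : ℚ) ^ 2 * ((k + j).choose j : ℚ) ^ 2 * (1 / 4) ^ j)
        = ((-1 : ℚ) ^ k * ((k.choose j : ℚ) ^ 2 * ((k + j).choose j : ℚ) ^ 2)) * (1 / 4) ^ j := by ring
      _ = _ := by
        rw [this, Finset.sum_mul]
        apply Finset.sum_congr rfl
        intro m _
        ring
  rw [Finset.sum_congr rfl h1, Finset.sum_comm]
  apply Finset.sum_congr rfl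
  intro m hm
  have hm' : m ≤ k := by
    have := Finset.mem_range.mp hm
    omega
  rw [← Finset.mul_sum]
  congr 1
  rw [← G_one, Finset.sum_div]
  symm
  apply Finset.sum_subset_zero_on_sdiff (Finset.range_mono (by omega : m + 1 ≤ k + 1))
  · intro j hj
    have hj' : m < j := by
      simp only [Finset.mem_sdiff, Finset.mem_range] at hj
      omega
    rw [Nat.choose_eq_zero_of_lt hj']
    simp
  · intro j hj
    have hj' : j ≤ m := by
      have := Finset.mem_range.mp hj
      omega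
    have : (4 : ℚ) ^ m = 4 ^ (m - j) * 4 ^ j := by
      rw [← pow_add]
      congr 1
      omega
    rw [this, one_div, inv_pow]
    field_simp

open Polynomial in
/-- Expansion of the cube of the Legendre value. -/
lemma cube_expand (k : ℕ) :
    (-1 : ℚ) ^ k * (DD k (-(1 / 4) : ℚ)) ^ 3
      = ∑ m ∈ range (k + 1), (-1) ^ m * phi k m * ((3 / 64) ^ m * (G 4 m : ℚ)) := by
  -- square
  have hsq : DD k (-(1 / 4) : ℚ) * DD k (-(1 / 4) : ℚ) = Lf (DD k (-(C (3 / 16) * X : ℚ[X]))) := by
    rw [bailey]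
    unfold DD
    rw [map_sum]
    apply Finset.sum_congr rfl
    intro m _
    have e1 : ∑ r ∈ range (m + 1), (m.choose r : ℚ) ^ 2 * (1 / 4 * (1 - 1 / 4)) ^ r *
        (1 / 4 * (1 - 1 / 4)) ^ (m - r) = (3 / 16) ^ m * (Nat.centralBinom m : ℚ) := by
      have e2 : ∀ r ∈ range (m + 1), (m.choose r : ℚ) ^ 2 * (1 / 4 * (1 - 1 / 4)) ^ r *
        (1 / 4 * (1 - 1 / 4)) ^ (m - r) = (3 / 16) ^ m * ((m.choose r : ℚ) ^ 2) := by
        intro r hr
        have hr' : r ≤ m := by
          have := Finset.mem_range.mp hr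
          omega
        rw [mul_assoc, ← pow_add, show r + (m - r) = m by omega]
        norm_num
        ring
      rw [Finset.sum_congr rfl e2, ← Finset.mul_sum]
      congr 1
      have := Nat.sum_range_choose_sq m
      rw [Nat.centralBinom_eq_two_mul_choose]
      exact_mod_cast this
    rw [e1]
    have e3 : ((phiN k m : ℕ) : ℚ[X]) * (-(C (3 / 16) * X : ℚ[X])) ^ m
        = C ((phiN k m : ℚ) * (-1) ^ m * (3 / 16) ^ m) * X ^ m := by
      rw [neg_pow, mul_pow]
      simp only [map_mul, map_pow, map_natCast, map_neg, map_one]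
      ring
    rw [e3, Lf_monomial]
    ring
  have hrefl : (-1 : ℚ) ^ k * DD k (-(1 / 4) : ℚ) = DD k (-(3 / 4) : ℚ) := by
    rw [DD_reflect]
    norm_num
  have hCmap : ∀ (y : ℚ), DD k (-(C y : ℚ[X])) = C (DD k (-y)) := by
    intro y
    unfold DD
    rw [map_sum]
    apply Finset.sum_congr rfl
    intro m _
    simp only [map_mul, map_pow, map_natCast, map_neg]
  calc (-1 : ℚ) ^ k * (DD k (-(1 / 4) : ℚ)) ^ 3
      = ((-1 : ℚ) ^ k * DD k (-(1 / 4) : ℚ)) * (DD k (-(1 / 4) : ℚ) * DD k (-(1 / 4) : ℚ)) := by ring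
    _ = DD k (-(3 / 4) : ℚ) * Lf (DD k (-(C (3 / 16) * X : ℚ[X]))) := by rw [hrefl, hsq]
    _ = Lf (DD k (-(C (3 / 16) * X : ℚ[X])) * DD k (-(C (3 / 4) : ℚ[X]))) := by
        rw [hCmap, mul_comm (DD k (-(C (3 / 16) * X : ℚ[X]))), Lf_C_mul]
    _ = _ := by
      rw [bailey, map_sum]
      apply Finset.sum_congr rfl
      intro m _
      have e1 : ∑ r ∈ range (m + 1), ((m.choose r : ℕ) : ℚ[X]) ^ 2 *
          (C (3 / 16) * X * (1 - C (3 / 4))) ^ r * (C (3 / 4) * (1 - C (3 / 16) * X)) ^ (m - r)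
          = C ((3 / 64) ^ m) * ∑ j ∈ range (m + 1), (m.choose j : ℚ[X]) ^ 2 * X ^ j *
            (X + C ((4 : ℕ) : ℚ) * (C 4 - X)) ^ (m - j) := by
        rw [Finset.mul_sum]
        apply Finset.sum_congr rfl
        intro r hr
        have hr' : r ≤ m := by
          have := Finset.mem_range.mp hr
          omega
        have f1 : (C (3 / 16) * X * (1 - C (3 / 4)) : ℚ[X]) = C (3 / 64) * X := by
          have : (1 : ℚ[X]) - C (3 / 4) = C (1 / 4) := by
            rw [← C_1, ← C_sub]
            norm_num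
          rw [this, mul_right_comm, ← C_mul]
          norm_num
        have f2 : (C (3 / 4) * (1 - C (3 / 16) * X) : ℚ[X])
            = C (3 / 64) * (X + C ((4 : ℕ) : ℚ) * (C 4 - X)) := by
          have g1 : (C (3 / 64) * (X + C ((4 : ℕ) : ℚ) * (C 4 - X)) : ℚ[X])
              = C (3 / 64) * C ((4 : ℕ) : ℚ) * C 4 + C (3 / 64) * X - C (3 / 64) * C ((4 : ℕ) : ℚ) * X := by
            ring
          have g2 : (C (3 / 4) * (1 - C (3 / 16) * X) : ℚ[X]) = C (3 / 4) - C (3 / 4) * C (3 / 16) * X := by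
            ring
          rw [g1, g2, ← C_mul, ← C_mul, ← C_mul]
          have g3 : (C (3 / 64) * X - C (3 / 64 * ((4 : ℕ) : ℚ)) * X : ℚ[X]) = - (C (9 / 64) * X) := by
            rw [← sub_mul, ← C_sub, ← neg_mul, ← C_neg]
            norm_num
          rw [add_sub_assoc, g3]
          norm_num
          ring
        rw [f1, f2, mul_pow, mul_pow]
        have f3 : (C ((3 / 64 : ℚ) ^ m) : ℚ[X]) = C (3 / 64) ^ r * C (3 / 64) ^ (m - r) := by
          rw [← pow_add, show r + (m - r) = m by omega, map_pow]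
        rw [f3]
        ring
      rw [e1]
      have e2 : ((-1) ^ m * ((phiN k m : ℕ) : ℚ[X]) * (C ((3 / 64) ^ m) *
          ∑ j ∈ range (m + 1), (m.choose j : ℚ[X]) ^ 2 * X ^ j *
            (X + C ((4 : ℕ) : ℚ) * (C 4 - X)) ^ (m - j)))
          = C ((-1) ^ m * (phiN k m : ℚ) * (3 / 64) ^ m) *
          ∑ j ∈ range (m + 1), (m.choose j : ℚ[X]) ^ 2 * X ^ j *
            (X + C ((4 : ℕ) : ℚ) * (C 4 - X)) ^ (m - j) := by
        simp only [map_mul, map_pow, map_natCast, map_neg, map_one]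
        ring
      rw [e2, Lf_C_mul, Lf_sq, phiN_cast]
      ring

end Pool.Agent.helper78.DC
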