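import Pool.Agent.helper78.DC.ModP

set_option autoImplicit false

namespace Pool.Agent.helper78.DC

open Finset Polynomial

section

variable {F : Type*} [Field F]

/-- alternating truncated evaluation -/
def ph (n : ℕ) (g : F[X]) : F := ∑ l ∈ range (n + 1), (-1) ^ l * g.coeff l

lemma ph_add (n : ℕ) (f g : F[X]) : ph n (f + g) = ph n f + ph n g := by
  unfold ph
  rw [← Finset.sum_add_distrib]
  apply Finset.sum_congr rfl
  intro l _
  rw [coeff_add]
  ring

lemma ph_C_mul (n : ℕ) (c : F) (g : F[X]) : ph n (C c * g) = c * ph n g := by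
  unfold ph
  rw [Finset.mul_sum]
  apply Finset.sum_congr rfl
  intro l _
  rw [coeff_C_mul]
  ring

lemma ph_one_add_X (n : ℕ) (f : F[X]) : ph n ((1 + X) * f) = (-1) ^ n * f.coeff n := by
  unfold ph
  induction n with
  | zero => simp
  | succ n ih =>
    rw [Finset.sum_range_succ, ih, add_mul, one_mul, coeff_add, coeff_X_mul]
    ring

lemma ph_one_sub_X (n : ℕ) (f : F[X]) : ph n ((1 - X) * f) = 2 * ph n f - (-1) ^ n * f.coeff n := by
  have e : (1 - X) * f = C 2 * f + C (-1) * ((1 + X) * f) := by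
    have h2 : (C 2 : F[X]) = 1 + 1 := by
      rw [show (2 : F) = 1 + 1 by norm_num, C_add, C_1]
    rw [h2, C_neg, C_1]
    ring
  rw [e, ph_add, ph_C_mul, ph_C_mul, ph_one_add_X]
  ring

lemma ph_eval (n : ℕ) (f : F[X]) (hf : f.natDegree ≤ n) : ph n f = f.eval (-1) := by
  unfold ph
  rw [eval_eq_sum_range' (Nat.lt_succ_of_le hf)]
  apply Finset.sum_congr rfl
  intro l _
  ring

lemma ph_X_pow_mul (n q : ℕ) (hq : n < q) (f : F[X]) : ph n (X ^ q * f) = 0 := by
  unfold ph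
  apply Finset.sum_eq_zero
  intro l hl
  have hl' : l < q := by
    have := Finset.mem_range.mp hl
    omega
  rw [coeff_X_pow_mul', if_neg (by omega), mul_zero]

/-- palindromic polynomials -/
lemma ph_palin (h : ℕ) (f : F[X]) (hf : f.natDegree ≤ 2 * h)
    (hp : ∀ l, l ≤ 2 * h → f.coeff (2 * h - l) = f.coeff l) :
    ph h ((1 - X) * f) = f.eval (-1) := by
  rw [ph_one_sub_X, ← ph_eval (2 * h) f hf]
  unfold ph
  have h1 : ∑ l ∈ range (2 * h + 1), (-1) ^ l * f.coeff l
      = ∑ l ∈ range (h + 1), (-1) ^ l * f.coeff l + ∑ l ∈ range h, (-1) ^ l * f.coeff l := by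
    rw [show 2 * h + 1 = (h + 1) + h by ring, Finset.sum_range_add]
    congr 1
    rw [← Finset.sum_range_reflect]
    apply Finset.sum_congr rfl
    intro l hl
    have hl' : l < h := Finset.mem_range.mp hl
    rw [show h + 1 + (h - 1 - l) = 2 * h - l by omega, hp l (by omega)]
    congr 1
    have : (-1 : F) ^ (2 * h) = (-1) ^ (2 * h - l) * (-1) ^ l := by
      rw [← pow_add]
      congr 1
      omega
    have h2 : (-1 : F) ^ (2 * h) = 1 := by
      rw [pow_mul]
      simp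
    have h3 : (-1 : F) ^ l * (-1) ^ l = 1 := by
      rw [← mul_pow]
      simp
    calc (-1 : F) ^ (2 * h - l) = (-1) ^ (2 * h - l) * ((-1) ^ l * (-1) ^ l) := by rw [h3, mul_one]
      _ = ((-1) ^ (2 * h - l) * (-1) ^ l) * (-1) ^ l := by ring
      _ = (-1) ^ l := by rw [← this, h2, one_mul]
  rw [h1, Finset.sum_range_succ]
  ring

/-- the quadratic `(1-3X)(X-3)` -/
noncomputable def RR : F[X] := (1 - C 3 * X) * (X - C 3)

lemma RR_eq : (RR : F[X]) = C (-3) + C 10 * X + C (-3) * X ^ 2 := by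
  unfold RR
  have h10 : (C 10 : F[X]) = C 3 * C 3 + 1 := by
    rw [← C_mul, ← C_1, ← C_add]
    norm_num
  rw [h10, C_neg]
  ring

lemma RR_natDegree : (RR : F[X]).natDegree ≤ 2 := by
  rw [RR_eq]
  compute_degree

lemma RR_reflect : reflect 2 (RR : F[X]) = RR := by
  ext n
  rw [coeff_reflect, RR_eq]
  by_cases hn : n ≤ 2
  · rw [revAt_le hn]
    interval_cases n <;> simp [coeff_X, coeff_C]
  · push Not at hn
    rw [revAt_eq_self_of_lt hn]

lemma RR_pow_reflect (h : ℕ) : reflect (2 * h) ((RR : F[X]) ^ h) = RR ^ h := by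
  induction h with
  | zero =>
    ext n
    rw [coeff_reflect]
    by_cases hn : n ≤ 0
    · have : n = 0 := by omega
      subst this
      simp
    · push Not at hn
      rw [mul_zero, revAt_eq_self_of_lt hn]
  | succ h ih =>
    rw [pow_succ, show 2 * (h + 1) = 2 * h + 2 by ring, reflect_mul _ _ ?_ RR_natDegree, ih, RR_reflect]
    calc ((RR : F[X]) ^ h).natDegree ≤ h * (RR : F[X]).natDegree := natDegree_pow_le
      _ ≤ h * 2 := Nat.mul_le_mul_left _ RR_natDegree
      _ = 2 * h := by ring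

lemma RR_ph (h : ℕ) : ph h ((1 - X) * (RR : F[X]) ^ h) = (-16) ^ h := by
  rw [ph_palin]
  · rw [eval_pow, RR]
    simp
    norm_num
  · calc ((RR : F[X]) ^ h).natDegree ≤ h * (RR : F[X]).natDegree := natDegree_pow_le
      _ ≤ h * 2 := Nat.mul_le_mul_left _ RR_natDegree
      _ = 2 * h := by ring
  · intro l hl
    have h1 := congrArg (fun f => coeff f l) (RR_pow_reflect (F := F) h)
    rw [coeff_reflect, revAt_le hl] at h1
    exact h1

lemma coefQ (i j : ℕ) : ((1 - X) * (1 + X : F[X]) ^ (i + 2 * j)).coeff j = (Qn i j : F) := by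
  rw [sub_mul, one_mul, coeff_sub, coeff_one_add_X_pow]
  unfold Qn
  cases j with
  | zero => simp
  | succ k =>
    rw [coeff_X_mul, coeff_one_add_X_pow]
    have s1 : (i + 2 * (k + 1)).choose (i + (k + 1)) = (i + 2 * (k + 1)).choose (k + 1) := by
      rw [← Nat.choose_symm (by omega : i + (k + 1) ≤ i + 2 * (k + 1))]
      congr 1
      omega
    have s2 : (i + 2 * (k + 1)).choose (i + (k + 1) + 1) = (i + 2 * (k + 1)).choose k := by
      rw [← Nat.choose_symm (by omega : i + (k + 1) + 1 ≤ i + 2 * (k + 1))]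
      congr 1
      omega
    rw [s1, s2]
    push_cast
    rfl

lemma E_t (h q : ℕ) (hq : h < q) (r1 r2 : F) (h1 : 4 * r1 = 3) (h2 : 16 * r2 = 3) (h3 : (3 : F) ≠ 0)
    (h4 : (4 : F) ^ h = 1) (hfrob : (1 - C 3 * X : F[X]) ^ (2 * h + 1) = 1 - C 3 * X ^ q) :
    ∑ j ∈ range (h + 1), ∑ i ∈ range (h + 1), (-r1) ^ i * (-r2) ^ j *
          ((h + 1).choose (i + 1) : F) * (h.choose j : F) * (Qn i j : F) = 1 := by
  -- the polynomials
  obtain ⟨K, hK⟩ : ∃ K : F[X], K = ∑ i ∈ range (h + 1), C (((h + 1).choose (i + 1) : F) * (-r1) ^ i) * (1 + X) ^ i :=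
    ⟨_, rfl⟩
  obtain ⟨P2, hP2⟩ : ∃ P2 : F[X], P2 = ∑ j ∈ range (h + 1), C ((h.choose j : F) * (-r2) ^ j) *
      (X ^ (h - j) * (1 + X) ^ (2 * j)) := ⟨_, rfl⟩
  have hcoef : ((1 - X) * (P2 * K)).coeff h = ∑ j ∈ range (h + 1), ∑ i ∈ range (h + 1), (-r1) ^ i * (-r2) ^ j *
          ((h + 1).choose (i + 1) : F) * (h.choose j : F) * (Qn i j : F) := by
    rw [hP2, hK, Finset.sum_mul_sum, Finset.mul_sum, finsetSum_coeff]
    apply Finset.sum_congr rfl
    intro j hj
    have hj' : j ≤ h := by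
      have := Finset.mem_range.mp hj
      omega
    rw [Finset.mul_sum, finsetSum_coeff]
    apply Finset.sum_congr rfl
    intro i _
    have e : (1 - X) * (C ((h.choose j : F) * (-r2) ^ j) * (X ^ (h - j) * (1 + X) ^ (2 * j)) *
        (C (((h + 1).choose (i + 1) : F) * (-r1) ^ i) * (1 + X) ^ i))
        = C ((-r1) ^ i * (-r2) ^ j * ((h + 1).choose (i + 1) : F) * (h.choose j : F)) *
          (X ^ (h - j) * ((1 - X) * (1 + X) ^ (i + 2 * j))) := by
      rw [pow_add]
      simp only [map_mul]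
      ring
    rw [e, coeff_C_mul, coeff_X_pow_mul', if_pos (by omega), show h - (h - j) = j by omega, coefQ]
  rw [← hcoef]
  -- closed forms
  have h16 : (16 : F) ^ h = 1 := by
    rw [show (16 : F) = 4 * 4 by norm_num, mul_pow, h4, one_mul]
  have c1 : P2 = RR ^ h := by
    have d1 : P2 = (C (-r2) * (1 + X) ^ 2 + X) ^ h := by
      rw [hP2, add_pow]
      apply Finset.sum_congr rfl
      intro j _
      rw [mul_pow, ← pow_mul]
      simp only [map_mul, map_pow, map_natCast]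
      ring
    have d2 : (RR : F[X]) = C 16 * (C (-r2) * (1 + X) ^ 2 + X) := by
      have d3 : C 16 * (C (-r2) * (1 + X) ^ 2 + X) = C (-(16 * r2)) * (1 + X) ^ 2 + C 16 * X := by
        simp only [map_mul, map_neg]
        ring
      rw [d3, h2, RR_eq]
      have d4 : (C 16 : F[X]) = C 10 + C 3 + C 3 := by
        rw [← C_add, ← C_add]
        norm_num
      rw [d4, C_neg]
      ring
    rw [d2, mul_pow, ← C_pow, h16, C_1, one_mul, d1]
  have c2 : C 3 * (1 + X) * K = C 4 - (1 - C 3 * X) ^ (h + 1) := by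
    have d1 : (C (-r1) * (1 + X)) * K = (C (-r1) * (1 + X) + 1) ^ (h + 1) - 1 := by
      rw [add_pow, Finset.sum_range_succ' _ (h + 1), hK, Finset.mul_sum]
      simp only [one_pow, mul_one, pow_zero, Nat.choose_zero_right, Nat.cast_one, add_sub_cancel_right]
      apply Finset.sum_congr rfl
      intro i _
      rw [mul_pow, pow_succ]
      simp only [map_mul, map_pow, map_natCast]
      ring
    have d2 : C 4 * (C (-r1) * (1 + X) + 1) = 1 - C 3 * X := by
      have : C 4 * (C (-r1) * (1 + X) + 1) = C (-(4 * r1)) * (1 + X) + C 4 := by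
        simp only [map_mul, map_neg]
        ring
      rw [this, h1]
      have d4 : (C 4 : F[X]) = 1 + C 3 := by
        rw [← C_1, ← C_add]
        norm_num
      rw [d4, C_neg]
      ring
    have d3 : (1 - C 3 * X : F[X]) ^ (h + 1) = C 4 * (C (-r1) * (1 + X) + 1) ^ (h + 1) := by
      rw [← d2, mul_pow, pow_succ (C 4 : F[X]) h, ← C_pow, h4, C_1, one_mul]
    have d5 : C 3 * (1 + X) * K = - (C 4 * ((C (-r1) * (1 + X)) * K)) := by
      have : (C 3 : F[X]) = - (C 4 * C (-r1)) := by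
        rw [← C_mul, ← C_neg]
        congr 1
        rw [← h1]
        ring
      rw [this]
      ring
    rw [d5, d1, d3]
    ring
  have c3 : C 3 * ((1 + X) * ((1 - X) * (P2 * K)))
      = C 4 * ((1 - X) * RR ^ h) + C (-1) * ((1 - X) * (X - C 3) ^ h) + X ^ q * (C 3 * ((1 - X) * (X - C 3) ^ h)) := by
    have d1 : C 3 * ((1 + X) * ((1 - X) * (P2 * K))) = (1 - X) * P2 * (C 3 * (1 + X) * K) := by ring
    have d2 : (RR : F[X]) ^ h * (1 - C 3 * X) ^ (h + 1) = (X - C 3) ^ h * (1 - C 3 * X) ^ (2 * h + 1) := by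
      unfold RR
      rw [mul_pow, show 2 * h + 1 = h + (h + 1) by ring, pow_add]
      ring
    rw [d1, c2, c1]
    have d3 : (1 - X) * RR ^ h * (C 4 - (1 - C 3 * X) ^ (h + 1))
        = C 4 * ((1 - X) * RR ^ h) - (1 - X) * ((RR : F[X]) ^ h * (1 - C 3 * X) ^ (h + 1)) := by ring
    rw [d3, d2, hfrob, C_neg, C_1]
    ring
  have c4 := congrArg (ph h) c3
  rw [ph_C_mul, ph_one_add_X, ph_add, ph_add, ph_C_mul, ph_C_mul, RR_ph, ph_X_pow_mul h q hq, ph_one_sub_X,
    ph_eval h ((X - C 3) ^ h) ?_] at c4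
  · have e1 : ((X - C 3 : F[X]) ^ h).coeff h = 1 := by
      have hm : ((X - C 3 : F[X]) ^ h).Monic := (monic_X_sub_C 3).pow h
      have hd : ((X - C 3 : F[X]) ^ h).natDegree = h := by
        rw [natDegree_pow, natDegree_X_sub_C, mul_one]
      have := hm.coeff_natDegree
      rwa [hd] at this
    rw [e1] at c4
    have e2 : ((X - C 3 : F[X]) ^ h).eval (-1) = (-1) ^ h := by
      rw [eval_pow, eval_sub, eval_X, eval_C, show (-1 - 3 : F) = (-1) * 4 by norm_num, mul_pow, h4, mul_one]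
    rw [e2] at c4
    have e3 : (-16 : F) ^ h = (-1) ^ h := by
      rw [show (-16 : F) = (-1) * 16 by norm_num, mul_pow, h16, mul_one]
    rw [e3] at c4
    have e4 : ((-1 : F) ^ h) ≠ 0 := pow_ne_zero _ (by norm_num)
    have e5 : (3 * (-1 : F) ^ h) * ((1 - X) * (P2 * K)).coeff h = (3 * (-1 : F) ^ h) * 1 := by
      linear_combination c4
    exact mul_left_cancel₀ (mul_ne_zero h3 e4) e5
  · rw [natDegree_pow, natDegree_X_sub_C, mul_one]

end

section ModP

variable (p : ℕ) [hpf : Fact p.Prime]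

theorem TT_mod_p (e : ℕ) (he : p = 2 * e + 1) (hp3 : p ≠ 3) (a : ℕ) (ha : 0 < a) :
    (TT (p ^ a) : ZMod p) = 1 := by
  have hp := hpf.out
  obtain ⟨h, hh⟩ : ∃ h, p ^ a = 2 * h + 1 := by
    have : Odd (p ^ a) := Odd.pow ⟨e, he⟩
    exact this
  have h2 := two_ne_zero' p e he
  have h4 : (4 : ZMod p) ≠ 0 := by
    have : (4 : ZMod p) = 2 * 2 := by norm_num
    rw [this]
    exact mul_ne_zero h2 h2
  have h64 : (64 : ZMod p) ≠ 0 := by
    have : (64 : ZMod p) = 4 * 4 * 4 := by norm_num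
    rw [this]
    exact mul_ne_zero (mul_ne_zero h4 h4) h4
  have h3 : (3 : ZMod p) ≠ 0 := by
    intro h
    have : ((3 : ℕ) : ZMod p) = 0 := by exact_mod_cast h
    rw [ZMod.natCast_eq_zero_iff] at this
    exact hp3 ((Nat.prime_dvd_prime_iff_eq hp Nat.prime_three).mp this)
  have h4h : (4 : ZMod p) ^ h = 1 := by
    have := pow_q p a 2 h2
    rw [hh, show 2 * h + 1 - 1 = 2 * h by omega, pow_mul] at this
    rw [← this]
    norm_num
  have hT : (TT (p ^ a) : ZMod p)
      = ((∑ m ∈ range (p ^ a), 64 ^ (p ^ a - 1 - m) * 3 ^ m * B 4 m : ℤ) : ZMod p) := by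
    rw [ZMod.intCast_eq_intCast_iff]
    exact (TT_mod p a hp).of_dvd (dvd_pow_self _ (by norm_num))
  rw [hT]
  push_cast
  have e1 : ∀ m ∈ range (p ^ a), (64 : ZMod p) ^ (p ^ a - 1 - m) * 3 ^ m * (B 4 m : ZMod p)
      = ∑ j ∈ range (m + 1), (tau m j : ZMod p) * (4 * (3 * 64⁻¹)) ^ (m - j) * (3 * 64⁻¹) ^ j := by
    intro m hm
    have hm' : m < p ^ a := Finset.mem_range.mp hm
    have e2 : (64 : ZMod p) ^ (p ^ a - 1 - m) = (64⁻¹) ^ m := by
      have e3 : (64 : ZMod p) ^ (p ^ a - 1 - m) * 64 ^ m = 1 := by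
        rw [← pow_add, Nat.sub_add_cancel (by omega), pow_q p a _ h64]
      rw [inv_pow]
      exact eq_inv_of_mul_eq_one_left e3
    rw [e2]
    unfold B
    push_cast
    rw [Finset.mul_sum]
    apply Finset.sum_congr rfl
    intro j hj
    have hj' : j ≤ m := by
      have := Finset.mem_range.mp hj
      omega
    have e4 : (64⁻¹ : ZMod p) ^ m * 3 ^ m = (3 * 64⁻¹) ^ (m - j) * (3 * 64⁻¹) ^ j := by
      rw [← pow_add, Nat.sub_add_cancel hj', mul_pow]
      ring
    rw [e4, mul_pow 4 (3 * 64⁻¹ : ZMod p)]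
    ring
  rw [Finset.sum_congr rfl e1, total p e he a ha h hh]
  have hx : (4 * (3 * 64⁻¹) : ZMod p) ≠ 0 := mul_ne_zero h4 (mul_ne_zero h3 (inv_ne_zero h64))
  rw [pow_q p a _ hx]
  have f1 : (-4 * (4 * (3 * 64⁻¹)) : ZMod p) = -(16 * (3 * 64⁻¹)) := by ring
  have f2 : (-4 * (3 * 64⁻¹) : ZMod p) = -(4 * (3 * 64⁻¹)) := by ring
  rw [f1, f2]
  have hE := E_t (F := ZMod p) h (p ^ a) (by omega) (16 * (3 * 64⁻¹)) (4 * (3 * 64⁻¹))
    (by
      have : (4 * (16 * (3 * 64⁻¹)) : ZMod p) = 3 * (64 * 64⁻¹) := by ring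
      rw [this, mul_inv_cancel₀ h64, mul_one])
    (by
      have : (16 * (4 * (3 * 64⁻¹)) : ZMod p) = 3 * (64 * 64⁻¹) := by ring
      rw [this, mul_inv_cancel₀ h64, mul_one])
    h3 h4h
    (by
      rw [← hh, sub_pow_char_pow, one_pow, mul_pow, ← C_pow, ZMod.pow_card_pow])
  rw [hE]
  norm_num

end ModP

end Pool.Agent.helper78.DC
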