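import Pool.Agent.helper78.DC.Three

set_option autoImplicit false

namespace Pool.Agent.helper78.DC

open Finset

lemma sum_range_three {M : Type*} [AddCommMonoid M] (F : ℕ → M) (n : ℕ) :
    ∑ x ∈ range (3 * n), F x = ∑ j ∈ range n, (F (3 * j) + F (3 * j + 1) + F (3 * j + 2)) := by
  induction n with
  | zero => simp
  | succ n ih =>
    rw [show 3 * (n + 1) = 3 * n + 1 + 1 + 1 by ring, Finset.sum_range_succ, Finset.sum_range_succ,
      Finset.sum_range_succ, ih, Finset.sum_range_succ]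
    simp only [add_assoc]

/-- `G 1 m` as antidiagonal sum -/
def Gs (m : ℕ) : ℕ := ∑ j ∈ range (m + 1), gz (m - j) j

/-- `B 1 m` as antidiagonal sum -/
def Bs (m : ℕ) : ℤ := ∑ j ∈ range (m + 1), Tz (m - j) j

/-- first moment -/
def S1 (m : ℕ) : ℕ := ∑ j ∈ range (m + 1), j * gz (m - j) j

lemma Bs_eq (m : ℕ) : B 1 m = Bs m := by
  unfold B Bs
  apply Finset.sum_congr rfl
  intro j hj
  have hj' : j ≤ m := by
    have := Finset.mem_range.mp hj
    omega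
  unfold Tz
  rw [Nat.sub_add_cancel hj']
  simp

lemma Bs_Gs (m : ℕ) : ((m : ℤ) + 1) * Bs m = (Gs m : ℤ) := by
  unfold Bs Gs
  rw [Finset.mul_sum]
  push_cast
  apply Finset.sum_congr rfl
  intro j hj
  have hj' : j ≤ m := by
    have := Finset.mem_range.mp hj
    omega
  rw [← Tz_gz]
  push_cast [Nat.cast_sub hj']
  ring

lemma Bs_Gs9 (m : ℕ) : ((m : ZMod 9) + 1) * ((Bs m : ℤ) : ZMod 9) = ((Gs m : ℕ) : ZMod 9) := by
  have := congrArg (Int.cast (R := ZMod 9)) (Bs_Gs m)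
  push_cast at this
  exact this

lemma nine : (9 : ZMod 9) = 0 := by decide

lemma cb2_zero : (Nat.centralBinom 2 : ZMod 3) = 0 := by
  rw [Nat.centralBinom_eq_two_mul_choose]
  decide

lemma cb_three (i : ℕ) : 3 ∣ Nat.centralBinom (3 * i + 2) := by
  have : Fact (Nat.Prime 3) := ⟨Nat.prime_three⟩
  have h := cb_lucas 3 (3 * i + 2)
  rw [show (3 * i + 2) % 3 = 2 by omega] at h
  rw [cb2_zero, zero_mul, ZMod.natCast_eq_zero_iff] at h
  exact h

lemma g22 (i j : ℕ) : ((gz (3 * i + 2) (3 * j + 2) : ℕ) : ZMod 9) = 0 := by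
  rw [ZMod.natCast_eq_zero_iff]
  unfold gz
  have h1 := cb_three i
  have h2 := cb_three j
  have h3 := mul_dvd_mul h2 h1
  rw [mul_assoc]
  exact Dvd.dvd.mul_left h3 _

lemma g_j2 (i j : ℕ) : (3 : ZMod 9) * ((gz i (3 * j + 2) : ℕ) : ZMod 9) = 0 := by
  have h : 9 ∣ 3 * gz i (3 * j + 2) := by
    unfold gz
    obtain ⟨c, hc⟩ := cb_three j
    rw [hc]
    exact ⟨(i + 2 * (3 * j + 2)).choose (3 * j + 2) * c * Nat.centralBinom i, by ring⟩
  have := (ZMod.natCast_eq_zero_iff (3 * gz i (3 * j + 2)) 9).mpr h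
  push_cast at this
  exact this

/-- `G` at `3k+1` -/
lemma Gs1 (k : ℕ) : ((Gs (3 * k + 1) : ℕ) : ZMod 9) = (6 + 3 * (k : ZMod 9)) * ((Gs k : ℕ) : ZMod 9) := by
  unfold Gs
  push_cast
  rw [show 3 * k + 1 + 1 = 3 * k + 1 + 1 by rfl, Finset.sum_range_succ, Finset.sum_range_succ, sum_range_three]
  have h1 : ∀ j ∈ range k, ((gz (3 * k + 1 - 3 * j) (3 * j) : ZMod 9) + (gz (3 * k + 1 - (3 * j + 1)) (3 * j + 1) : ZMod 9)
      + (gz (3 * k + 1 - (3 * j + 2)) (3 * j + 2) : ZMod 9)) = (6 + 3 * (k : ZMod 9)) * (gz (k - j) j : ZMod 9) := by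
    intro j hj
    have hj' : j < k := Finset.mem_range.mp hj
    obtain ⟨i, rfl⟩ : ∃ i, k = i + 1 + j := ⟨k - j - 1, by omega⟩
    rw [show 3 * (i + 1 + j) + 1 - 3 * j = 3 * (i + 1) + 1 by omega,
      show 3 * (i + 1 + j) + 1 - (3 * j + 1) = 3 * (i + 1) by omega,
      show 3 * (i + 1 + j) + 1 - (3 * j + 2) = 3 * i + 2 by omega,
      show i + 1 + j - j = i + 1 by omega, g10, g01, g22]
    push_cast
    linear_combination (3 * ((i : ZMod 9) + 1 + j) * (gz (i + 1) j : ZMod 9)) * nine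
  rw [Finset.sum_congr rfl h1, Finset.mul_sum, Finset.sum_range_succ,
    show 3 * k + 1 - 3 * k = 3 * 0 + 1 by omega, show 3 * k + 1 - (3 * k + 1) = 3 * 0 by omega,
    show k - k = 0 by omega, g10, g01]
  push_cast
  linear_combination (3 * (k : ZMod 9) * (gz 0 k : ZMod 9)) * nine

lemma gp_gz (i j : ℕ) : ((i : ZMod 9) + j + 1) * (gp i j : ZMod 9) = ((i : ZMod 9) + 2 * j + 1) * (gz i j : ZMod 9) := by
  have h : (i + j + 1) * gp i j = (i + 2 * j + 1) * gz i j := by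
    unfold gp gz
    have := Nat.choose_mul_succ_eq (i + 2 * j) j
    rw [show i + 2 * j + 1 - j = i + j + 1 by omega] at this
    calc (i + j + 1) * ((i + 2 * j + 1).choose j * Nat.centralBinom j * Nat.centralBinom i)
        = ((i + 2 * j + 1).choose j * (i + j + 1)) * Nat.centralBinom j * Nat.centralBinom i := by ring
      _ = _ := by rw [← this]; ring
  have := congrArg (Nat.cast (R := ZMod 9)) h
  push_cast at this
  exact this

/-- `G` at `3k` -/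
lemma Gs0 (k : ℕ) : ((Gs (3 * (k + 1)) : ℕ) : ZMod 9)
    = ((Gs (k + 1) : ℕ) : ZMod 9) + 6 * ((k : ZMod 9) + 1) * ((Gs k : ℕ) : ZMod 9) + 6 * ((S1 k : ℕ) : ZMod 9) := by
  unfold Gs S1
  push_cast
  rw [Finset.sum_range_succ, sum_range_three, Finset.sum_range_succ _ (k + 1)]
  have h1 : ∀ j ∈ range (k + 1), ((gz (3 * (k + 1) - 3 * j) (3 * j) : ZMod 9) + (gz (3 * (k + 1) - (3 * j + 1)) (3 * j + 1) : ZMod 9)
      + (gz (3 * (k + 1) - (3 * j + 2)) (3 * j + 2) : ZMod 9)) =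
      (gz (k + 1 - j) j : ZMod 9) + (6 * ((k : ZMod 9) + 1) * (gz (k - j) j : ZMod 9) + 6 * ((j : ZMod 9) * (gz (k - j) j : ZMod 9))) := by
    intro j hj
    have hj' : j < k + 1 := Finset.mem_range.mp hj
    obtain ⟨i, rfl⟩ : ∃ i, k = i + j := ⟨k - j, by omega⟩
    rw [show 3 * (i + j + 1) - 3 * j = 3 * (i + 1) by omega,
      show 3 * (i + j + 1) - (3 * j + 1) = 3 * i + 2 by omega,
      show 3 * (i + j + 1) - (3 * j + 2) = 3 * i + 1 by omega,
      show i + j + 1 - j = i + 1 by omega, show i + j - j = i by omega, g00, g21, g12]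
    have h2 := gp_gz i j
    push_cast
    linear_combination 6 * h2
  rw [Finset.sum_congr rfl h1, show 3 * (k + 1) - 3 * (k + 1) = 3 * 0 by omega, g00,
    Finset.sum_add_distrib, Finset.sum_add_distrib, ← Finset.mul_sum, ← Finset.mul_sum,
    show k + 1 - (k + 1) = 0 by omega]
  ring

lemma three_Gs (m : ℕ) (hm : 1 ≤ m) : (3 : ZMod 9) * ((Gs m : ℕ) : ZMod 9) = 0 := by
  induction m using Nat.strong_induction_on with
  | _ m ih =>
    obtain ⟨k, hk⟩ : ∃ k, m = 3 * k ∨ m = 3 * k + 1 ∨ m = 3 * k + 2 := ⟨m / 3, by omega⟩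
    rcases hk with rfl | rfl | rfl
    · obtain ⟨k', rfl⟩ : ∃ k', k = k' + 1 := ⟨k - 1, by omega⟩
      rw [Gs0]
      have h := ih (k' + 1) (by omega) (by omega)
      linear_combination h + (2 * ((k' : ZMod 9) + 1) * ((Gs k' : ℕ) : ZMod 9) + 2 * ((S1 k' : ℕ) : ZMod 9)) * nine
    · rw [Gs1]
      linear_combination ((2 + (k : ZMod 9)) * ((Gs k : ℕ) : ZMod 9)) * nine
    · rw [← Bs_Gs9]
      push_cast
      linear_combination (((k : ZMod 9) + 1) * ((Bs (3 * k + 2) : ℤ) : ZMod 9)) * nine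

lemma Gs_zero : Gs 0 = 1 := by
  simp [Gs, gz]

lemma S1_zero : S1 0 = 0 := by
  simp [S1]

lemma three_S1 (m : ℕ) : (3 : ZMod 9) * ((S1 m : ℕ) : ZMod 9) = if m = 1 then 3 else 0 := by
  obtain ⟨k, hk⟩ : ∃ k, m = 3 * k ∨ m = 3 * k + 1 ∨ m = 3 * k + 2 := ⟨m / 3, by omega⟩
  rcases hk with rfl | rfl | rfl
  · rw [if_neg (by omega)]
    unfold S1
    push_cast
    rw [Finset.sum_range_succ, sum_range_three, mul_add, Finset.mul_sum, Finset.sum_eq_zero]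
    · push_cast
      linear_combination ((k : ZMod 9) * (gz (3 * k - 3 * k) (3 * k) : ZMod 9)) * nine
    · intro j hj
      have hj' : j < k := Finset.mem_range.mp hj
      obtain ⟨i, rfl⟩ : ∃ i, k = i + 1 + j := ⟨k - j - 1, by omega⟩
      rw [show 3 * (i + 1 + j) - 3 * j = 3 * (i + 1) by omega,
        show 3 * (i + 1 + j) - (3 * j + 1) = 3 * i + 2 by omega,
        show 3 * (i + 1 + j) - (3 * j + 2) = 3 * i + 1 by omega, g21, g12]
      push_cast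
      linear_combination ((j : ZMod 9) * (gz (3 * (i + 1)) (3 * j) : ZMod 9) + (3 * (j : ZMod 9) + 1) * (2 * i + 1) * (gp i j : ZMod 9)
        + (3 * (j : ZMod 9) + 2) * (2 * j + 1) * (gp i j : ZMod 9)) * nine
  · have h0 : (3 : ZMod 9) * ((S1 (3 * k + 1) : ℕ) : ZMod 9) = 3 * ((Gs k : ℕ) : ZMod 9) := by
      unfold S1 Gs
      push_cast
      rw [Finset.sum_range_succ, Finset.sum_range_succ, sum_range_three]
      have h1 : ∀ j ∈ range k, (((3 * j : ℕ) : ZMod 9) * (gz (3 * k + 1 - 3 * j) (3 * j) : ZMod 9)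
          + ((3 * j + 1 : ℕ) : ZMod 9) * (gz (3 * k + 1 - (3 * j + 1)) (3 * j + 1) : ZMod 9)
          + ((3 * j + 2 : ℕ) : ZMod 9) * (gz (3 * k + 1 - (3 * j + 2)) (3 * j + 2) : ZMod 9))
          = (gz (k - j) j : ZMod 9) + 3 * ((j : ZMod 9) * (gz (3 * k + 1 - 3 * j) (3 * j) : ZMod 9)
            + (1 + 4 * j + 8 * k + 24 * j * k) * (gz (k - j) j : ZMod 9)) := by
        intro j hj
        have hj' : j < k := Finset.mem_range.mp hj
        obtain ⟨i, rfl⟩ : ∃ i, k = i + 1 + j := ⟨k - j - 1, by omega⟩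
        rw [show 3 * (i + 1 + j) + 1 - (3 * j + 1) = 3 * (i + 1) by omega,
          show 3 * (i + 1 + j) + 1 - (3 * j + 2) = 3 * i + 2 by omega,
          show i + 1 + j - j = i + 1 by omega, g01, g22]
        push_cast
        ring
      rw [Finset.sum_congr rfl h1, Finset.sum_range_succ _ k, Finset.sum_add_distrib, ← Finset.mul_sum,
        show 3 * k + 1 - 3 * k = 3 * 0 + 1 by omega, show 3 * k + 1 - (3 * k + 1) = 3 * 0 by omega,
        show k - k = 0 by omega, g01]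
      push_cast
      generalize ∑ i ∈ range k, ((i : ZMod 9) * (gz (3 * k + 1 - 3 * i) (3 * i) : ZMod 9)
            + (1 + 4 * i + 8 * k + 24 * i * k) * (gz (k - i) i : ZMod 9)) = Y
      linear_combination (Y + (k : ZMod 9) * (gz (3 * 0 + 1) (3 * k) : ZMod 9)
        + (1 + 4 * k + 8 * k + 24 * k * k) * (gz 0 k : ZMod 9)) * nine
    rw [h0]
    by_cases hk : k = 0
    · subst hk
      rw [if_pos rfl, Gs_zero]
      norm_num
    · rw [if_neg (by omega), three_Gs k (by omega)]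
  · rw [if_neg (by omega)]
    unfold S1
    push_cast
    rw [show 3 * k + 2 + 1 = 3 * (k + 1) by ring, sum_range_three, Finset.mul_sum, Finset.sum_eq_zero]
    intro j hj
    have hj' : j < k + 1 := Finset.mem_range.mp hj
    obtain ⟨i, rfl⟩ : ∃ i, k = i + j := ⟨k - j, by omega⟩
    rw [show 3 * (i + j) + 2 - 3 * j = 3 * i + 2 by omega,
      show 3 * (i + j) + 2 - (3 * j + 1) = 3 * i + 1 by omega,
      show 3 * (i + j) + 2 - (3 * j + 2) = 3 * i by omega]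
    have h1 := g_j2 (3 * i) j
    have h2 : ((gz (3 * i + 1) (3 * j + 1) : ℕ) : ZMod 9)
        = 3 * (((i : ZMod 9) + j + 1) * ((Tz (3 * i + 1) (3 * j + 1) : ℤ) : ZMod 9)) := by
      have := congrArg (Int.cast (R := ZMod 9)) (Tz_gz (3 * i + 1) (3 * j + 1))
      push_cast at this
      rw [← this]
      ring
    rw [h2]
    push_cast
    linear_combination (3 * (j : ZMod 9) + 2) * h1 + ((j : ZMod 9) * (gz (3 * i + 2) (3 * j) : ZMod 9)
      + (3 * (j : ZMod 9) + 1) * (((i : ZMod 9) + j + 1) * ((Tz (3 * i + 1) (3 * j + 1) : ℤ) : ZMod 9))) * nine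

/-- `B` at `3k+2` -/
lemma Bs2_rec (k : ℕ) : ((Bs (3 * k + 2) : ℤ) : ZMod 9)
    = 3 * ((S1 k : ℕ) : ZMod 9) - (k : ZMod 9) * ((Bs k : ℤ) : ZMod 9) := by
  unfold S1 Bs
  push_cast
  rw [show 3 * k + 2 + 1 = 3 * (k + 1) by ring, sum_range_three, Finset.mul_sum, Finset.mul_sum,
    ← Finset.sum_sub_distrib]
  apply Finset.sum_congr rfl
  intro j hj
  have hj' : j < k + 1 := Finset.mem_range.mp hj
  obtain ⟨i, rfl⟩ : ∃ i, k = i + j := ⟨k - j, by omega⟩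
  rw [show 3 * (i + j) + 2 - 3 * j = 3 * i + 2 by omega,
    show 3 * (i + j) + 2 - (3 * j + 1) = 3 * i + 1 by omega,
    show 3 * (i + j) + 2 - (3 * j + 2) = 3 * i by omega,
    show i + j - j = i by omega, T20, T11, T02]
  have h1 := congrArg (Int.cast (R := ZMod 9)) (Tz_gz i j)
  push_cast at h1
  rw [← h1]
  push_cast
  have e : ∀ I J : ZMod 9, 2 * (2 * I + 1) * (1 + 6 * I) + 4 * (I + 2 * J + 1) * (1 + 3 * I)
      + 3 * (2 * J + 1) * (I + 2 * J + 1) = 3 * (J * (I + J + 1)) - (I + J) := by decide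
  have h2 := e (i : ZMod 9) (j : ZMod 9)
  linear_combination ((Tz i j : ℤ) : ZMod 9) * h2

lemma Bs_one : Bs 1 = 3 := by
  have h := Bs_Gs 1
  have h2 : Gs 1 = 6 := by decide
  rw [h2] at h
  push_cast at h
  linarith

lemma Bs_zero : Bs 0 = 1 := by
  have h := Bs_Gs 0
  rw [Gs_zero] at h
  push_cast at h
  linarith

/-- `3 B_{3k} = 0` for `k ≥ 1` -/
lemma three_Bs0 (k : ℕ) (hk : 1 ≤ k) : (3 : ZMod 9) * ((Bs (3 * k) : ℤ) : ZMod 9) = 0 := by
  have h := three_Gs (3 * k) (by omega)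
  rw [← Bs_Gs9] at h
  push_cast at h
  linear_combination h - ((k : ZMod 9) * ((Bs (3 * k) : ℤ) : ZMod 9)) * nine

lemma Bs1 (k : ℕ) (hk : 1 ≤ k) : ((Bs (3 * k + 1) : ℤ) : ZMod 9) = 0 := by
  have h := Bs_Gs9 (3 * k + 1)
  rw [Gs1] at h
  have h3 := three_Gs k hk
  have h4 : (3 * (k : ZMod 9) + 2) * ((Bs (3 * k + 1) : ℤ) : ZMod 9) = 0 := by
    push_cast at h
    linear_combination h + (2 + (k : ZMod 9)) * h3
  have e1 : ∀ K : ZMod 9, (3 * K + 2) * (5 + 6 * K) = 1 := by decide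
  calc ((Bs (3 * k + 1) : ℤ) : ZMod 9)
      = ((3 * (k : ZMod 9) + 2) * (5 + 6 * k)) * ((Bs (3 * k + 1) : ℤ) : ZMod 9) := by rw [e1, one_mul]
    _ = (5 + 6 * (k : ZMod 9)) * ((3 * (k : ZMod 9) + 2) * ((Bs (3 * k + 1) : ℤ) : ZMod 9)) := by ring
    _ = 0 := by rw [h4, mul_zero]

lemma Bs2 (k : ℕ) : ((Bs (3 * k + 2) : ℤ) : ZMod 9) = 0 := by
  induction k using Nat.strong_induction_on with
  | _ k ih =>
    rw [Bs2_rec, three_S1]
    by_cases h1 : k = 1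
    · subst h1
      rw [if_pos rfl, Bs_one]
      norm_num
    · rw [if_neg h1]
      obtain ⟨k', hk⟩ : ∃ k', k = 3 * k' ∨ k = 3 * k' + 1 ∨ k = 3 * k' + 2 := ⟨k / 3, by omega⟩
      rcases hk with rfl | rfl | rfl
      · by_cases h0 : k' = 0
        · subst h0
          simp
        · have := three_Bs0 k' (by omega)
          push_cast
          linear_combination (-(k' : ZMod 9)) * this
      · rw [Bs1 k' (by omega)]
        simp
      · rw [ih k' (by omega)]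
        simp

/-- `k B_k = 0` mod 9 for `k ≥ 2` -/
lemma k_Bs (k : ℕ) (hk : k ≠ 1) : (k : ZMod 9) * ((Bs k : ℤ) : ZMod 9) = 0 := by
  obtain ⟨k', hk'⟩ : ∃ k', k = 3 * k' ∨ k = 3 * k' + 1 ∨ k = 3 * k' + 2 := ⟨k / 3, by omega⟩
  rcases hk' with rfl | rfl | rfl
  · by_cases h0 : k' = 0
    · subst h0
      simp
    · have := three_Bs0 k' (by omega)
      push_cast
      linear_combination ((k' : ZMod 9)) * this
  · rw [Bs1 k' (by omega)]
    simp
  · rw [Bs2]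
    simp

lemma three_Bs (m : ℕ) (hm : 1 ≤ m) : (3 : ZMod 9) * ((Bs m : ℤ) : ZMod 9) = 0 := by
  obtain ⟨k, hk⟩ : ∃ k, m = 3 * k ∨ m = 3 * k + 1 ∨ m = 3 * k + 2 := ⟨m / 3, by omega⟩
  rcases hk with rfl | rfl | rfl
  · exact three_Bs0 k (by omega)
  · by_cases h0 : k = 0
    · subst h0
      rw [Bs_one]
      decide
    · rw [Bs1 k (by omega)]
      simp
  · rw [Bs2]
    simp

lemma Bs0 (k : ℕ) : ((Bs (3 * (k + 1)) : ℤ) : ZMod 9)
    = ((Bs (k + 1) : ℤ) : ZMod 9) + if k = 1 then 6 else 0 := by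
  have h1 := Bs_Gs9 (3 * (k + 1))
  have h2 := three_Bs0 (k + 1) (by omega)
  rw [Gs0] at h1
  have h3 := Bs_Gs9 (k + 1)
  rw [← h3] at h1
  push_cast at h1
  have h4 := three_S1 k
  have h5 : ((Bs (3 * (k + 1)) : ℤ) : ZMod 9) = ((Bs (k + 1) : ℤ) : ZMod 9)
      + ((k : ZMod 9) + 1) * ((Bs (k + 1) : ℤ) : ZMod 9) + 2 * ((k : ZMod 9) + 1) * (3 * ((Gs k : ℕ) : ZMod 9))
      + 2 * (3 * ((S1 k : ℕ) : ZMod 9)) := by
    linear_combination h1 - ((k : ZMod 9) + 1) * h2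
  rw [h4] at h5
  rw [h5]
  by_cases h0 : k = 0
  · subst h0
    rw [if_neg (by omega), if_neg (by omega), Gs_zero, Bs_one]
    norm_num
    decide
  · have h6 := k_Bs (k + 1) (by omega)
    push_cast at h6
    rw [three_Gs k (by omega)]
    by_cases h7 : k = 1
    · rw [if_pos h7, if_pos h7]
      linear_combination h6
    · rw [if_neg h7, if_neg h7]
      linear_combination h6

lemma sum_Bs_three (n : ℕ) (hn : 3 ≤ n) :
    ∑ m ∈ range (3 * n), ((Bs m : ℤ) : ZMod 9) = ∑ m ∈ range n, ((Bs m : ℤ) : ZMod 9) := by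
  rw [sum_range_three]
  obtain ⟨n', rfl⟩ : ∃ n', n = n' + 1 := ⟨n - 1, by omega⟩
  rw [Finset.sum_range_succ', Finset.sum_range_succ' _ n']
  have h1 : ∀ k ∈ range n', (((Bs (3 * (k + 1)) : ℤ) : ZMod 9) + ((Bs (3 * (k + 1) + 1) : ℤ) : ZMod 9)
      + ((Bs (3 * (k + 1) + 2) : ℤ) : ZMod 9)) = ((Bs (k + 1) : ℤ) : ZMod 9) + if k = 1 then 6 else 0 := by
    intro k _
    rw [Bs0, Bs1 (k + 1) (by omega), Bs2]
    ring
  rw [Finset.sum_congr rfl h1, Finset.sum_add_distrib, Finset.sum_ite_eq' (range n') 1,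
    if_pos (by simp; omega)]
  have h2 := Bs2 0
  simp only [mul_zero, zero_add] at h2 ⊢
  rw [h2, Bs_one, Bs_zero]
  push_cast
  linear_combination nine

lemma sum_Bs_pow (a : ℕ) : ∑ m ∈ range (3 ^ (a + 1)), ((Bs m : ℤ) : ZMod 9) = 4 := by
  induction a with
  | zero =>
    rw [zero_add, pow_one, Finset.sum_range_succ, Finset.sum_range_succ, Finset.sum_range_succ]
    have h2 := Bs2 0
    simp only [mul_zero, zero_add] at h2
    rw [h2, Bs_one, Bs_zero]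
    simp
    decide
  | succ a ih =>
    rw [pow_succ, mul_comm, sum_Bs_three _ (by rw [pow_succ]; have := Nat.one_le_pow a 3 (by norm_num); omega), ih]

lemma four_pow_Bs (x m : ℕ) (hm : 1 ≤ m) : (4 : ZMod 9) ^ x * ((Bs m : ℤ) : ZMod 9) = ((Bs m : ℤ) : ZMod 9) := by
  induction x with
  | zero => simp
  | succ x ih =>
    have h := three_Bs m hm
    rw [pow_succ]
    linear_combination ih + (4 ^ x) * h

lemma three_four (x : ℕ) : (3 : ZMod 9) * 4 ^ x = 3 := by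
  induction x with
  | zero => simp
  | succ x ih =>
    rw [pow_succ]
    linear_combination 4 * ih + nine

theorem SS_mod9 (a : ℕ) : SS (3 ^ (a + 1)) ≡ 4 * 4 ^ (3 ^ (a + 1) - 1) [ZMOD 3 ^ 2] := by
  have h := SS_mod 3 (a + 1) Nat.prime_three
  refine h.trans ?_
  rw [show (((3 : ℕ) : ℤ) ^ 2) = ((9 : ℕ) : ℤ) by norm_num, ← ZMod.intCast_eq_intCast_iff]
  push_cast
  have hq : 1 ≤ 3 ^ (a + 1) := Nat.one_le_pow _ _ (by norm_num)
  obtain ⟨q', hq'⟩ : ∃ q', 3 ^ (a + 1) = q' + 1 := ⟨3 ^ (a + 1) - 1, by omega⟩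
  have hsum := sum_Bs_pow a
  rw [hq'] at hsum ⊢
  rw [Finset.sum_range_succ'] at hsum ⊢
  have h1 : ∀ k ∈ range q', (4 : ZMod 9) ^ (q' + 1 - 1 - (k + 1)) * ((B 1 (k + 1) : ℤ) : ZMod 9)
      = ((Bs (k + 1) : ℤ) : ZMod 9) := by
    intro k _
    rw [Bs_eq, four_pow_Bs _ _ (by omega)]
  rw [Finset.sum_congr rfl h1, Bs_eq, Bs_zero]
  rw [Bs_zero] at hsum
  simp only [Nat.add_sub_cancel, Nat.sub_zero]
  push_cast at hsum ⊢
  have h34 := three_four q'
  linear_combination hsum - h34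

lemma three_dvd_B (m : ℕ) (hm : 1 ≤ m) : (3 : ℤ) ∣ B 1 m := by
  have h := three_Bs m hm
  rw [← Bs_eq] at h
  have h2 : ((3 * B 1 m : ℤ) : ZMod 9) = 0 := by
    push_cast
    exact h
  rw [ZMod.intCast_zmod_eq_zero_iff_dvd] at h2
  push_cast at h2
  omega

/-- `SS n ≡ 1 mod 3` -/
lemma SS_mod3 (n : ℕ) (hn : 0 < n) : SS n ≡ 1 [ZMOD 3] := by
  obtain ⟨k, rfl⟩ : ∃ k, n = k + 1 := ⟨n - 1, by omega⟩
  unfold SS
  rw [Finset.sum_range_succ']
  have h1 : (3 : ℤ) ∣ ∑ m ∈ range k, (-1) ^ (m + 1) * ((k + 1 - 1).choose (m + 1) : ℤ) * ((k + 1 + (m + 1)).choose (m + 1) : ℤ) *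
      (4 ^ (k + 1 - 1 - (m + 1)) * B 1 (m + 1)) := by
    apply Finset.dvd_sum
    intro m _
    exact Dvd.dvd.mul_left (Dvd.dvd.mul_left (three_dvd_B (m + 1) (by omega)) _) _
  have h2 : (4 : ℤ) ^ k ≡ 1 [ZMOD 3] := by
    have : (4 : ℤ) ≡ 1 [ZMOD 3] := by decide
    have := this.pow k
    rwa [one_pow] at this
  have h3 := ((Int.modEq_zero_iff_dvd).mpr h1).add h2
  have h4 : B 1 0 = 1 := by rw [Bs_eq, Bs_zero]
  rw [h4]
  simpa using h3

/-! The second sequence modulo `3^5`. -/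

lemma B4_vals : B 4 0 = 1 ∧ B 4 1 = 6 ∧ B 4 2 = 60 ∧ B 4 3 = 732 ∧ B 4 4 = 9972 := by
  have h0 := B_spec 4 0
  have h1 := B_spec 4 1
  have h2 := B_spec 4 2
  have h3 := B_spec 4 3
  have h4 := B_spec 4 4
  have g0 : G 4 0 = 1 := by decide
  have g1 : G 4 1 = 12 := by decide
  have g2 : G 4 2 = 180 := by decide
  have g3 : G 4 3 = 2928 := by decide
  have g4 : G 4 4 = 49860 := by decide
  rw [g0] at h0
  rw [g1] at h1
  rw [g2] at h2
  rw [g3] at h3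
  rw [g4] at h4
  push_cast at h0 h1 h2 h3 h4
  refine ⟨by linarith, by linarith, by linarith, by linarith, by linarith⟩

lemma XX_low (r : ℕ) (hr : 1 ≤ r) : (81 : ℤ) ∣ XX (9 * r) 1 - 1 ∧ (81 : ℤ) ∣ XX (9 * r) 2 - 1 ∧
    (9 : ℤ) ∣ XX (9 * r) 3 - 1 ∧ (9 : ℤ) ∣ XX (9 * r) 4 - 1 := by
  have x0 : XX (9 * r) 0 = 1 := by simp [XX]
  have r0 := XX_rec (9 * r) 0 (by omega)
  have r1 := XX_rec (9 * r) 1 (by omega)
  have r2 := XX_rec (9 * r) 2 (by omega)
  have r3 := XX_rec (9 * r) 3 (by omega)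
  rw [x0] at r0
  simp only [zero_add, Nat.reduceAdd] at r0 r1 r2 r3
  generalize XX (9 * r) 1 = y1 at *
  generalize XX (9 * r) 2 = y2 at *
  generalize XX (9 * r) 3 = y3 at *
  generalize XX (9 * r) 4 = y4 at *
  push_cast at r0 r1 r2 r3
  have m1 : (81 : ℤ) ∣ y1 - 1 := ⟨-(r : ℤ) ^ 2, by linear_combination r0⟩
  have m2 : (81 : ℤ) ∣ y2 - 1 := by
    obtain ⟨c, hc⟩ := m1
    have h1 : y1 = 1 + 81 * c := by linarith
    rw [h1] at r1
    have h4 : (81 : ℤ) ∣ 4 * (y2 - 1) :=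
      ⟨4 * c - (r : ℤ) ^ 2 * (1 + 81 * c), by linear_combination r1⟩
    exact (Int.isCoprime_iff_gcd_eq_one.mpr (by decide : Int.gcd 81 4 = 1)).dvd_of_dvd_mul_left h4
  have m3 : (9 : ℤ) ∣ y3 - 1 := by
    obtain ⟨c, hc⟩ := m2
    have h2 : y2 = 1 + 81 * c := by linarith
    rw [h2] at r2
    have h3 : (9 : ℤ) * y3 = 9 * ((1 + 81 * c) * (1 - 9 * (r : ℤ) ^ 2)) := by linear_combination r2
    have h4 := mul_left_cancel₀ (by norm_num : (9 : ℤ) ≠ 0) h3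
    exact ⟨9 * c - (r : ℤ) ^ 2 * (1 + 81 * c), by linear_combination h4⟩
  refine ⟨m1, m2, m3, ?_⟩
  obtain ⟨d, hd⟩ := m3
  have h3 : y3 = 1 + 9 * d := by linarith
  rw [h3] at r3
  have h4 : (9 : ℤ) ∣ 16 * (y4 - 1) :=
    ⟨16 * d - 9 * (r : ℤ) ^ 2 * (1 + 9 * d), by linear_combination r3⟩
  exact (Int.isCoprime_iff_gcd_eq_one.mpr (by decide : Int.gcd 9 16 = 1)).dvd_of_dvd_mul_left h4

lemma TT_mod243 (a : ℕ) : TT (3 ^ (a + 1)) ≡ -8 * 64 ^ (3 ^ (a + 1) - 1) [ZMOD 3 ^ 5] := by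
  obtain ⟨b0, b1, b2, b3, b4⟩ := B4_vals
  cases a with
  | zero =>
    have : TT 3 = 64 ^ 2 - 8 * (64 * 18) + 10 * 540 := by
      unfold TT
      rw [Finset.sum_range_succ, Finset.sum_range_succ, Finset.sum_range_succ, b0, b1, b2]
      simp
      decide
    rw [zero_add, pow_one, this]
    decide
  | succ a =>
    have hq9 : ∃ r : ℕ, 3 ^ (a + 1 + 1) = 9 * r ∧ 1 ≤ r := ⟨3 ^ a, by ring, Nat.one_le_pow _ _ (by norm_num)⟩
    obtain ⟨r, hr, hr1⟩ := hq9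
    rw [hr]
    obtain ⟨m1, m2, m3, m4⟩ := XX_low r hr1
    obtain ⟨c1, hc1⟩ := m1
    obtain ⟨c2, hc2⟩ := m2
    obtain ⟨c3, hc3⟩ := m3
    obtain ⟨c4, hc4⟩ := m4
    have x0 : XX (9 * r) 0 = 1 := by simp [XX]
    have x1 : XX (9 * r) 1 = 1 + 81 * c1 := by linarith
    have x2 : XX (9 * r) 2 = 1 + 81 * c2 := by linarith
    have x3 : XX (9 * r) 3 = 1 + 9 * c3 := by linarith
    have x4 : XX (9 * r) 4 = 1 + 9 * c4 := by linarith
    obtain ⟨q', hq'⟩ : ∃ q', 9 * r = 5 + q' := ⟨9 * r - 5, by omega⟩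
    have hTT : TT (9 * r) = ∑ m ∈ range (9 * r), XX (9 * r) m * (64 ^ (9 * r - 1 - m) * 3 ^ m * B 4 m) := rfl
    have hsplit : ∑ m ∈ range (9 * r), XX (9 * r) m * (64 ^ (9 * r - 1 - m) * 3 ^ m * B 4 m)
        = ∑ m ∈ range (5 + q'), XX (9 * r) m * (64 ^ (9 * r - 1 - m) * 3 ^ m * B 4 m) := by
      rw [hq']
    rw [hTT, hsplit, Finset.sum_range_add]
    have htail : (3 : ℤ) ^ 5 ∣ ∑ x ∈ range q', XX (9 * r) (5 + x) * (64 ^ (9 * r - 1 - (5 + x)) * 3 ^ (5 + x) * B 4 (5 + x)) := by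
      apply Finset.dvd_sum
      intro x _
      exact ⟨XX (9 * r) (5 + x) * (64 ^ (9 * r - 1 - (5 + x)) * 3 ^ x * B 4 (5 + x)), by rw [pow_add]; ring⟩
    obtain ⟨T, hT⟩ := htail
    rw [hT, Finset.sum_range_succ, Finset.sum_range_succ, Finset.sum_range_succ, Finset.sum_range_succ,
      Finset.sum_range_succ, Finset.sum_range_zero, x0, x1, x2, x3, x4, b0, b1, b2, b3, b4,
      show 9 * r - 1 - 0 = q' + 4 by omega, show 9 * r - 1 - 1 = q' + 3 by omega,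
      show 9 * r - 1 - 2 = q' + 2 by omega, show 9 * r - 1 - 3 = q' + 1 by omega,
      show 9 * r - 1 - 4 = q' by omega, show 9 * r - 1 = q' + 4 by omega]
    apply Int.ModEq.symm
    rw [Int.modEq_iff_dvd]
    refine ⟨T + 64 ^ q' * (658428 + 64 ^ 3 * 6 * c1 + 64 ^ 2 * 180 * c2 + 64 * 732 * c3 + 3 * 9972 * c4), ?_⟩
    ring

end Pool.Agent.helper78.DC
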