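import Pool.Agent.helper78.DC.Two
import Pool.Agent.helper78.DC.ModT
import Pool.Agent.helper78.DC.Three2

set_option autoImplicit false

namespace Pool.Agent.helper78.DC

lemma num_den (r : ℚ) (N : ℕ) (Z : ℤ) (h : (N : ℚ) * r = Z) : (N : ℤ) * r.num = Z * r.den := by
  have h0 : (N : ℚ) * (r.num / r.den) = Z := by rw [Rat.num_div_den]; exact h
  have hd : (r.den : ℚ) ≠ 0 := by exact_mod_cast r.den_ne_zero
  have h' : (N : ℚ) * r.num = Z * r.den := by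
    rw [← h0]
    field_simp
  exact_mod_cast h'

lemma conv (r : ℚ) (N : ℕ) (Z c : ℤ) (p k : ℕ) (hp : p.Prime) (hN : ¬ p ∣ N) (h : (N : ℚ) * r = Z)
    (hZ : Z ≡ c * N [ZMOD (p : ℤ) ^ k]) : RatCongr r c p k := by
  have h1 := num_den r N Z h
  have hden : r.den ∣ N := by
    have h4 : (r.den : ℤ) ∣ (N : ℤ) * r.num := ⟨Z, by rw [h1]; ring⟩
    have h5 : IsCoprime (r.den : ℤ) r.num := by
      rw [Int.isCoprime_iff_gcd_eq_one, Int.gcd, Int.natAbs_natCast, Nat.gcd_comm]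
      exact r.reduced
    have h6 : (r.den : ℤ) ∣ (N : ℤ) := h5.dvd_of_dvd_mul_right h4
    exact_mod_cast h6
  refine ⟨fun hd => hN (hd.trans hden), ?_⟩
  have h2 : (p : ℤ) ^ k ∣ Z - c * N := (Int.modEq_iff_dvd.mp hZ.symm)
  have h3 : (p : ℤ) ^ k ∣ (N : ℤ) * (r.num - c * (r.den : ℤ)) := by
    have e : (N : ℤ) * (r.num - c * (r.den : ℤ)) = (Z - c * N) * r.den := by
      linear_combination h1
    rw [e]
    exact Dvd.dvd.mul_right h2 _
  have h5 : IsCoprime ((p : ℤ) ^ k) (N : ℤ) := by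
    apply IsCoprime.pow_left
    rw [Int.isCoprime_iff_gcd_eq_one, Int.gcd_natCast_natCast]
    exact (Nat.Prime.coprime_iff_not_dvd hp).mpr hN
  exact h5.dvd_of_dvd_mul_left h3

lemma s_SS' (n : ℕ) (hn : 0 < n) : ((4 ^ (n - 1) : ℕ) : ℚ) * s n = (SS n : ℚ) := by
  push_cast
  exact s_SS n hn

lemma t_TT' (n : ℕ) (hn : 0 < n) : ((64 ^ (n - 1) : ℕ) : ℚ) * t n = (TT n : ℚ) := by
  push_cast
  exact t_TT n hn

lemma four_pow_mod3 (x : ℕ) : (4 : ℤ) ^ x ≡ 1 [ZMOD 3] := by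
  have : (4 : ℤ) ≡ 1 [ZMOD 3] := by decide
  have := this.pow x
  rwa [one_pow] at this

lemma s_num_mod3 (n : ℕ) (hn : 0 < n) : (s n).num ≡ 1 [ZMOD 3] := by
  have h1 := num_den (s n) _ _ (s_SS' n hn)
  rw [(s_den_num n hn).1] at h1
  push_cast at h1
  rw [pow_mul, show (2 : ℤ) ^ 2 = 4 by norm_num] at h1
  have h2 : 4 ^ (n - 1) * (s n).num ≡ 1 * (s n).num [ZMOD 3] := Int.ModEq.mul_right _ (four_pow_mod3 _)
  have h3 : SS n * 4 ^ (padicValNat 2 n.factorial) ≡ 1 * 1 [ZMOD 3] :=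
    Int.ModEq.mul (SS_mod3 n hn) (four_pow_mod3 _)
  rw [h1] at h2
  rw [one_mul] at h2 h3
  exact h2.symm.trans h3

lemma s_num_mod12 (n : ℕ) (hn : 0 < n) :
    (Odd n → (s n).num ≡ 1 [ZMOD 12]) ∧ (Even n → (s n).num ≡ 7 [ZMOD 12]) := by
  have h3 := s_num_mod3 n hn
  have h4 := (s_den_num n hn).2
  unfold Int.ModEq at h3 ⊢
  constructor
  · intro ho
    have he : Even (n - 1) := by
      obtain ⟨k, rfl⟩ := ho
      exact ⟨k, by omega⟩
    rw [he.neg_one_pow] at h4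
    unfold Int.ModEq at h4
    omega
  · intro he
    have ho : Odd (n - 1) := by
      obtain ⟨k, rfl⟩ := he
      exact ⟨k - 1, by omega⟩
    rw [ho.neg_one_pow] at h4
    unfold Int.ModEq at h4
    omega

lemma s_mod9 (a : ℕ) (ha : 0 < a) : RatCongr (s (3 ^ a)) 4 3 2 := by
  obtain ⟨b, rfl⟩ : ∃ b, a = b + 1 := ⟨a - 1, by omega⟩
  apply conv _ (4 ^ (3 ^ (b + 1) - 1)) (SS (3 ^ (b + 1))) 4 3 2 Nat.prime_three
  · intro h
    have := Nat.Prime.dvd_of_dvd_pow Nat.prime_three h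
    revert this
    decide
  · exact s_SS' _ (by positivity)
  · push_cast
    exact SS_mod9 b

lemma t_mod243 (a : ℕ) (ha : 0 < a) : RatCongr (t (3 ^ a)) (-8) 3 5 := by
  obtain ⟨b, rfl⟩ : ∃ b, a = b + 1 := ⟨a - 1, by omega⟩
  apply conv _ (64 ^ (3 ^ (b + 1) - 1)) (TT (3 ^ (b + 1))) (-8) 3 5 Nat.prime_three
  · intro h
    have := Nat.Prime.dvd_of_dvd_pow Nat.prime_three h
    revert this
    decide
  · exact t_TT' _ (by positivity)
  · push_cast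
    exact TT_mod243 b

lemma odd_prime (p : ℕ) (hp : p.Prime) (hp2 : p ≠ 2) : ∃ e, p = 2 * e + 1 :=
  hp.odd_of_ne_two hp2

lemma pow_fermat (p : ℕ) [hpf : Fact p.Prime] (x : ℕ) (hx : ¬ p ∣ x) (a : ℕ) :
    ((x ^ (p ^ a - 1) : ℕ) : ZMod p) = 1 := by
  push_cast
  apply pow_q p a
  rw [Ne, ZMod.natCast_eq_zero_iff]
  exact hx

lemma not_dvd_two_pow (p : ℕ) (hp : p.Prime) (hp2 : p ≠ 2) (k : ℕ) : ¬ p ∣ 2 ^ k := by
  intro h
  have h1 := hp.dvd_of_dvd_pow h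
  exact hp2 ((Nat.prime_dvd_prime_iff_eq hp Nat.prime_two).mp h1)

lemma s_mod_p (p : ℕ) (hp : p.Prime) (hp2 : p ≠ 2) (a : ℕ) (ha : 0 < a) :
    RatCongr (s (p ^ a)) 1 p 1 := by
  have hpf : Fact p.Prime := ⟨hp⟩
  obtain ⟨e, he⟩ := odd_prime p hp hp2
  have h4 : ¬ p ∣ 4 := not_dvd_two_pow p hp hp2 2
  apply conv _ (4 ^ (p ^ a - 1)) (SS (p ^ a)) 1 p 1 hp
  · intro h
    exact h4 (hp.dvd_of_dvd_pow h)
  · exact s_SS' _ (pow_pos hp.pos a)
  · rw [pow_one, one_mul, ← ZMod.intCast_eq_intCast_iff, SS_mod_p p e he a ha]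
    have := pow_fermat p 4 h4 a
    rw [Int.cast_natCast, this]

lemma t_mod_p (p : ℕ) (hp : p.Prime) (hp2 : p ≠ 2) (a : ℕ) (ha : 0 < a) :
    RatCongr (t (p ^ a)) 1 p 1 := by
  by_cases h3 : p = 3
  · subst h3
    obtain ⟨h1, h2⟩ := t_mod243 a ha
    refine ⟨h1, ?_⟩
    push_cast at h2 ⊢
    norm_num at h2 ⊢
    omega
  have hpf : Fact p.Prime := ⟨hp⟩
  obtain ⟨e, he⟩ := odd_prime p hp hp2
  have h64 : ¬ p ∣ 64 := not_dvd_two_pow p hp hp2 6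
  apply conv _ (64 ^ (p ^ a - 1)) (TT (p ^ a)) 1 p 1 hp
  · intro h
    exact h64 (hp.dvd_of_dvd_pow h)
  · exact t_TT' _ (pow_pos hp.pos a)
  · rw [pow_one, one_mul, ← ZMod.intCast_eq_intCast_iff, TT_mod_p p e he h3 a ha]
    have := pow_fermat p 64 h64 a
    rw [Int.cast_natCast, this]

end Pool.Agent.helper78.DC
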