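import Mathlib

set_option autoImplicit false

namespace Pool.Agent.helper78.DC

open Finset

/-! Basic binomial identities. -/

/-- Abel type summation: alternating binomial sum of order `N+1` in terms of differences. -/
lemma alt_step (N : ℕ) (F : ℕ → ℤ) :
    ∑ l ∈ range (N + 2), (-1 : ℤ) ^ l * ((N + 1).choose l) * F l
      = ∑ l ∈ range (N + 1), (-1 : ℤ) ^ l * (N.choose l) * (F l - F (l + 1)) := by
  rw [Finset.sum_range_succ']
  have h1 : ∀ l ∈ range (N + 1), (-1 : ℤ) ^ (l + 1) * ((N + 1).choose (l + 1)) * F (l + 1)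
      = -((-1 : ℤ) ^ l * (N.choose l) * F (l + 1))
        + (-1 : ℤ) ^ (l + 1) * (N.choose (l + 1)) * F (l + 1) := by
    intro l _
    rw [Nat.choose_succ_succ]
    push_cast
    ring
  rw [Finset.sum_congr rfl h1, Finset.sum_add_distrib]
  have h2 : ∑ l ∈ range (N + 1), (-1 : ℤ) ^ l * (N.choose l) * F l
      = ∑ l ∈ range (N + 1), (-1 : ℤ) ^ (l + 1) * (N.choose (l + 1)) * F (l + 1)
        + (-1 : ℤ) ^ 0 * (N.choose 0) * F 0 := by
    rw [← Finset.sum_range_succ' (fun l => (-1 : ℤ) ^ l * (N.choose l) * F l) (N + 1)]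
    rw [Finset.sum_range_succ _ (N + 1)]
    simp
  have h3 : ∑ l ∈ range (N + 1), (-1 : ℤ) ^ l * (N.choose l) * (F l - F (l + 1))
      = ∑ l ∈ range (N + 1), (-1 : ℤ) ^ l * (N.choose l) * F l
        - ∑ l ∈ range (N + 1), (-1 : ℤ) ^ l * (N.choose l) * F (l + 1) := by
    rw [← Finset.sum_sub_distrib]
    apply Finset.sum_congr rfl
    intro l _
    ring
  rw [h3, h2, Finset.sum_neg_distrib]
  simp
  ring

lemma alt_sum (N M c : ℕ) :
    ∑ l ∈ range (N + 1), (-1 : ℤ) ^ l * (N.choose l) * ((M + l).choose c)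
      = if N ≤ c then (-1) ^ N * (M.choose (c - N) : ℤ) else 0 := by
  induction N generalizing M c with
  | zero => simp
  | succ N ih =>
    rw [alt_step N (fun l => ((M + l).choose c : ℤ))]
    cases c with
    | zero =>
      simp
    | succ c =>
      have h1 : ∀ l ∈ range (N + 1),
          (-1 : ℤ) ^ l * (N.choose l) * (((M + l).choose (c + 1) : ℤ) - ((M + (l + 1)).choose (c + 1) : ℤ))
          = - ((-1 : ℤ) ^ l * (N.choose l) * ((M + l).choose c)) := by
        intro l _
        rw [show M + (l + 1) = (M + l) + 1 by ring, Nat.choose_succ_succ]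
        push_cast
        ring
      rw [Finset.sum_congr rfl h1, Finset.sum_neg_distrib, ih]
      by_cases h : N ≤ c
      · have h' : N + 1 ≤ c + 1 := by omega
        rw [if_pos h, if_pos h', show c + 1 - (N + 1) = c - N by omega]
        ring
      · have h' : ¬ (N + 1 ≤ c + 1) := by omega
        rw [if_neg h, if_neg h']
        simp

/-- `phi k m = C(k,m) C(k+m,m)`. -/
def phi (k m : ℕ) : ℚ := (k.choose m : ℚ) * ((k + m).choose m : ℚ)

lemma phi_eq_zero {k m : ℕ} (h : k < m) : phi k m = 0 := by
  unfold phi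
  rw [Nat.choose_eq_zero_of_lt h]
  simp

@[simp] lemma phi_zero (k : ℕ) : phi k 0 = 1 := by simp [phi]

/-- recursion `(m+1)^2 phi k (m+1) = (k(k+1) - m(m+1)) phi k m`. -/
lemma phi_succ (k m : ℕ) :
    ((m : ℚ) + 1) ^ 2 * phi k (m + 1) = ((k : ℚ) * (k + 1) - m * (m + 1)) * phi k m := by
  unfold phi
  have h1 : (k.choose (m + 1) : ℚ) * (m + 1) = k.choose m * ((k : ℚ) - m) := by
    by_cases h : m ≤ k
    · have := Nat.choose_succ_right_eq k m
      have h2 : ((k.choose (m + 1) * (m + 1) : ℕ) : ℚ) = ((k.choose m * (k - m) : ℕ) : ℚ) := by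
        rw [this]
      push_cast [Nat.cast_sub h] at h2
      exact h2
    · push Not at h
      rw [Nat.choose_eq_zero_of_lt h, Nat.choose_eq_zero_of_lt (by omega)]
      simp
  have h2 : ((k + (m + 1)).choose (m + 1) : ℚ) * (m + 1) = ((k + m).choose m : ℚ) * (k + m + 1) := by
    have := Nat.add_one_mul_choose_eq (k + m) m
    have h3 : (((k + m + 1) * (k + m).choose m : ℕ) : ℚ)
        = (((k + m + 1).choose (m + 1) * (m + 1) : ℕ) : ℚ) := by
      rw [this]
    push_cast at h3
    rw [show k + (m + 1) = k + m + 1 by ring]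
    linarith
  calc ((m : ℚ) + 1) ^ 2 * (k.choose (m + 1) * (k + (m + 1)).choose (m + 1))
      = ((k.choose (m + 1) : ℚ) * (m + 1)) * (((k + (m + 1)).choose (m + 1) : ℚ) * (m + 1)) := by ring
    _ = (k.choose m * ((k : ℚ) - m)) * (((k + m).choose m : ℚ) * (k + m + 1)) := by rw [h1, h2]
    _ = _ := by ring

/-- Summation formula: `(m+1) ∑_{k<n} (2k+1) phi k m = n^2 C(n-1,m) C(n+m,m)`;
the version with `n+1` in place of `n`. -/
lemma sum_phi (n m : ℕ) :
    ((m : ℚ) + 1) * ∑ k ∈ range n, (2 * (k : ℚ) + 1) * phi k m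
      = (n : ℚ) ^ 2 * ((n - 1).choose m : ℚ) * ((n + m).choose m : ℚ) := by
  induction n with
  | zero => simp
  | succ n ih =>
    rw [Finset.sum_range_succ, mul_add, ih]
    have h2 : ((n + 1 + m).choose m : ℚ) * (n + 1) = ((n + m).choose m : ℚ) * (n + m + 1) := by
      have h3 := Nat.choose_mul_succ_eq (n + m) m
      have h4 : (((n + m).choose m * (n + m + 1) : ℕ) : ℚ)
          = (((n + m + 1).choose m * (n + m + 1 - m) : ℕ) : ℚ) := by rw [h3]
      rw [show n + m + 1 - m = n + 1 by omega] at h4
      push_cast at h4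
      rw [show n + 1 + m = n + m + 1 by ring]
      linarith
    have h1 : (n : ℚ) * ((n - 1).choose m : ℚ) = ((n : ℚ) - m) * (n.choose m : ℚ) := by
      cases n with
      | zero =>
        cases m with
        | zero => simp
        | succ m => simp
      | succ n =>
        by_cases h : m ≤ n + 1
        · have h3 := Nat.choose_mul_succ_eq n m
          have h4 : ((n.choose m * (n + 1) : ℕ) : ℚ)
              = (((n + 1).choose m * (n + 1 - m) : ℕ) : ℚ) := by rw [h3]
          push_cast [Nat.cast_sub h] at h4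
          simp only [Nat.add_sub_cancel]
          push_cast
          linarith
        · push Not at h
          rw [Nat.choose_eq_zero_of_lt h, Nat.choose_eq_zero_of_lt (by omega)]
          simp
    unfold phi
    simp only [Nat.add_sub_cancel]
    push_cast
    calc (n : ℚ) ^ 2 * ((n - 1).choose m : ℚ) * ((n + m).choose m : ℚ)
          + ((m : ℚ) + 1) * ((2 * n + 1) * (n.choose m * (n + m).choose m))
        = n * (n * ((n - 1).choose m : ℚ)) * ((n + m).choose m : ℚ)
          + ((m : ℚ) + 1) * ((2 * n + 1) * (n.choose m * (n + m).choose m)) := by ring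
      _ = n * (((n : ℚ) - m) * (n.choose m : ℚ)) * ((n + m).choose m : ℚ)
          + ((m : ℚ) + 1) * ((2 * n + 1) * (n.choose m * (n + m).choose m)) := by rw [h1]
      _ = (n + 1) * (n.choose m : ℚ) * (((n + m).choose m : ℚ) * (n + m + 1)) := by ring
      _ = (n + 1) * (n.choose m : ℚ) * (((n + 1 + m).choose m : ℚ) * (n + 1)) := by rw [h2]
      _ = _ := by ring

/-! Polynomial coefficient identities. -/

open Polynomial in
lemma coeff_lin {R : Type*} [CommRing R] (a b : R) (m r : ℕ) :
    ((C a + C b * X) ^ m).coeff r = (m.choose r : R) * a ^ (m - r) * b ^ r := by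
  rw [add_comm, add_pow, finsetSum_coeff]
  have h : ∀ j ∈ range (m + 1), ((C b * X) ^ j * (C a) ^ (m - j) * ((m.choose j : ℕ) : R[X])).coeff r
      = if j = r then (m.choose r : R) * a ^ (m - r) * b ^ r else 0 := by
    intro j _
    have h1 : (C b * X) ^ j * (C a) ^ (m - j) * ((m.choose j : ℕ) : R[X])
        = C ((m.choose j : R) * a ^ (m - j) * b ^ j) * X ^ j := by
      rw [mul_pow]
      simp only [map_mul, map_pow, map_natCast]
      ring
    rw [h1, coeff_C_mul_X_pow]
    by_cases hj : j = r
    · subst hj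
      simp
    · rw [if_neg (fun h => hj h.symm), if_neg hj]
  rw [Finset.sum_congr rfl h, Finset.sum_ite_eq']
  by_cases hr : r ∈ range (m + 1)
  · rw [if_pos hr]
  · rw [if_neg hr, Nat.choose_eq_zero_of_lt (by simpa using hr)]
    simp

open Polynomial in
/-- `∑ C(m,j)^2 A^j (A+D)^(m-j) = ∑ C(m,j) C(m+j,j) A^j D^(m-j)`. -/
lemma sq_sum {R : Type*} [CommRing R] (m : ℕ) (A D : R) :
    ∑ j ∈ range (m + 1), (m.choose j : R) ^ 2 * A ^ j * (A + D) ^ (m - j)
      = ∑ j ∈ range (m + 1), (m.choose j : R) * ((m + j).choose j : R) * A ^ j * D ^ (m - j) := by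
  have hL : (((C (1 : R) + C A * X) ^ m * (C (1 : R) + C (A + D) * X) ^ m)).coeff m
      = ∑ j ∈ range (m + 1), (m.choose j : R) ^ 2 * A ^ j * (A + D) ^ (m - j) := by
    rw [coeff_mul, Finset.Nat.sum_antidiagonal_eq_sum_range_succ_mk]
    apply Finset.sum_congr rfl
    intro j hj
    have hj' : j ≤ m := by
      have := Finset.mem_range.mp hj
      omega
    rw [coeff_lin, coeff_lin, Nat.choose_symm hj']
    simp
    ring
  have hR : (((C (1 : R) + C A * X) ^ m * (C (1 : R) + C (A + D) * X) ^ m)).coeff m
      = ∑ j ∈ range (m + 1), (m.choose j : R) * ((m + j).choose j : R) * A ^ j * D ^ (m - j) := by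
    have e1 : (C (1 : R) + C A * X) ^ m * (C (1 : R) + C (A + D) * X) ^ m
        = ∑ i ∈ range (m + 1), (C ((m.choose i : R) * D ^ i) * X ^ i) *
            (C (1 : R) + C A * X) ^ (2 * m - i) := by
      rw [← mul_pow]
      have e2 : (C (1 : R) + C A * X) * (C (1 : R) + C (A + D) * X)
          = C D * X * (C (1 : R) + C A * X) + (C (1 : R) + C A * X) ^ 2 := by
        simp only [map_add, map_one]
        ring
      rw [e2, add_pow]
      apply Finset.sum_congr rfl
      intro i hi
      have hi' : i ≤ m := by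
        have := Finset.mem_range.mp hi
        omega
      rw [mul_pow, mul_pow, ← pow_mul, show 2 * m - i = i + 2 * (m - i) by omega, pow_add]
      simp only [map_mul, map_pow, map_natCast]
      ring
    rw [e1, finsetSum_coeff, ← Finset.sum_range_reflect]
    apply Finset.sum_congr rfl
    intro j hj
    have hj' : j ≤ m := by
      have := Finset.mem_range.mp hj
      omega
    rw [show m + 1 - 1 - j = m - j by omega, mul_assoc, coeff_C_mul, coeff_X_pow_mul',
      if_pos (by omega), coeff_lin, show m - (m - j) = j by omega,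
      show 2 * m - (m - j) = m + j by omega, Nat.choose_symm hj']
    simp
    ring
  rw [← hL, hR]

open Polynomial in
lemma double_sum {R : Type*} [CommRing R] (m : ℕ) (x y : R) :
    ∑ i ∈ range (m + 1), ∑ j ∈ range (m + 1),
        (m.choose i : R) * (m.choose j : R) * ((i + j).choose m : R) * (-x) ^ i * (-y) ^ j
      = (-1) ^ m * ∑ r ∈ range (m + 1), (m.choose r : R) ^ 2 * (x * (1 - y)) ^ r *
          (y * (1 - x)) ^ (m - r) := by
  have hL : (((C (1 - x) + C (-x) * X) ^ m * (C (1 - y) + C (-y) * X) ^ m) : R[X]).coeff m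
      = ∑ i ∈ range (m + 1), ∑ j ∈ range (m + 1),
        (m.choose i : R) * (m.choose j : R) * ((i + j).choose m : R) * (-x) ^ i * (-y) ^ j := by
    have e1 : ∀ z : R, (C (1 - z) + C (-z) * X) ^ m
        = ∑ i ∈ range (m + 1), C ((m.choose i : R) * (-z) ^ i) * (1 + X) ^ i := by
      intro z
      have e2 : (C (1 - z) + C (-z) * X : R[X]) = C (-z) * (1 + X) + 1 := by
        simp only [map_sub, map_one, map_neg]
        ring
      rw [e2, add_pow]
      apply Finset.sum_congr rfl
      intro i _
      rw [mul_pow, one_pow]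
      simp only [map_mul, map_pow, map_natCast]
      ring
    rw [e1 x, e1 y, Finset.sum_mul_sum, finsetSum_coeff]
    apply Finset.sum_congr rfl
    intro i _
    rw [finsetSum_coeff]
    apply Finset.sum_congr rfl
    intro j _
    have e3 : C ((m.choose i : R) * (-x) ^ i) * (1 + X) ^ i * (C ((m.choose j : R) * (-y) ^ j) * (1 + X) ^ j)
        = C ((m.choose i : R) * (-x) ^ i * ((m.choose j : R) * (-y) ^ j)) * (1 + X) ^ (i + j) := by
      rw [pow_add]
      simp only [map_mul]
      ring
    rw [e3, coeff_C_mul, coeff_one_add_X_pow]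
    ring
  have hR : (((C (1 - x) + C (-x) * X) ^ m * (C (1 - y) + C (-y) * X) ^ m) : R[X]).coeff m
      = (-1) ^ m * ∑ r ∈ range (m + 1), (m.choose r : R) ^ 2 * (x * (1 - y)) ^ r *
          (y * (1 - x)) ^ (m - r) := by
    rw [coeff_mul, Finset.Nat.sum_antidiagonal_eq_sum_range_succ_mk, Finset.mul_sum]
    apply Finset.sum_congr rfl
    intro r hr
    have hr' : r ≤ m := by
      have := Finset.mem_range.mp hr
      omega
    rw [coeff_lin, coeff_lin, Nat.choose_symm hr', show m - (m - r) = r by omega]
    have e4 : ((-1 : R)) ^ m = (-1) ^ r * (-1) ^ (m - r) := by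
      rw [← pow_add]
      congr 1
      omega
    rw [e4, mul_pow, mul_pow, neg_pow x r, neg_pow y (m - r)]
    ring
  rw [← hL, hR]

/-! Linearisation of products. -/

lemma lin (k i j : ℕ) :
    phi k i * phi k j = ∑ m ∈ range (k + 1),
      phi k m * ((m.choose i : ℚ) * (m.choose j : ℚ) * ((i + j).choose m : ℚ)) := by
  induction j with
  | zero =>
    rw [phi_zero, mul_one]
    have h : ∀ m ∈ range (k + 1), phi k m * ((m.choose i : ℚ) * (m.choose 0 : ℚ) * ((i + 0).choose m : ℚ))
        = if m = i then phi k i else 0 := by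
      intro m _
      by_cases hm : m = i
      · subst hm
        simp
      · rw [if_neg hm]
        rcases Nat.lt_or_gt_of_ne hm with h1 | h1
        · rw [Nat.choose_eq_zero_of_lt h1]
          simp
        · rw [Nat.add_zero, Nat.choose_eq_zero_of_lt h1]
          simp
    rw [Finset.sum_congr rfl h, Finset.sum_ite_eq']
    by_cases hi : i ∈ range (k + 1)
    · rw [if_pos hi]
    · rw [if_neg hi, phi_eq_zero (by simpa using hi)]
  | succ j ih =>
    have hj : ((j : ℚ) + 1) ^ 2 ≠ 0 := by positivity
    apply mul_left_cancel₀ hj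
    have e1 : ((j : ℚ) + 1) ^ 2 * (phi k i * phi k (j + 1))
        = ((k : ℚ) * (k + 1) - j * (j + 1)) * (phi k i * phi k j) := by
      have := phi_succ k j
      calc ((j : ℚ) + 1) ^ 2 * (phi k i * phi k (j + 1))
          = phi k i * (((j : ℚ) + 1) ^ 2 * phi k (j + 1)) := by ring
        _ = phi k i * (((k : ℚ) * (k + 1) - j * (j + 1)) * phi k j) := by rw [this]
        _ = _ := by ring
    rw [e1, ih, Finset.mul_sum, Finset.mul_sum]
    -- split
    have e2 : ∀ m ∈ range (k + 1), ((k : ℚ) * (k + 1) - j * (j + 1)) *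
        (phi k m * ((m.choose i : ℚ) * (m.choose j : ℚ) * ((i + j).choose m : ℚ)))
        = ((m : ℚ) + 1) ^ 2 * phi k (m + 1) * ((m.choose i : ℚ) * (m.choose j : ℚ) * ((i + j).choose m : ℚ))
          + ((m : ℚ) * (m + 1) - j * (j + 1)) *
            (phi k m * ((m.choose i : ℚ) * (m.choose j : ℚ) * ((i + j).choose m : ℚ))) := by
      intro m _
      rw [phi_succ k m]
      ring
    rw [Finset.sum_congr rfl e2, Finset.sum_add_distrib]
    have e3 : ∑ m ∈ range (k + 1), ((m : ℚ) + 1) ^ 2 * phi k (m + 1) *
          ((m.choose i : ℚ) * (m.choose j : ℚ) * ((i + j).choose m : ℚ))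
        = ∑ m ∈ range (k + 1), (m : ℚ) ^ 2 * phi k m *
          (((m - 1).choose i : ℚ) * ((m - 1).choose j : ℚ) * ((i + j).choose (m - 1) : ℚ)) := by
      rw [Finset.sum_range_succ' (fun m => (m : ℚ) ^ 2 * phi k m *
          (((m - 1).choose i : ℚ) * ((m - 1).choose j : ℚ) * ((i + j).choose (m - 1) : ℚ))) k,
        Finset.sum_range_succ, phi_eq_zero (Nat.lt_succ_self k)]
      simp
    rw [e3, ← Finset.sum_add_distrib]
    apply Finset.sum_congr rfl
    intro m _
    cases m with
    | zero =>
      cases j with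
      | zero => simp
      | succ j => simp
    | succ M =>
      have r1 : ∀ i : ℕ, ((M : ℚ) + 1) * (M.choose i : ℚ) = ((M : ℚ) + 1 - i) * ((M + 1).choose i : ℚ) := by
        intro i
        by_cases h : i ≤ M + 1
        · have h3 := Nat.choose_mul_succ_eq M i
          have h4 : ((M.choose i * (M + 1) : ℕ) : ℚ)
              = (((M + 1).choose i * (M + 1 - i) : ℕ) : ℚ) := by rw [h3]
          push_cast [Nat.cast_sub h] at h4
          linarith
        · push Not at h
          rw [Nat.choose_eq_zero_of_lt h, Nat.choose_eq_zero_of_lt (by omega)]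
          simp
      have r2 : ((j : ℚ) + 1) * ((M + 1).choose (j + 1) : ℚ) = ((M : ℚ) + 1 - j) * ((M + 1).choose j : ℚ) := by
        by_cases h : j ≤ M + 1
        · have := Nat.choose_succ_right_eq (M + 1) j
          have h2 : (((M + 1).choose (j + 1) * (j + 1) : ℕ) : ℚ)
              = (((M + 1).choose j * (M + 1 - j) : ℕ) : ℚ) := by
            rw [this]
          push_cast [Nat.cast_sub h] at h2
          linarith
        · push Not at h
          rw [Nat.choose_eq_zero_of_lt h, Nat.choose_eq_zero_of_lt (by omega)]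
          simp
      have r3 : ((M : ℚ) + 1) * ((i + j).choose (M + 1) : ℚ)
          = ((i : ℚ) + j - M) * ((i + j).choose M : ℚ) := by
        by_cases h : M ≤ i + j
        · have := Nat.choose_succ_right_eq (i + j) M
          have h2 : (((i + j).choose (M + 1) * (M + 1) : ℕ) : ℚ)
              = (((i + j).choose M * (i + j - M) : ℕ) : ℚ) := by
            rw [this]
          push_cast [Nat.cast_sub h] at h2
          linarith
        · push Not at h
          rw [Nat.choose_eq_zero_of_lt h, Nat.choose_eq_zero_of_lt (by omega)]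
          simp
      have r4 : ((i + (j + 1)).choose (M + 1) : ℚ) = ((i + j).choose M : ℚ) + ((i + j).choose (M + 1) : ℚ) := by
        rw [← add_assoc, Nat.choose_succ_succ]
        push_cast
        ring
      simp only [Nat.add_sub_cancel]
      push_cast
      have h1 := r1 i
      have h2 := r1 j
      rw [r4]
      -- abbreviations
      generalize (M.choose i : ℚ) = a at *
      generalize (M.choose j : ℚ) = b at *
      generalize ((M + 1).choose i : ℚ) = A at *
      generalize ((M + 1).choose j : ℚ) = B at *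
      generalize ((M + 1).choose (j + 1) : ℚ) = B' at *
      generalize ((i + j).choose M : ℚ) = c at *
      generalize ((i + j).choose (M + 1) : ℚ) = c1 at *
      have k1 : ((M : ℚ) + 1) ^ 2 * (a * b * c) = (((M : ℚ) + 1 - i) * A) * (((M : ℚ) + 1 - j) * B) * c := by
        rw [← h1, ← h2]; ring
      have k2 : ((j : ℚ) + 1) ^ 2 * (A * B' * (c + c1)) = (j + 1) * A * ((((M : ℚ) + 1 - j) * B)) * (c + c1) := by
        rw [← r2]; ring
      calc ((M : ℚ) + 1) ^ 2 * phi k (M + 1) * (a * b * c)
            + (((M : ℚ) + 1) * (M + 1 + 1) - j * (j + 1)) * (phi k (M + 1) * (A * B * c1))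
          = phi k (M + 1) * (((M : ℚ) + 1) ^ 2 * (a * b * c)
            + (((M : ℚ) + 1) * (M + 1 + 1) - j * (j + 1)) * (A * B * c1)) := by ring
        _ = phi k (M + 1) * (((j : ℚ) + 1) ^ 2 * (A * B' * (c + c1))) := by
            rw [k1, k2]
            have key : ((M : ℚ) - i - j) * c + (M + 1) * c1 = 0 := by rw [r3]; ring
            linear_combination (phi k (M + 1)) * ((M : ℚ) + 1 - j) * A * B * key
        _ = _ := by ring

end Pool.Agent.helper78.DC
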