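import Pool.Agent.helper78.DC.Expand
import Pool.Agent.helper78.DC.Defs

set_option autoImplicit false

namespace Pool.Agent.helper78.DC

open Finset

/-- summand of `B` -/
def tau (m j : ℕ) : ℤ :=
  (((m + j).choose m : ℤ) - ((m + j).choose (m + 1) : ℤ)) * (catalan (m - j) : ℤ) *
    (Nat.centralBinom j : ℤ)

/-- `B b m = G b m / (m+1)`, an integer. -/
def B (b m : ℕ) : ℤ := ∑ j ∈ range (m + 1), tau m j * (b : ℤ) ^ (m - j)

lemma tau_spec (m j : ℕ) (h : j ≤ m) :
    ((m : ℤ) + 1) * tau m j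
      = ((m + j).choose j : ℤ) * (Nat.centralBinom j : ℤ) * (Nat.centralBinom (m - j) : ℤ) := by
  unfold tau
  have h1 : ((m + j).choose (m + 1) : ℤ) * (m + 1) = ((m + j).choose m : ℤ) * j := by
    have := Nat.choose_succ_right_eq (m + j) m
    rw [show m + j - m = j by omega] at this
    exact_mod_cast this
  have h2 : ((m - j : ℕ) + 1 : ℤ) * (catalan (m - j) : ℤ) = (Nat.centralBinom (m - j) : ℤ) := by
    have := succ_mul_catalan_eq_centralBinom (m - j)
    exact_mod_cast this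
  have h3 : (m + j).choose j = (m + j).choose m := by
    rw [← Nat.choose_symm (Nat.le_add_left j m)]
    congr 1
    omega
  rw [h3, ← h2]
  push_cast [Nat.cast_sub h]
  calc ((m : ℤ) + 1) * ((((m + j).choose m : ℤ) - ((m + j).choose (m + 1) : ℤ)) * (catalan (m - j) : ℤ) *
        (Nat.centralBinom j : ℤ))
      = (((m : ℤ) + 1) * ((m + j).choose m : ℤ) - ((m + j).choose (m + 1) : ℤ) * (m + 1)) *
        (catalan (m - j) : ℤ) * (Nat.centralBinom j : ℤ) := by ring
    _ = _ := by rw [h1]; ring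

lemma B_spec (b m : ℕ) : ((m : ℤ) + 1) * B b m = (G b m : ℤ) := by
  unfold B G
  rw [Finset.mul_sum]
  push_cast
  apply Finset.sum_congr rfl
  intro j hj
  have hj' : j ≤ m := by
    have := Finset.mem_range.mp hj
    omega
  rw [← mul_assoc, tau_spec m j hj']

lemma average (n : ℕ) (hn : 0 < n) (g b : ℕ → ℚ) (hb : ∀ m : ℕ, ((m : ℚ) + 1) * b m = g m) :
    1 / (n : ℚ) ^ 2 * ∑ k ∈ range n, (2 * (k : ℚ) + 1) *
      ∑ m ∈ range (k + 1), (-1) ^ m * phi k m * g m
    = ∑ m ∈ range n, (-1) ^ m * ((n - 1).choose m : ℚ) * ((n + m).choose m : ℚ) * b m := by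
  have hn' : (n : ℚ) ≠ 0 := by positivity
  have h1 : ∀ k ∈ range n, (2 * (k : ℚ) + 1) * ∑ m ∈ range (k + 1), (-1) ^ m * phi k m * g m
      = ∑ m ∈ range n, (-1) ^ m * g m * ((2 * (k : ℚ) + 1) * phi k m) := by
    intro k hk
    have hk' : k + 1 ≤ n := Finset.mem_range.mp hk
    rw [Finset.mul_sum]
    apply Finset.sum_subset_zero_on_sdiff (Finset.range_mono hk')
    · intro m hm
      have hm' : k < m := by
        simp only [Finset.mem_sdiff, Finset.mem_range] at hm
        omega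
      rw [phi_eq_zero hm']
      simp
    · intro m _
      ring
  rw [Finset.sum_congr rfl h1, Finset.sum_comm, Finset.mul_sum]
  apply Finset.sum_congr rfl
  intro m _
  rw [← Finset.mul_sum]
  have h2 := sum_phi n m
  have hm : (m : ℚ) + 1 ≠ 0 := by positivity
  rw [← hb m]
  calc 1 / (n : ℚ) ^ 2 * ((-1) ^ m * (((m : ℚ) + 1) * b m) * ∑ i ∈ range n, (2 * (i : ℚ) + 1) * phi i m)
      = 1 / (n : ℚ) ^ 2 * ((-1) ^ m * b m) * (((m : ℚ) + 1) * ∑ i ∈ range n, (2 * (i : ℚ) + 1) * phi i m) := by ring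
    _ = _ := by
      rw [h2]
      field_simp

theorem s_formula (n : ℕ) (hn : 0 < n) :
    s n = ∑ m ∈ range n, (-1) ^ m * ((n - 1).choose m : ℚ) * ((n + m).choose m : ℚ) *
      ((B 1 m : ℚ) / 4 ^ m) := by
  rw [← average n hn (fun m => (G 1 m : ℚ) / 4 ^ m) (fun m => (B 1 m : ℚ) / 4 ^ m)]
  · unfold s
    congr 1
    apply Finset.sum_congr rfl
    intro k _
    rw [← apery_expand]
    unfold aperyPoly
    ring
  · intro m
    have := B_spec 1 m
    have h : ((m : ℚ) + 1) * (B 1 m : ℚ) = (G 1 m : ℚ) := by exact_mod_cast this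
    rw [← h]
    ring

theorem t_formula (n : ℕ) (hn : 0 < n) :
    t n = ∑ m ∈ range n, (-1) ^ m * ((n - 1).choose m : ℚ) * ((n + m).choose m : ℚ) *
      ((3 / 64) ^ m * (B 4 m : ℚ)) := by
  rw [← average n hn (fun m => (3 / 64) ^ m * (G 4 m : ℚ)) (fun m => (3 / 64) ^ m * (B 4 m : ℚ))]
  · unfold t
    congr 1
    apply Finset.sum_congr rfl
    intro k _
    rw [← cube_expand]
    have : dPoly k (-1 / 4) = DD k (-(1 / 4) : ℚ) := by
      unfold dPoly DD phiN
      apply Finset.sum_congr rfl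
      intro m _
      push_cast
      norm_num
    rw [this]
    ring
  · intro m
    have := B_spec 4 m
    have h : ((m : ℚ) + 1) * (B 4 m : ℚ) = (G 4 m : ℚ) := by exact_mod_cast this
    rw [← h]
    ring

/-- The integer `4^(n-1) s(n)`. -/
def SS (n : ℕ) : ℤ :=
  ∑ m ∈ range n, (-1) ^ m * ((n - 1).choose m : ℤ) * ((n + m).choose m : ℤ) * (4 ^ (n - 1 - m) * B 1 m)

/-- The integer `64^(n-1) t(n)`. -/
def TT (n : ℕ) : ℤ :=
  ∑ m ∈ range n, (-1) ^ m * ((n - 1).choose m : ℤ) * ((n + m).choose m : ℤ) *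
    (64 ^ (n - 1 - m) * 3 ^ m * B 4 m)

lemma s_SS (n : ℕ) (hn : 0 < n) : 4 ^ (n - 1) * s n = (SS n : ℚ) := by
  rw [s_formula n hn, Finset.mul_sum]
  unfold SS
  push_cast
  apply Finset.sum_congr rfl
  intro m hm
  have hm' : m ≤ n - 1 := by
    have := Finset.mem_range.mp hm
    omega
  have : (4 : ℚ) ^ (n - 1) = 4 ^ (n - 1 - m) * 4 ^ m := by
    rw [← pow_add]
    congr 1
    omega
  rw [this]
  field_simp

lemma t_TT (n : ℕ) (hn : 0 < n) : 64 ^ (n - 1) * t n = (TT n : ℚ) := by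
  rw [t_formula n hn, Finset.mul_sum]
  unfold TT
  push_cast
  apply Finset.sum_congr rfl
  intro m hm
  have hm' : m ≤ n - 1 := by
    have := Finset.mem_range.mp hm
    omega
  have : (64 : ℚ) ^ (n - 1) = 64 ^ (n - 1 - m) * 64 ^ m := by
    rw [← pow_add]
    congr 1
    omega
  rw [this, div_pow]
  field_simp

end Pool.Agent.helper78.DC
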