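import Pool.Agent.helper78.DC.Main

set_option autoImplicit false

namespace Pool.Agent.helper78.DC

open Finset

/-! Weights modulo `p^2`. -/

/-- the weight `(-1)^m C(q-1,m) C(q+m,m)` -/
def XX (q m : ℕ) : ℤ := (-1) ^ m * ((q - 1).choose m : ℤ) * ((q + m).choose m : ℤ)

lemma XX_rec (q m : ℕ) (hm : m + 1 < q) :
    ((m : ℤ) + 1) ^ 2 * XX q (m + 1) = XX q m * (((m : ℤ) + 1) ^ 2 - (q : ℤ) ^ 2) := by
  unfold XX
  have h1 : ((q - 1).choose (m + 1) : ℤ) * (m + 1) = ((q - 1).choose m : ℤ) * ((q : ℤ) - 1 - m) := by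
    have := Nat.choose_succ_right_eq (q - 1) m
    have h2 : (((q - 1).choose (m + 1) * (m + 1) : ℕ) : ℤ) = (((q - 1).choose m * (q - 1 - m) : ℕ) : ℤ) := by
      rw [this]
    rw [show q - 1 - m = q - (m + 1) by omega] at h2
    push_cast [Nat.cast_sub (by omega : m + 1 ≤ q)] at h2
    linear_combination h2
  have h2 : ((q + (m + 1)).choose (m + 1) : ℤ) * (m + 1) = ((q + m).choose m : ℤ) * (q + m + 1) := by
    have := Nat.add_one_mul_choose_eq (q + m) m
    have h3 : (((q + m + 1) * (q + m).choose m : ℕ) : ℤ)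
        = (((q + m + 1).choose (m + 1) * (m + 1) : ℕ) : ℤ) := by
      rw [this]
    push_cast at h3
    rw [show q + (m + 1) = q + m + 1 by ring]
    linarith
  calc ((m : ℤ) + 1) ^ 2 * ((-1) ^ (m + 1) * ((q - 1).choose (m + 1) : ℤ) * ((q + (m + 1)).choose (m + 1) : ℤ))
      = (-1) ^ (m + 1) * (((q - 1).choose (m + 1) : ℤ) * (m + 1)) * (((q + (m + 1)).choose (m + 1) : ℤ) * (m + 1)) := by
        ring
    _ = _ := by rw [h1, h2]; ring

lemma XX_mod (p a m : ℕ) (hp : p.Prime) (hm : m < p ^ a) : ((p : ℤ) ^ 2) ∣ XX (p ^ a) m - 1 := by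
  induction m with
  | zero => simp [XX]
  | succ m ih =>
    have ih' := ih (by omega)
    have hrec := XX_rec (p ^ a) m hm
    obtain ⟨b, c, hc, hbc⟩ := Nat.exists_eq_pow_mul_and_not_dvd (n := m + 1) (by omega) p hp.ne_one
    have hba : b < a := by
      have h1 : p ^ b ≤ m + 1 := by
        rw [hbc]
        exact Nat.le_mul_of_pos_right _ (Nat.pos_of_ne_zero (by rintro rfl; simp at hc))
      exact (Nat.pow_lt_pow_iff_right hp.one_lt).mp (lt_of_le_of_lt h1 hm)
    obtain ⟨e, rfl⟩ : ∃ e, a = b + 1 + e := ⟨a - (b + 1), by omega⟩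
    have hbc' : ((m : ℤ) + 1) = (p : ℤ) ^ b * c := by exact_mod_cast hbc
    rw [hbc'] at hrec
    have h2 : (p : ℤ) ^ (2 * b) * ((c : ℤ) ^ 2 * (XX (p ^ (b + 1 + e)) (m + 1) - XX (p ^ (b + 1 + e)) m))
        = (p : ℤ) ^ (2 * b) * ((p : ℤ) ^ 2 * (-(p : ℤ) ^ (2 * e) * XX (p ^ (b + 1 + e)) m)) := by
      push_cast at hrec
      linear_combination hrec
    have hpb : (p : ℤ) ^ (2 * b) ≠ 0 := by
      have := hp.pos
      positivity
    have h3 := mul_left_cancel₀ hpb h2
    have h4 : (p : ℤ) ^ 2 ∣ (c : ℤ) ^ 2 * (XX (p ^ (b + 1 + e)) (m + 1) - XX (p ^ (b + 1 + e)) m) :=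
      ⟨_, h3⟩
    have h5 : IsCoprime ((p : ℤ) ^ 2) ((c : ℤ) ^ 2) := by
      apply IsCoprime.pow
      rw [Int.isCoprime_iff_gcd_eq_one, Int.gcd_natCast_natCast]
      exact (Nat.Prime.coprime_iff_not_dvd hp).mpr hc
    have h6 := h5.dvd_of_dvd_mul_left h4
    have h7 := dvd_add h6 ih'
    simpa using h7

lemma SS_mod (p a : ℕ) (hp : p.Prime) :
    SS (p ^ a) ≡ ∑ m ∈ range (p ^ a), 4 ^ (p ^ a - 1 - m) * B 1 m [ZMOD ((p : ℤ) ^ 2)] := by
  unfold SS
  apply Int.ModEq.sum
  intro m hm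
  have hm' : m < p ^ a := Finset.mem_range.mp hm
  have h := XX_mod p a m hp hm'
  have h1 : XX (p ^ a) m ≡ 1 [ZMOD ((p : ℤ) ^ 2)] := (Int.modEq_iff_dvd.mpr h).symm
  have h2 := Int.ModEq.mul_right (4 ^ (p ^ a - 1 - m) * B 1 m) h1
  rw [one_mul] at h2
  exact h2

lemma TT_mod (p a : ℕ) (hp : p.Prime) :
    TT (p ^ a) ≡ ∑ m ∈ range (p ^ a), 64 ^ (p ^ a - 1 - m) * 3 ^ m * B 4 m [ZMOD ((p : ℤ) ^ 2)] := by
  unfold TT
  apply Int.ModEq.sum
  intro m hm
  have hm' : m < p ^ a := Finset.mem_range.mp hm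
  have h := XX_mod p a m hp hm'
  have h1 : XX (p ^ a) m ≡ 1 [ZMOD ((p : ℤ) ^ 2)] := (Int.modEq_iff_dvd.mpr h).symm
  have h2 := Int.ModEq.mul_right (64 ^ (p ^ a - 1 - m) * 3 ^ m * B 4 m) h1
  rw [one_mul] at h2
  exact h2

/-! Central binomial coefficients modulo `p`. -/

section ModP

variable (p : ℕ) [hpf : Fact p.Prime]

lemma cb_lucas (j : ℕ) :
    (Nat.centralBinom j : ZMod p) = (Nat.centralBinom (j % p) : ZMod p) * (Nat.centralBinom (j / p) : ZMod p) := by
  have hp := hpf.out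
  have hL := Choose.choose_modEq_choose_mod_mul_choose_div_nat (n := 2 * j) (k := j) (p := p)
  have hL' := (ZMod.natCast_eq_natCast_iff _ _ _).mpr hL
  rw [Nat.centralBinom_eq_two_mul_choose j, hL']
  have hj : j = j % p + p * (j / p) := (Nat.mod_add_div j p).symm
  have hlt : j % p < p := Nat.mod_lt _ hp.pos
  by_cases h : 2 * (j % p) < p
  · have e0 : 2 * j = 2 * (j % p) + p * (2 * (j / p)) := by
      calc 2 * j = 2 * (j % p + p * (j / p)) := by rw [← hj]
        _ = _ := by ring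
    have e1 : (2 * j) % p = 2 * (j % p) := by
      rw [e0, Nat.add_mul_mod_self_left, Nat.mod_eq_of_lt h]
    have e2 : (2 * j) / p = 2 * (j / p) := by
      rw [e0, Nat.add_mul_div_left _ _ hp.pos, Nat.div_eq_of_lt h, zero_add]
    rw [e1, e2, Nat.centralBinom_eq_two_mul_choose, Nat.centralBinom_eq_two_mul_choose]
    push_cast
    rfl
  · push Not at h
    have e0 : 2 * j = (2 * (j % p) - p) + p * (2 * (j / p) + 1) := by
      calc 2 * j = 2 * (j % p + p * (j / p)) := by rw [← hj]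
        _ = 2 * (j % p) + p * (2 * (j / p)) := by ring
        _ = (2 * (j % p) - p + p) + p * (2 * (j / p)) := by rw [Nat.sub_add_cancel h]
        _ = _ := by ring
    have e1 : (2 * j) % p = 2 * (j % p) - p := by
      rw [e0, Nat.add_mul_mod_self_left, Nat.mod_eq_of_lt (by omega)]
    have e2 : (Nat.centralBinom (j % p) : ZMod p) = 0 := by
      rw [Nat.centralBinom_eq_two_mul_choose, ZMod.natCast_eq_zero_iff]
      have := Nat.Prime.dvd_choose_add hp hlt hlt (by omega : p ≤ j % p + j % p)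
      rwa [← two_mul] at this
    rw [e1, e2, Nat.choose_eq_zero_of_lt (by omega : 2 * (j % p) - p < j % p)]
    simp

lemma cb_small (e : ℕ) (he : p = 2 * e + 1) (j : ℕ) (hj : j < p) :
    (Nat.centralBinom j : ZMod p) = (-4) ^ j * (e.choose j : ZMod p) := by
  induction j with
  | zero => simp
  | succ j ih =>
    have ih' := ih (by omega)
    have h1 : ((j : ZMod p) + 1) * (Nat.centralBinom (j + 1) : ZMod p)
        = 2 * (2 * j + 1) * (Nat.centralBinom j : ZMod p) := by
      have := Nat.succ_mul_centralBinom_succ j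
      exact_mod_cast congrArg (Nat.cast (R := ZMod p)) this
    have h2 : ((j : ZMod p) + 1) * (e.choose (j + 1) : ZMod p) = (e.choose j : ZMod p) * ((e : ZMod p) - j) := by
      by_cases h : j ≤ e
      · have := Nat.choose_succ_right_eq e j
        have h3 : ((e.choose (j + 1) * (j + 1) : ℕ) : ZMod p) = ((e.choose j * (e - j) : ℕ) : ZMod p) := by
          rw [this]
        push_cast [Nat.cast_sub h] at h3
        linear_combination h3
      · push Not at h
        rw [Nat.choose_eq_zero_of_lt h, Nat.choose_eq_zero_of_lt (by omega)]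
        simp
    have h3 : (2 : ZMod p) * e + 1 = 0 := by
      have : ((2 * e + 1 : ℕ) : ZMod p) = 0 := by
        rw [← he]
        exact ZMod.natCast_self p
      exact_mod_cast this
    have h4 : ((j : ZMod p) + 1) ≠ 0 := by
      intro h
      have : ((j + 1 : ℕ) : ZMod p) = 0 := by exact_mod_cast h
      rw [ZMod.natCast_eq_zero_iff] at this
      exact absurd (Nat.le_of_dvd (by omega) this) (by omega)
    apply mul_left_cancel₀ h4
    rw [h1, ih']
    calc 2 * (2 * (j : ZMod p) + 1) * ((-4) ^ j * (e.choose j : ZMod p))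
        = (-4) ^ (j + 1) * ((e.choose j : ZMod p) * ((e : ZMod p) - j))
          + (2 * (-4) ^ j * (e.choose j : ZMod p)) * (2 * e + 1) := by ring
      _ = (-4) ^ (j + 1) * (((j : ZMod p) + 1) * (e.choose (j + 1) : ZMod p)) := by rw [h3, ← h2]; ring
      _ = _ := by ring

lemma cb_gen (e : ℕ) (he : p = 2 * e + 1) (a : ℕ) (h : ℕ) (hh : p ^ a = 2 * h + 1) (j : ℕ) (hj : j < p ^ a) :
    (Nat.centralBinom j : ZMod p) = (-4) ^ j * (h.choose j : ZMod p) := by
  have hp := hpf.out
  induction a generalizing h j with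
  | zero =>
    have h0 : h = 0 := by
      simp at hh
      omega
    have j0 : j = 0 := by simpa using hj
    subst h0 j0
    simp
  | succ a ih =>
    obtain ⟨f, hf⟩ : ∃ f, p ^ a = 2 * f + 1 := by
      have : Odd (p ^ a) := Odd.pow ⟨e, he⟩
      exact this
    have hh' : h = e + p * f := by
      rw [pow_succ, hf] at hh
      have : (2 * f + 1) * p = 2 * (p * f) + p := by ring
      rw [this, he] at hh
      rw [he]
      omega
    have hjp : j / p < p ^ a := by
      rw [Nat.div_lt_iff_lt_mul hp.pos]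
      rw [pow_succ] at hj
      exact hj
    have hL := Choose.choose_modEq_choose_mod_mul_choose_div_nat (n := h) (k := j) (p := p)
    have hL' := (ZMod.natCast_eq_natCast_iff _ _ _).mpr hL
    have e1 : h % p = e := by
      rw [hh', Nat.add_mul_mod_self_left, Nat.mod_eq_of_lt (by omega)]
    have e2 : h / p = f := by
      rw [hh', Nat.add_mul_div_left _ _ hp.pos, Nat.div_eq_of_lt (by omega), zero_add]
    rw [e1, e2] at hL'
    rw [cb_lucas p j, ih f hf (j / p) hjp, cb_small p e he (j % p) (Nat.mod_lt _ hp.pos), hL']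
    have e3 : (-4 : ZMod p) ^ j = (-4) ^ (j % p) * (-4) ^ (j / p) := by
      conv_lhs => rw [← Nat.mod_add_div j p, pow_add, pow_mul, ZMod.pow_card]
    rw [e3]
    push_cast
    ring

omit hpf in
lemma two_catalan (i : ℕ) : 2 * catalan i + Nat.centralBinom (i + 1) = 4 * Nat.centralBinom i := by
  have h1 := succ_mul_catalan_eq_centralBinom i
  have h2 := Nat.succ_mul_centralBinom_succ i
  have h3 : (i + 1) * (2 * catalan i + Nat.centralBinom (i + 1)) = (i + 1) * (4 * Nat.centralBinom i) := by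
    calc (i + 1) * (2 * catalan i + Nat.centralBinom (i + 1))
        = 2 * ((i + 1) * catalan i) + (i + 1) * Nat.centralBinom (i + 1) := by ring
      _ = _ := by rw [h1, h2]; ring
  exact Nat.eq_of_mul_eq_mul_left (by omega) h3

lemma two_ne_zero' (e : ℕ) (he : p = 2 * e + 1) : (2 : ZMod p) ≠ 0 := by
  have hp := hpf.out
  intro h
  have : ((2 : ℕ) : ZMod p) = 0 := by exact_mod_cast h
  rw [ZMod.natCast_eq_zero_iff] at this
  have h2 := (Nat.prime_dvd_prime_iff_eq hp Nat.prime_two).mp this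
  omega

lemma cat_gen (e : ℕ) (he : p = 2 * e + 1) (a : ℕ) (h : ℕ) (hh : p ^ a = 2 * h + 1) (i : ℕ) (hi : i + 1 < p ^ a) :
    (catalan i : ZMod p) = 2 * (-4) ^ i * ((h + 1).choose (i + 1) : ZMod p) := by
  have h1 : 2 * (catalan i : ZMod p) + (Nat.centralBinom (i + 1) : ZMod p) = 4 * (Nat.centralBinom i : ZMod p) := by
    exact_mod_cast congrArg (Nat.cast (R := ZMod p)) (two_catalan i)
  rw [cb_gen p e he a h hh (i + 1) hi, cb_gen p e he a h hh i (by omega)] at h1
  apply mul_left_cancel₀ (two_ne_zero' p e he)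
  rw [Nat.choose_succ_succ]
  push_cast
  linear_combination h1

lemma cb_pow (a : ℕ) : (Nat.centralBinom (p ^ a) : ZMod p) = 2 := by
  have hp := hpf.out
  induction a with
  | zero => simp [Nat.centralBinom_eq_two_mul_choose]
  | succ a ih =>
    rw [cb_lucas, pow_succ, Nat.mul_mod_left, Nat.mul_div_cancel _ hp.pos, ih]
    simp

lemma cat_top (e : ℕ) (he : p = 2 * e + 1) (a : ℕ) (ha : 0 < a) :
    (catalan (p ^ a - 1) : ZMod p) = -1 := by
  have hp := hpf.out
  obtain ⟨h, hh⟩ : ∃ h, p ^ a = 2 * h + 1 := by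
    have : Odd (p ^ a) := Odd.pow ⟨e, he⟩
    exact this
  have hge : p ≤ p ^ a := Nat.le_self_pow (by omega) p
  have h2p := hp.two_le
  have h1 : 2 * (catalan (p ^ a - 1) : ZMod p) + (Nat.centralBinom (p ^ a - 1 + 1) : ZMod p)
      = 4 * (Nat.centralBinom (p ^ a - 1) : ZMod p) := by
    exact_mod_cast congrArg (Nat.cast (R := ZMod p)) (two_catalan (p ^ a - 1))
  rw [cb_gen p e he a h hh (p ^ a - 1) (by omega), show p ^ a - 1 + 1 = p ^ a by omega, cb_pow p a,
    Nat.choose_eq_zero_of_lt (by omega)] at h1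
  apply mul_left_cancel₀ (two_ne_zero' p e he)
  simp at h1
  linear_combination h1

/-- the numbers `C(i+2j,i+j) - C(i+2j,i+j+1)` -/
def Qn (i j : ℕ) : ℤ := ((i + 2 * j).choose (i + j) : ℤ) - ((i + 2 * j).choose (i + j + 1) : ℤ)

omit hpf in
lemma tau_Q (i j : ℕ) : tau (i + j) j = Qn i j * (catalan i : ℤ) * (Nat.centralBinom j : ℤ) := by
  unfold tau Qn
  rw [show i + j + j = i + 2 * j by ring, show i + j - j = i by omega]

lemma total (e : ℕ) (he : p = 2 * e + 1) (a : ℕ) (ha : 0 < a) (h : ℕ) (hh : p ^ a = 2 * h + 1)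
    (x y : ZMod p) :
    ∑ m ∈ range (p ^ a), ∑ j ∈ range (m + 1), (tau m j : ZMod p) * x ^ (m - j) * y ^ j
      = 2 * ∑ j ∈ range (h + 1), ∑ i ∈ range (h + 1), (-4 * x) ^ i * (-4 * y) ^ j *
          ((h + 1).choose (i + 1) : ZMod p) * (h.choose j : ZMod p) * (Qn i j : ZMod p)
        - x ^ (p ^ a - 1) := by
  have hp := hpf.out
  have hge : p ≤ p ^ a := Nat.le_self_pow (by omega) p
  have h2p := hp.two_le
  have hh1 : 1 ≤ h := by omega
  obtain ⟨f, hf⟩ : ∃ f : ℕ → ℕ → ZMod p, ∀ j i, f j i = (Qn i j : ZMod p) * (catalan i : ZMod p) *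
      (Nat.centralBinom j : ZMod p) * x ^ i * y ^ j := ⟨_, fun _ _ => rfl⟩
  -- step 1: reindex
  have e1 : ∑ m ∈ range (p ^ a), ∑ j ∈ range (m + 1), (tau m j : ZMod p) * x ^ (m - j) * y ^ j
      = ∑ m ∈ range (p ^ a), ∑ j ∈ range (m + 1), f j (m - j) := by
    apply Finset.sum_congr rfl
    intro m _
    apply Finset.sum_congr rfl
    intro j hj
    have hj' : j ≤ m := by
      have := Finset.mem_range.mp hj
      omega
    obtain ⟨i, rfl⟩ : ∃ i, m = i + j := ⟨m - j, by omega⟩
    rw [tau_Q, hf]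
    simp only [Nat.add_sub_cancel]
    push_cast
    ring
  rw [e1, sum_range_diag_flip]
  -- step 2: replace by closed form
  have e2 : ∀ j ∈ range (p ^ a), ∑ i ∈ range (p ^ a - j), f j i
      = ∑ i ∈ range (p ^ a - j), (2 * ((-4 * x) ^ i * (-4 * y) ^ j *
          ((h + 1).choose (i + 1) : ZMod p) * (h.choose j : ZMod p) * (Qn i j : ZMod p)))
        + if j = 0 then - x ^ (p ^ a - 1) else 0 := by
    intro j hj
    have hj' : j < p ^ a := Finset.mem_range.mp hj
    have hcb := cb_gen p e he a h hh j hj'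
    by_cases hj0 : j = 0
    · subst hj0
      rw [if_pos rfl, Nat.sub_zero, show p ^ a = (p ^ a - 1) + 1 by omega, Finset.sum_range_succ,
        Finset.sum_range_succ]
      have e3 : ∀ i ∈ range (p ^ a - 1), f 0 i
          = (2 * ((-4 * x) ^ i * (-4 * y) ^ 0 *
            ((h + 1).choose (i + 1) : ZMod p) * (h.choose 0 : ZMod p) * (Qn i 0 : ZMod p))) := by
        intro i hi
        have hi' : i < p ^ a - 1 := Finset.mem_range.mp hi
        rw [hf, cat_gen p e he a h hh i (by omega), mul_pow]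
        simp
        ring
      rw [Finset.sum_congr rfl e3, hf, cat_top p e he a ha, show p ^ a - 1 + 1 - 1 = p ^ a - 1 by omega,
        Nat.choose_eq_zero_of_lt (by omega : h + 1 < p ^ a - 1 + 1)]
      have hQ : (Qn (p ^ a - 1) 0) = 1 := by
        unfold Qn
        simp
      rw [hQ]
      simp
    · rw [if_neg hj0, add_zero]
      apply Finset.sum_congr rfl
      intro i hi
      have hi' : i < p ^ a - j := Finset.mem_range.mp hi
      rw [hf, cat_gen p e he a h hh i (by omega), hcb, mul_pow, mul_pow]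
      ring
  rw [Finset.sum_congr rfl e2, Finset.sum_add_distrib, Finset.sum_ite_eq' (range (p ^ a)) 0,
    if_pos (by simp; omega)]
  rw [Finset.mul_sum, sub_eq_add_neg]
  congr 1
  symm
  apply Finset.sum_subset_zero_on_sdiff (Finset.range_mono (by omega : h + 1 ≤ p ^ a))
  · intro j hj
    have hj' : h < j := by
      simp only [Finset.mem_sdiff, Finset.mem_range] at hj
      omega
    rw [Nat.choose_eq_zero_of_lt hj']
    simp
  · intro j hj
    have hj' : j ≤ h := by
      have := Finset.mem_range.mp hj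
      omega
    rw [Finset.mul_sum]
    apply Finset.sum_subset_zero_on_sdiff (Finset.range_mono (by omega : h + 1 ≤ p ^ a - j))
    · intro i hi
      have hi' : h < i := by
        simp only [Finset.mem_sdiff, Finset.mem_range] at hi
        omega
      rw [Nat.choose_eq_zero_of_lt (by omega : h + 1 < i + 1)]
      simp
    · intro i _
      rfl

omit hpf in
/-- exact evaluation for the first sequence -/
lemma inner_s (h j : ℕ) (hj : j ≤ h) :
    ∑ i ∈ range (h + 1), (-1 : ℤ) ^ i * ((h + 1).choose (i + 1) : ℤ) * Qn i j = if j = 0 then 1 else 0 := by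
  by_cases hj0 : j = 0
  · subst hj0
    rw [if_pos rfl]
    have h1 := alt_sum (h + 1) 0 0
    rw [if_neg (by omega), Finset.sum_range_succ'] at h1
    simp only [Nat.choose_zero_right, Nat.cast_one, mul_one, pow_zero] at h1
    have h2 : ∀ i ∈ range (h + 1), (-1 : ℤ) ^ i * ((h + 1).choose (i + 1) : ℤ) * Qn i 0
        = -((-1 : ℤ) ^ (i + 1) * ((h + 1).choose (i + 1) : ℤ)) := by
      intro i _
      unfold Qn
      simp
      ring
    rw [Finset.sum_congr rfl h2, Finset.sum_neg_distrib]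
    linear_combination -h1
  · rw [if_neg hj0]
    obtain ⟨k, rfl⟩ : ∃ k, j = k + 1 := ⟨j - 1, by omega⟩
    have key : ∀ c : ℕ, c ≤ h → ∑ i ∈ range (h + 1), (-1 : ℤ) ^ i * ((h + 1).choose (i + 1) : ℤ) *
        ((i + 2 * (k + 1)).choose c : ℤ) = ((2 * k + 1).choose c : ℤ) := by
      intro c hc
      have h1 := alt_sum (h + 1) (2 * k + 1) c
      rw [if_neg (by omega), Finset.sum_range_succ'] at h1
      simp only [Nat.choose_zero_right, Nat.cast_one, mul_one, pow_zero, one_mul, Nat.add_zero] at h1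
      have h2 : ∀ i ∈ range (h + 1), (-1 : ℤ) ^ i * ((h + 1).choose (i + 1) : ℤ) * ((i + 2 * (k + 1)).choose c : ℤ)
          = -((-1 : ℤ) ^ (i + 1) * ((h + 1).choose (i + 1) : ℤ) * ((2 * k + 1 + (i + 1)).choose c : ℤ)) := by
        intro i _
        rw [show i + 2 * (k + 1) = 2 * k + 1 + (i + 1) by ring]
        ring
      rw [Finset.sum_congr rfl h2, Finset.sum_neg_distrib]
      linear_combination -h1
    have k1 := key (k + 1) hj
    have k2 := key k (by omega)
    have h3 : ∀ i ∈ range (h + 1), (-1 : ℤ) ^ i * ((h + 1).choose (i + 1) : ℤ) * Qn i (k + 1)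
        = (-1 : ℤ) ^ i * ((h + 1).choose (i + 1) : ℤ) * ((i + 2 * (k + 1)).choose (k + 1) : ℤ)
          - (-1 : ℤ) ^ i * ((h + 1).choose (i + 1) : ℤ) * ((i + 2 * (k + 1)).choose k : ℤ) := by
      intro i _
      unfold Qn
      have s1 : (i + 2 * (k + 1)).choose (i + (k + 1)) = (i + 2 * (k + 1)).choose (k + 1) := by
        rw [← Nat.choose_symm (by omega : i + (k + 1) ≤ i + 2 * (k + 1))]
        congr 1
        omega
      have s2 : (i + 2 * (k + 1)).choose (i + (k + 1) + 1) = (i + 2 * (k + 1)).choose k := by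
        rw [← Nat.choose_symm (by omega : i + (k + 1) + 1 ≤ i + 2 * (k + 1))]
        congr 1
        omega
      rw [s1, s2]
      ring
    rw [Finset.sum_congr rfl h3, Finset.sum_sub_distrib, k1, k2]
    have : (2 * k + 1).choose (k + 1) = (2 * k + 1).choose k := by
      rw [← Nat.choose_symm (by omega : k + 1 ≤ 2 * k + 1)]
      congr 1
      omega
    rw [this]
    ring

/-- `4^(q-1) = 1` etc. -/
lemma pow_q (a : ℕ) (z : ZMod p) (hz : z ≠ 0) : z ^ (p ^ a - 1) = 1 := by
  have hp := hpf.out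
  have h1 : z ^ (p ^ a) = z := ZMod.pow_card_pow z
  have h2 : z ^ (p ^ a - 1) * z = 1 * z := by
    rw [← pow_succ, Nat.sub_add_cancel (Nat.one_le_pow _ _ hp.pos), h1, one_mul]
  exact mul_right_cancel₀ hz h2

theorem SS_mod_p (e : ℕ) (he : p = 2 * e + 1) (a : ℕ) (ha : 0 < a) : (SS (p ^ a) : ZMod p) = 1 := by
  have hp := hpf.out
  obtain ⟨h, hh⟩ : ∃ h, p ^ a = 2 * h + 1 := by
    have : Odd (p ^ a) := Odd.pow ⟨e, he⟩
    exact this
  have h2 := two_ne_zero' p e he
  have h4 : (4 : ZMod p) ≠ 0 := by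
    have : (4 : ZMod p) = 2 * 2 := by norm_num
    rw [this]
    exact mul_ne_zero h2 h2
  have hS : (SS (p ^ a) : ZMod p) = ((∑ m ∈ range (p ^ a), 4 ^ (p ^ a - 1 - m) * B 1 m : ℤ) : ZMod p) := by
    rw [ZMod.intCast_eq_intCast_iff]
    exact (SS_mod p a hp).of_dvd (dvd_pow_self _ (by norm_num))
  rw [hS]
  push_cast
  have e1 : ∀ m ∈ range (p ^ a), (4 : ZMod p) ^ (p ^ a - 1 - m) * (B 1 m : ZMod p)
      = ∑ j ∈ range (m + 1), (tau m j : ZMod p) * (4⁻¹) ^ (m - j) * (4⁻¹) ^ j := by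
    intro m hm
    have hm' : m < p ^ a := Finset.mem_range.mp hm
    have e2 : (4 : ZMod p) ^ (p ^ a - 1 - m) = (4⁻¹) ^ m := by
      have e3 : (4 : ZMod p) ^ (p ^ a - 1 - m) * 4 ^ m = 1 := by
        rw [← pow_add, Nat.sub_add_cancel (by omega), pow_q p a _ h4]
      rw [inv_pow]
      exact eq_inv_of_mul_eq_one_left e3
    rw [e2]
    unfold B
    push_cast
    rw [Finset.mul_sum]
    apply Finset.sum_congr rfl
    intro j hj
    have hj' : j ≤ m := by
      have := Finset.mem_range.mp hj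
      omega
    have e4 : (4⁻¹ : ZMod p) ^ m = (4⁻¹) ^ (m - j) * (4⁻¹) ^ j := by
      rw [← pow_add, Nat.sub_add_cancel hj']
    rw [e4]
    ring
  rw [Finset.sum_congr rfl e1, total p e he a ha h hh, pow_q p a _ (inv_ne_zero h4)]
  have e5 : (-4 * 4⁻¹ : ZMod p) = -1 := by
    rw [neg_mul, mul_inv_cancel₀ h4]
  rw [e5]
  have e6 : ∀ j ∈ range (h + 1), ∑ i ∈ range (h + 1), (-1 : ZMod p) ^ i * (-1) ^ j *
      ((h + 1).choose (i + 1) : ZMod p) * (h.choose j : ZMod p) * (Qn i j : ZMod p)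
      = if j = 0 then 1 else 0 := by
    intro j hj
    have hj' : j ≤ h := by
      have := Finset.mem_range.mp hj
      omega
    have h5 := inner_s h j hj'
    have h6 : ((∑ i ∈ range (h + 1), (-1 : ℤ) ^ i * ((h + 1).choose (i + 1) : ℤ) * Qn i j : ℤ) : ZMod p)
        = ((if j = 0 then 1 else 0 : ℤ) : ZMod p) := by rw [h5]
    push_cast at h6
    have h7 : ∑ i ∈ range (h + 1), (-1 : ZMod p) ^ i * (-1) ^ j *
      ((h + 1).choose (i + 1) : ZMod p) * (h.choose j : ZMod p) * (Qn i j : ZMod p)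
      = ((-1) ^ j * (h.choose j : ZMod p)) * ∑ i ∈ range (h + 1), (-1 : ZMod p) ^ i *
        ((h + 1).choose (i + 1) : ZMod p) * (Qn i j : ZMod p) := by
      rw [Finset.mul_sum]
      apply Finset.sum_congr rfl
      intro i _
      ring
    rw [h7, h6]
    by_cases hj0 : j = 0
    · subst hj0
      simp
    · simp [hj0]
  rw [Finset.sum_congr rfl e6, Finset.sum_ite_eq' (range (h + 1)) 0, if_pos (by simp)]
  norm_num

end ModP

end Pool.Agent.helper78.DC
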