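import Pool.Agent.helper78.DC.ModP

set_option autoImplicit false

namespace Pool.Agent.helper78.DC

open Finset

/-! 3-adic analysis. -/

/-- `P a = ∏_{t<a} (3t+1)(3t+2)` -/
def P : ℕ → ℕ
  | 0 => 1
  | (a + 1) => (3 * a + 1) * (3 * a + 2) * P a

lemma fac3 (a : ℕ) : ((3 * a).factorial : ℤ) = 3 ^ a * (a.factorial : ℤ) * (P a : ℤ) := by
  induction a with
  | zero => simp [P]
  | succ a ih =>
    rw [show 3 * (a + 1) = 3 * a + 1 + 1 + 1 by ring, Nat.factorial_succ, Nat.factorial_succ,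
      Nat.factorial_succ, Nat.factorial_succ, P]
    push_cast
    rw [ih]
    ring

lemma fac3_1 (a : ℕ) : ((3 * a + 1).factorial : ℤ) = (3 * a + 1) * (3 ^ a * (a.factorial : ℤ) * (P a : ℤ)) := by
  rw [Nat.factorial_succ]
  push_cast
  rw [fac3]

lemma fac3_2 (a : ℕ) : ((3 * a + 2).factorial : ℤ)
    = (3 * a + 2) * (3 * a + 1) * (3 ^ a * (a.factorial : ℤ) * (P a : ℤ)) := by
  rw [Nat.factorial_succ]
  push_cast
  rw [fac3_1]
  ring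

lemma fac6_2 (a : ℕ) : ((6 * a + 2).factorial : ℤ)
    = (6 * a + 2) * (6 * a + 1) * (3 ^ (2 * a) * ((2 * a).factorial : ℤ) * (P (2 * a) : ℤ)) := by
  have := fac3_2 (2 * a)
  rw [show 3 * (2 * a) + 2 = 6 * a + 2 by ring] at this
  rw [this]
  push_cast
  ring

lemma fac6_4 (a : ℕ) : ((6 * a + 4).factorial : ℤ)
    = (6 * a + 4) * (3 * (2 * a + 1)) * ((6 * a + 2) * (6 * a + 1) * (3 ^ (2 * a) * ((2 * a).factorial : ℤ) * (P (2 * a) : ℤ))) := by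
  rw [show 6 * a + 4 = 6 * a + 2 + 1 + 1 by ring, Nat.factorial_succ, Nat.factorial_succ]
  push_cast
  rw [fac6_2]
  ring

lemma P9 (a : ℕ) : ((P a : ℕ) : ZMod 9) = 2 ^ a := by
  induction a with
  | zero => simp [P]
  | succ a ih =>
    rw [P]
    push_cast
    rw [ih]
    have h9 : (9 : ZMod 9) = 0 := by decide
    have : (3 * (a : ZMod 9) + 1) * (3 * a + 2) = 2 + 9 * (a ^ 2 + a) := by ring
    rw [this, h9]
    ring

/-- `gz i j = C(i+2j,j) C(2j,j) C(2i,i)` -/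
def gz (i j : ℕ) : ℕ := (i + 2 * j).choose j * Nat.centralBinom j * Nat.centralBinom i

/-- `gp i j = C(i+2j+1,j) C(2j,j) C(2i,i)` -/
def gp (i j : ℕ) : ℕ := (i + 2 * j + 1).choose j * Nat.centralBinom j * Nat.centralBinom i

/-- `Tz i j = gz i j / (i+j+1)` -/
def Tz (i j : ℕ) : ℤ := tau (i + j) j

lemma cb_fac (n : ℕ) : (Nat.centralBinom n : ℤ) * ((n.factorial : ℤ) * (n.factorial : ℤ)) = ((2 * n).factorial : ℤ) := by
  have := Nat.choose_mul_factorial_mul_factorial (by omega : n ≤ 2 * n)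
  rw [show 2 * n - n = n by omega] at this
  rw [Nat.centralBinom_eq_two_mul_choose]
  exact_mod_cast (by rw [← mul_assoc]; exact this)

lemma gz_master (i j : ℕ) :
    ((i + j).factorial : ℤ) * (j.factorial : ℤ) ^ 3 * (i.factorial : ℤ) ^ 2 * (gz i j : ℤ)
      = ((i + 2 * j).factorial : ℤ) * ((2 * j).factorial : ℤ) * ((2 * i).factorial : ℤ) := by
  unfold gz
  have h1 := Nat.choose_mul_factorial_mul_factorial (by omega : j ≤ i + 2 * j)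
  rw [show i + 2 * j - j = i + j by omega] at h1
  have h1' : ((i + 2 * j).choose j : ℤ) * (j.factorial : ℤ) * ((i + j).factorial : ℤ) = ((i + 2 * j).factorial : ℤ) := by
    exact_mod_cast h1
  push_cast
  rw [← cb_fac j, ← cb_fac i, ← h1']
  ring

lemma gp_master (i j : ℕ) :
    ((i + j + 1).factorial : ℤ) * (j.factorial : ℤ) ^ 3 * (i.factorial : ℤ) ^ 2 * (gp i j : ℤ)
      = ((i + 2 * j + 1).factorial : ℤ) * ((2 * j).factorial : ℤ) * ((2 * i).factorial : ℤ) := by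
  unfold gp
  have h1 := Nat.choose_mul_factorial_mul_factorial (by omega : j ≤ i + 2 * j + 1)
  rw [show i + 2 * j + 1 - j = i + j + 1 by omega] at h1
  have h1' : ((i + 2 * j + 1).choose j : ℤ) * (j.factorial : ℤ) * ((i + j + 1).factorial : ℤ)
      = ((i + 2 * j + 1).factorial : ℤ) := by
    exact_mod_cast h1
  push_cast
  rw [← cb_fac j, ← cb_fac i, ← h1']
  ring

lemma Tz_gz (i j : ℕ) : ((i : ℤ) + j + 1) * Tz i j = (gz i j : ℤ) := by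
  unfold Tz gz
  have := tau_spec (i + j) j (by omega)
  rw [show i + j + j = i + 2 * j by ring, show i + j - j = i by omega] at this
  push_cast at this ⊢
  exact this

lemma Tz_master (i j : ℕ) :
    ((i + j + 1).factorial : ℤ) * (j.factorial : ℤ) ^ 3 * (i.factorial : ℤ) ^ 2 * Tz i j
      = ((i + 2 * j).factorial : ℤ) * ((2 * j).factorial : ℤ) * ((2 * i).factorial : ℤ) := by
  rw [← gz_master, ← Tz_gz, Nat.factorial_succ]
  push_cast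
  ring

lemma fpos (n : ℕ) : (n.factorial : ℤ) ≠ 0 := by
  exact_mod_cast Nat.factorial_ne_zero n

lemma solve9 (F1 F2 iv c x x' : ZMod 9) (h : F1 * x' = F2 * x) (h1 : F1 * iv = 1) (h2 : F2 * iv = c) :
    x' = c * x := by
  calc x' = (F1 * iv) * x' := by rw [h1, one_mul]
    _ = iv * (F1 * x') := by ring
    _ = iv * (F2 * x) := by rw [h]
    _ = (F2 * iv) * x := by ring
    _ = c * x := by rw [h2]

lemma cancel2 (e : ℕ) (x y : ZMod 9) (h : 2 ^ e * x = 2 ^ e * y) : x = y := by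
  have h1 : (5 : ZMod 9) ^ e * 2 ^ e = 1 := by
    rw [← mul_pow, show (5 * 2 : ZMod 9) = 1 by decide, one_pow]
  calc x = (5 ^ e * 2 ^ e) * x := by rw [h1, one_mul]
    _ = 5 ^ e * (2 ^ e * x) := by ring
    _ = 5 ^ e * (2 ^ e * y) := by rw [h]
    _ = (5 ^ e * 2 ^ e) * y := by ring
    _ = y := by rw [h1, one_mul]


/-- case (0,0) for `gz` -/
lemma g00 (i j : ℕ) : ((gz (3 * i) (3 * j) : ℕ) : ZMod 9) = ((gz i j : ℕ) : ZMod 9) := by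
  have hM' := gz_master (3 * i) (3 * j)
  have hM := gz_master i j
  rw [show 3 * i + 3 * j = 3 * (i + j) by ring, show 3 * i + 2 * (3 * j) = 3 * (i + 2 * j) by ring,
    show 2 * (3 * j) = 3 * (2 * j) by ring, show 2 * (3 * i) = 3 * (2 * i) by ring,
    fac3, fac3, fac3, fac3, fac3, fac3] at hM'
  have key : (P (i + j) : ℤ) * (P j : ℤ) ^ 3 * (P i : ℤ) ^ 2 * (gz (3 * i) (3 * j) : ℤ)
      = (P (i + 2 * j) : ℤ) * (P (2 * j) : ℤ) * (P (2 * i) : ℤ) * (gz i j : ℤ) := by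
    have hA : (3 : ℤ) ^ (3 * i + 4 * j) * (((i + j).factorial : ℤ) * (j.factorial : ℤ) ^ 3 * (i.factorial : ℤ) ^ 2) ≠ 0 := by
      have := fpos (i + j)
      have := fpos j
      have := fpos i
      positivity
    apply mul_left_cancel₀ hA
    linear_combination hM' - ((P (i + 2 * j) : ℤ) * (P (2 * j) : ℤ) * (P (2 * i) : ℤ)) * 3 ^ (3 * i + 4 * j) * hM
  have k9 := congrArg (Int.cast (R := ZMod 9)) key
  push_cast at k9
  simp only [P9] at k9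
  apply cancel2 (3 * i + 4 * j)
  linear_combination k9

/-- case (1,0) for `gz` -/
lemma g10 (i j : ℕ) : ((gz (3 * i + 1) (3 * j) : ℕ) : ZMod 9)
    = (2 * (1 + 3 * ((i : ZMod 9) + (j : ZMod 9)))) * ((gz i j : ℕ) : ZMod 9) := by
  have hM' := gz_master (3 * i + 1) (3 * j)
  have hM := gz_master i j
  rw [show 3 * i + 1 + 3 * j = 3 * (i + j) + 1 by ring, show 3 * i + 1 + 2 * (3 * j) = 3 * (i + 2 * j) + 1 by ring,
    show 2 * (3 * j) = 3 * (2 * j) by ring, show 2 * (3 * i + 1) = 6 * i + 2 by ring,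
    fac3_1 (i + j), fac3 j, fac3_1 i, fac3_1 (i + 2 * j), fac3 (2 * j), fac6_2] at hM'
  push_cast at hM'
  have key : (P (i + j) : ℤ) * (P j : ℤ) ^ 3 * (P i : ℤ) ^ 2 * (((3 * ((i : ℤ) + j) + 1) * (3 * i + 1) ^ 2) * (gz (3 * i + 1) (3 * j) : ℤ))
      = (P (i + 2 * j) : ℤ) * (P (2 * j) : ℤ) * (P (2 * i) : ℤ) * (((3 * ((i : ℤ) + 2 * j) + 1) * (6 * i + 2) * (6 * i + 1)) * (gz i j : ℤ)) := by
    have hA : (3 : ℤ) ^ (3 * i + 4 * j) * (((i + j).factorial : ℤ) * (j.factorial : ℤ) ^ 3 * (i.factorial : ℤ) ^ 2) ≠ 0 := by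
      have := fpos (i + j)
      have := fpos j
      have := fpos i
      positivity
    apply mul_left_cancel₀ hA
    linear_combination hM' - (((P (i + 2 * j) : ℤ) * (P (2 * j) : ℤ) * (P (2 * i) : ℤ)) * 3 ^ (3 * i + 4 * j) * ((3 * ((i : ℤ) + 2 * j) + 1) * (6 * i + 2) * (6 * i + 1))) * hM
  have k9 := congrArg (Int.cast (R := ZMod 9)) key
  push_cast at k9
  simp only [P9] at k9
  have k10 : ((3 * ((i : ZMod 9) + (j : ZMod 9)) + 1) * (3 * (i : ZMod 9) + 1) ^ 2) * ((gz (3 * i + 1) (3 * j) : ℕ) : ZMod 9)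
      = ((3 * ((i : ZMod 9) + 2 * (j : ZMod 9)) + 1) * (6 * (i : ZMod 9) + 2) * (6 * (i : ZMod 9) + 1)) * ((gz i j : ℕ) : ZMod 9) := by
    apply cancel2 (3 * i + 4 * j)
    linear_combination k9
  have e1 : ∀ I J : ZMod 9, ((3 * (I + J) + 1) * (3 * I + 1) ^ 2) * ((1 + 6 * (I + J)) * (1 + 3 * I)) = 1 := by decide
  have e2 : ∀ I J : ZMod 9, ((3 * (I + 2 * J) + 1) * (6 * I + 2) * (6 * I + 1)) * ((1 + 6 * (I + J)) * (1 + 3 * I))
      = (2 * (1 + 3 * (I + J))) := by decide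
  exact solve9 _ _ _ _ _ _ k10 (e1 (i : ZMod 9) (j : ZMod 9)) (e2 (i : ZMod 9) (j : ZMod 9))

/-- case (0,1) for `gz` -/
lemma g01 (i j : ℕ) : ((gz (3 * i) (3 * j + 1) : ℕ) : ZMod 9)
    = (4 * (1 + 6 * ((i : ZMod 9) + (j : ZMod 9)))) * ((gz i j : ℕ) : ZMod 9) := by
  have hM' := gz_master (3 * i) (3 * j + 1)
  have hM := gz_master i j
  rw [show 3 * i + (3 * j + 1) = 3 * (i + j) + 1 by ring, show 3 * i + 2 * (3 * j + 1) = 3 * (i + 2 * j) + 2 by ring,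
    show 2 * (3 * j + 1) = 6 * j + 2 by ring, show 2 * (3 * i) = 3 * (2 * i) by ring,
    fac3_1 (i + j), fac3_1 j, fac3 i, fac3_2 (i + 2 * j), fac6_2, fac3 (2 * i)] at hM'
  push_cast at hM'
  have key : (P (i + j) : ℤ) * (P j : ℤ) ^ 3 * (P i : ℤ) ^ 2 * (((3 * ((i : ℤ) + j) + 1) * (3 * j + 1) ^ 3) * (gz (3 * i) (3 * j + 1) : ℤ))
      = (P (i + 2 * j) : ℤ) * (P (2 * j) : ℤ) * (P (2 * i) : ℤ) * (((3 * ((i : ℤ) + 2 * j) + 2) * (3 * ((i : ℤ) + 2 * j) + 1) * (6 * j + 2) * (6 * j + 1)) * (gz i j : ℤ)) := by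
    have hA : (3 : ℤ) ^ (3 * i + 4 * j) * (((i + j).factorial : ℤ) * (j.factorial : ℤ) ^ 3 * (i.factorial : ℤ) ^ 2) ≠ 0 := by
      have := fpos (i + j)
      have := fpos j
      have := fpos i
      positivity
    apply mul_left_cancel₀ hA
    linear_combination hM' - (((P (i + 2 * j) : ℤ) * (P (2 * j) : ℤ) * (P (2 * i) : ℤ)) * 3 ^ (3 * i + 4 * j) * ((3 * ((i : ℤ) + 2 * j) + 2) * (3 * ((i : ℤ) + 2 * j) + 1) * (6 * j + 2) * (6 * j + 1))) * hM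
  have k9 := congrArg (Int.cast (R := ZMod 9)) key
  push_cast at k9
  simp only [P9] at k9
  have k10 : ((3 * ((i : ZMod 9) + (j : ZMod 9)) + 1) * (3 * (j : ZMod 9) + 1) ^ 3) * ((gz (3 * i) (3 * j + 1) : ℕ) : ZMod 9)
      = ((3 * ((i : ZMod 9) + 2 * (j : ZMod 9)) + 2) * (3 * ((i : ZMod 9) + 2 * (j : ZMod 9)) + 1) * (6 * (j : ZMod 9) + 2) * (6 * (j : ZMod 9) + 1)) * ((gz i j : ℕ) : ZMod 9) := by
    apply cancel2 (3 * i + 4 * j)
    linear_combination k9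
  have e1 : ∀ I J : ZMod 9, ((3 * (I + J) + 1) * (3 * J + 1) ^ 3) * ((1 + 6 * (I + J))) = 1 := by decide
  have e2 : ∀ I J : ZMod 9, ((3 * (I + 2 * J) + 2) * (3 * (I + 2 * J) + 1) * (6 * J + 2) * (6 * J + 1)) * ((1 + 6 * (I + J)))
      = (4 * (1 + 6 * (I + J))) := by decide
  exact solve9 _ _ _ _ _ _ k10 (e1 (i : ZMod 9) (j : ZMod 9)) (e2 (i : ZMod 9) (j : ZMod 9))

/-- case (2,1) for `gz` -/
lemma g21 (i j : ℕ) : ((gz (3 * i + 2) (3 * j + 1) : ℕ) : ZMod 9)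
    = (3 * (2 * (i : ZMod 9) + 1)) * ((gp i j : ℕ) : ZMod 9) := by
  have hM' := gz_master (3 * i + 2) (3 * j + 1)
  have hM := gp_master i j
  rw [show 3 * i + 2 + (3 * j + 1) = 3 * (i + j + 1) by ring, show 3 * i + 2 + 2 * (3 * j + 1) = 3 * (i + 2 * j + 1) + 1 by ring,
    show 2 * (3 * j + 1) = 6 * j + 2 by ring, show 2 * (3 * i + 2) = 6 * i + 4 by ring,
    fac3 (i + j + 1), fac3_1 j, fac3_2 i, fac3_1 (i + 2 * j + 1), fac6_2, fac6_4] at hM'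
  push_cast at hM'
  have key : (P (i + j + 1) : ℤ) * (P j : ℤ) ^ 3 * (P i : ℤ) ^ 2 * (((3 * (j : ℤ) + 1) ^ 3 * ((3 * i + 2) * (3 * i + 1)) ^ 2) * (gz (3 * i + 2) (3 * j + 1) : ℤ))
      = (P (i + 2 * j + 1) : ℤ) * (P (2 * j) : ℤ) * (P (2 * i) : ℤ) * ((3 * (2 * (i : ℤ) + 1) * (3 * ((i : ℤ) + 2 * j + 1) + 1) * (6 * j + 2) * (6 * j + 1) * (6 * i + 4) * (6 * i + 2) * (6 * i + 1)) * (gp i j : ℤ)) := by
    have hA : (3 : ℤ) ^ (3 * i + 4 * j + 1) * (((i + j + 1).factorial : ℤ) * (j.factorial : ℤ) ^ 3 * (i.factorial : ℤ) ^ 2) ≠ 0 := by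
      have := fpos (i + j + 1)
      have := fpos j
      have := fpos i
      positivity
    apply mul_left_cancel₀ hA
    linear_combination hM' - (((P (i + 2 * j + 1) : ℤ) * (P (2 * j) : ℤ) * (P (2 * i) : ℤ)) * 3 ^ (3 * i + 4 * j + 1) * (3 * (2 * (i : ℤ) + 1) * (3 * ((i : ℤ) + 2 * j + 1) + 1) * (6 * j + 2) * (6 * j + 1) * (6 * i + 4) * (6 * i + 2) * (6 * i + 1))) * hM
  have k9 := congrArg (Int.cast (R := ZMod 9)) key
  push_cast at k9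
  simp only [P9] at k9
  have k10 : ((3 * (j : ZMod 9) + 1) ^ 3 * ((3 * (i : ZMod 9) + 2) * (3 * (i : ZMod 9) + 1)) ^ 2) * ((gz (3 * i + 2) (3 * j + 1) : ℕ) : ZMod 9)
      = (3 * (2 * (i : ZMod 9) + 1) * (3 * ((i : ZMod 9) + 2 * (j : ZMod 9) + 1) + 1) * (6 * (j : ZMod 9) + 2) * (6 * (j : ZMod 9) + 1) * (6 * (i : ZMod 9) + 4) * (6 * (i : ZMod 9) + 2) * (6 * (i : ZMod 9) + 1)) * ((gp i j : ℕ) : ZMod 9) := by
    apply cancel2 (3 * i + 4 * j + 1)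
    linear_combination k9
  have e1 : ∀ I J : ZMod 9, ((3 * J + 1) ^ 3 * ((3 * I + 2) * (3 * I + 1)) ^ 2) * (7) = 1 := by decide
  have e2 : ∀ I J : ZMod 9, (3 * (2 * I + 1) * (3 * (I + 2 * J + 1) + 1) * (6 * J + 2) * (6 * J + 1) * (6 * I + 4) * (6 * I + 2) * (6 * I + 1)) * (7)
      = (3 * (2 * I + 1)) := by decide
  exact solve9 _ _ _ _ _ _ k10 (e1 (i : ZMod 9) (j : ZMod 9)) (e2 (i : ZMod 9) (j : ZMod 9))

/-- case (1,2) for `gz` -/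
lemma g12 (i j : ℕ) : ((gz (3 * i + 1) (3 * j + 2) : ℕ) : ZMod 9)
    = (3 * (2 * (j : ZMod 9) + 1)) * ((gp i j : ℕ) : ZMod 9) := by
  have hM' := gz_master (3 * i + 1) (3 * j + 2)
  have hM := gp_master i j
  rw [show 3 * i + 1 + (3 * j + 2) = 3 * (i + j + 1) by ring, show 3 * i + 1 + 2 * (3 * j + 2) = 3 * (i + 2 * j + 1) + 2 by ring,
    show 2 * (3 * j + 2) = 6 * j + 4 by ring, show 2 * (3 * i + 1) = 6 * i + 2 by ring,
    fac3 (i + j + 1), fac3_2 j, fac3_1 i, fac3_2 (i + 2 * j + 1), fac6_4, fac6_2] at hM'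
  push_cast at hM'
  have key : (P (i + j + 1) : ℤ) * (P j : ℤ) ^ 3 * (P i : ℤ) ^ 2 * ((((3 * (j : ℤ) + 2) * (3 * j + 1)) ^ 3 * (3 * i + 1) ^ 2) * (gz (3 * i + 1) (3 * j + 2) : ℤ))
      = (P (i + 2 * j + 1) : ℤ) * (P (2 * j) : ℤ) * (P (2 * i) : ℤ) * ((3 * (2 * (j : ℤ) + 1) * (3 * ((i : ℤ) + 2 * j + 1) + 2) * (3 * ((i : ℤ) + 2 * j + 1) + 1) * (6 * j + 4) * (6 * j + 2) * (6 * j + 1) * (6 * i + 2) * (6 * i + 1)) * (gp i j : ℤ)) := by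
    have hA : (3 : ℤ) ^ (3 * i + 4 * j + 1) * (((i + j + 1).factorial : ℤ) * (j.factorial : ℤ) ^ 3 * (i.factorial : ℤ) ^ 2) ≠ 0 := by
      have := fpos (i + j + 1)
      have := fpos j
      have := fpos i
      positivity
    apply mul_left_cancel₀ hA
    linear_combination hM' - (((P (i + 2 * j + 1) : ℤ) * (P (2 * j) : ℤ) * (P (2 * i) : ℤ)) * 3 ^ (3 * i + 4 * j + 1) * (3 * (2 * (j : ℤ) + 1) * (3 * ((i : ℤ) + 2 * j + 1) + 2) * (3 * ((i : ℤ) + 2 * j + 1) + 1) * (6 * j + 4) * (6 * j + 2) * (6 * j + 1) * (6 * i + 2) * (6 * i + 1))) * hM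
  have k9 := congrArg (Int.cast (R := ZMod 9)) key
  push_cast at k9
  simp only [P9] at k9
  have k10 : (((3 * (j : ZMod 9) + 2) * (3 * (j : ZMod 9) + 1)) ^ 3 * (3 * (i : ZMod 9) + 1) ^ 2) * ((gz (3 * i + 1) (3 * j + 2) : ℕ) : ZMod 9)
      = (3 * (2 * (j : ZMod 9) + 1) * (3 * ((i : ZMod 9) + 2 * (j : ZMod 9) + 1) + 2) * (3 * ((i : ZMod 9) + 2 * (j : ZMod 9) + 1) + 1) * (6 * (j : ZMod 9) + 4) * (6 * (j : ZMod 9) + 2) * (6 * (j : ZMod 9) + 1) * (6 * (i : ZMod 9) + 2) * (6 * (i : ZMod 9) + 1)) * ((gp i j : ℕ) : ZMod 9) := by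
    apply cancel2 (3 * i + 4 * j + 1)
    linear_combination k9
  have e1 : ∀ I J : ZMod 9, (((3 * J + 2) * (3 * J + 1)) ^ 3 * (3 * I + 1) ^ 2) * (8 * (1 + 3 * I)) = 1 := by decide
  have e2 : ∀ I J : ZMod 9, (3 * (2 * J + 1) * (3 * (I + 2 * J + 1) + 2) * (3 * (I + 2 * J + 1) + 1) * (6 * J + 4) * (6 * J + 2) * (6 * J + 1) * (6 * I + 2) * (6 * I + 1)) * (8 * (1 + 3 * I))
      = (3 * (2 * J + 1)) := by decide
  exact solve9 _ _ _ _ _ _ k10 (e1 (i : ZMod 9) (j : ZMod 9)) (e2 (i : ZMod 9) (j : ZMod 9))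

/-- case (1,1) for `Tz` -/
lemma T11 (i j : ℕ) : ((Tz (3 * i + 1) (3 * j + 1) : ℤ) : ZMod 9)
    = (4 * ((i : ZMod 9) + 2 * (j : ZMod 9) + 1) * (1 + 3 * (i : ZMod 9))) * ((Tz i j : ℤ) : ZMod 9) := by
  have hM' := Tz_master (3 * i + 1) (3 * j + 1)
  have hM := Tz_master i j
  rw [show 3 * i + 1 + (3 * j + 1) + 1 = 3 * (i + j + 1) by ring, show 3 * i + 1 + 2 * (3 * j + 1) = 3 * (i + 2 * j + 1) by ring,
    show 2 * (3 * j + 1) = 6 * j + 2 by ring, show 2 * (3 * i + 1) = 6 * i + 2 by ring,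
    fac3 (i + j + 1), fac3_1 j, fac3_1 i, fac3 (i + 2 * j + 1), fac6_2, fac6_2, Nat.factorial_succ (i + 2 * j)] at hM'
  push_cast at hM'
  have key : (P (i + j + 1) : ℤ) * (P j : ℤ) ^ 3 * (P i : ℤ) ^ 2 * (((3 * (j : ℤ) + 1) ^ 3 * (3 * i + 1) ^ 2) * Tz (3 * i + 1) (3 * j + 1))
      = (P (i + 2 * j + 1) : ℤ) * (P (2 * j) : ℤ) * (P (2 * i) : ℤ) * ((((i : ℤ) + 2 * j + 1) * (6 * j + 2) * (6 * j + 1) * (6 * i + 2) * (6 * i + 1)) * Tz i j) := by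
    have hA : (3 : ℤ) ^ (3 * i + 4 * j + 1) * (((i + j + 1).factorial : ℤ) * (j.factorial : ℤ) ^ 3 * (i.factorial : ℤ) ^ 2) ≠ 0 := by
      have := fpos (i + j + 1)
      have := fpos j
      have := fpos i
      positivity
    apply mul_left_cancel₀ hA
    linear_combination hM' - (((P (i + 2 * j + 1) : ℤ) * (P (2 * j) : ℤ) * (P (2 * i) : ℤ)) * 3 ^ (3 * i + 4 * j + 1) * (((i : ℤ) + 2 * j + 1) * (6 * j + 2) * (6 * j + 1) * (6 * i + 2) * (6 * i + 1))) * hM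
  have k9 := congrArg (Int.cast (R := ZMod 9)) key
  push_cast at k9
  simp only [P9] at k9
  have k10 : ((3 * (j : ZMod 9) + 1) ^ 3 * (3 * (i : ZMod 9) + 1) ^ 2) * ((Tz (3 * i + 1) (3 * j + 1) : ℤ) : ZMod 9)
      = (((i : ZMod 9) + 2 * (j : ZMod 9) + 1) * (6 * (j : ZMod 9) + 2) * (6 * (j : ZMod 9) + 1) * (6 * (i : ZMod 9) + 2) * (6 * (i : ZMod 9) + 1)) * ((Tz i j : ℤ) : ZMod 9) := by
    apply cancel2 (3 * i + 4 * j + 1)
    linear_combination k9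
  have e1 : ∀ I J : ZMod 9, ((3 * J + 1) ^ 3 * (3 * I + 1) ^ 2) * ((1 + 3 * I)) = 1 := by decide
  have e2 : ∀ I J : ZMod 9, ((I + 2 * J + 1) * (6 * J + 2) * (6 * J + 1) * (6 * I + 2) * (6 * I + 1)) * ((1 + 3 * I))
      = (4 * (I + 2 * J + 1) * (1 + 3 * I)) := by decide
  exact solve9 _ _ _ _ _ _ k10 (e1 (i : ZMod 9) (j : ZMod 9)) (e2 (i : ZMod 9) (j : ZMod 9))

/-- case (2,0) for `Tz` -/
lemma T20 (i j : ℕ) : ((Tz (3 * i + 2) (3 * j) : ℤ) : ZMod 9)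
    = (2 * (2 * (i : ZMod 9) + 1) * (1 + 6 * (i : ZMod 9))) * ((Tz i j : ℤ) : ZMod 9) := by
  have hM' := Tz_master (3 * i + 2) (3 * j)
  have hM := Tz_master i j
  rw [show 3 * i + 2 + 3 * j + 1 = 3 * (i + j + 1) by ring, show 3 * i + 2 + 2 * (3 * j) = 3 * (i + 2 * j) + 2 by ring,
    show 2 * (3 * j) = 3 * (2 * j) by ring, show 2 * (3 * i + 2) = 6 * i + 4 by ring,
    fac3 (i + j + 1), fac3 j, fac3_2 i, fac3_2 (i + 2 * j), fac3 (2 * j), fac6_4] at hM'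
  push_cast at hM'
  have key : (P (i + j + 1) : ℤ) * (P j : ℤ) ^ 3 * (P i : ℤ) ^ 2 * ((((3 * (i : ℤ) + 2) * (3 * i + 1)) ^ 2) * Tz (3 * i + 2) (3 * j))
      = (P (i + 2 * j) : ℤ) * (P (2 * j) : ℤ) * (P (2 * i) : ℤ) * (((3 * ((i : ℤ) + 2 * j) + 2) * (3 * ((i : ℤ) + 2 * j) + 1) * (6 * i + 4) * (2 * i + 1) * (6 * i + 2) * (6 * i + 1)) * Tz i j) := by
    have hA : (3 : ℤ) ^ (3 * i + 4 * j + 1) * (((i + j + 1).factorial : ℤ) * (j.factorial : ℤ) ^ 3 * (i.factorial : ℤ) ^ 2) ≠ 0 := by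
      have := fpos (i + j + 1)
      have := fpos j
      have := fpos i
      positivity
    apply mul_left_cancel₀ hA
    linear_combination hM' - (((P (i + 2 * j) : ℤ) * (P (2 * j) : ℤ) * (P (2 * i) : ℤ)) * 3 ^ (3 * i + 4 * j + 1) * ((3 * ((i : ℤ) + 2 * j) + 2) * (3 * ((i : ℤ) + 2 * j) + 1) * (6 * i + 4) * (2 * i + 1) * (6 * i + 2) * (6 * i + 1))) * hM
  have k9 := congrArg (Int.cast (R := ZMod 9)) key
  push_cast at k9
  simp only [P9] at k9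
  have k10 : (2 * ((3 * (i : ZMod 9) + 2) * (3 * (i : ZMod 9) + 1)) ^ 2) * ((Tz (3 * i + 2) (3 * j) : ℤ) : ZMod 9)
      = ((3 * ((i : ZMod 9) + 2 * (j : ZMod 9)) + 2) * (3 * ((i : ZMod 9) + 2 * (j : ZMod 9)) + 1) * (6 * (i : ZMod 9) + 4) * (2 * (i : ZMod 9) + 1) * (6 * (i : ZMod 9) + 2) * (6 * (i : ZMod 9) + 1)) * ((Tz i j : ℤ) : ZMod 9) := by
    apply cancel2 (3 * i + 4 * j)
    linear_combination k9
  have e1 : ∀ I J : ZMod 9, (2 * ((3 * I + 2) * (3 * I + 1)) ^ 2) * (8) = 1 := by decide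
  have e2 : ∀ I J : ZMod 9, ((3 * (I + 2 * J) + 2) * (3 * (I + 2 * J) + 1) * (6 * I + 4) * (2 * I + 1) * (6 * I + 2) * (6 * I + 1)) * (8)
      = (2 * (2 * I + 1) * (1 + 6 * I)) := by decide
  exact solve9 _ _ _ _ _ _ k10 (e1 (i : ZMod 9) (j : ZMod 9)) (e2 (i : ZMod 9) (j : ZMod 9))

/-- case (0,2) for `Tz` -/
lemma T02 (i j : ℕ) : ((Tz (3 * i) (3 * j + 2) : ℤ) : ZMod 9)
    = (3 * (2 * (j : ZMod 9) + 1) * ((i : ZMod 9) + 2 * (j : ZMod 9) + 1)) * ((Tz i j : ℤ) : ZMod 9) := by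
  have hM' := Tz_master (3 * i) (3 * j + 2)
  have hM := Tz_master i j
  rw [show 3 * i + (3 * j + 2) + 1 = 3 * (i + j + 1) by ring, show 3 * i + 2 * (3 * j + 2) = 3 * (i + 2 * j + 1) + 1 by ring,
    show 2 * (3 * j + 2) = 6 * j + 4 by ring, show 2 * (3 * i) = 3 * (2 * i) by ring,
    fac3 (i + j + 1), fac3_2 j, fac3 i, fac3_1 (i + 2 * j + 1), fac6_4, fac3 (2 * i), Nat.factorial_succ (i + 2 * j)] at hM'
  push_cast at hM'
  have key : (P (i + j + 1) : ℤ) * (P j : ℤ) ^ 3 * (P i : ℤ) ^ 2 * ((((3 * (j : ℤ) + 2) * (3 * j + 1)) ^ 3) * Tz (3 * i) (3 * j + 2))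
      = (P (i + 2 * j + 1) : ℤ) * (P (2 * j) : ℤ) * (P (2 * i) : ℤ) * ((3 * (2 * (j : ℤ) + 1) * ((i : ℤ) + 2 * j + 1) * (3 * ((i : ℤ) + 2 * j + 1) + 1) * (6 * j + 4) * (6 * j + 2) * (6 * j + 1)) * Tz i j) := by
    have hA : (3 : ℤ) ^ (3 * i + 4 * j + 1) * (((i + j + 1).factorial : ℤ) * (j.factorial : ℤ) ^ 3 * (i.factorial : ℤ) ^ 2) ≠ 0 := by
      have := fpos (i + j + 1)
      have := fpos j
      have := fpos i
      positivity
    apply mul_left_cancel₀ hA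
    linear_combination hM' - (((P (i + 2 * j + 1) : ℤ) * (P (2 * j) : ℤ) * (P (2 * i) : ℤ)) * 3 ^ (3 * i + 4 * j + 1) * (3 * (2 * (j : ℤ) + 1) * ((i : ℤ) + 2 * j + 1) * (3 * ((i : ℤ) + 2 * j + 1) + 1) * (6 * j + 4) * (6 * j + 2) * (6 * j + 1))) * hM
  have k9 := congrArg (Int.cast (R := ZMod 9)) key
  push_cast at k9
  simp only [P9] at k9
  have k10 : (((3 * (j : ZMod 9) + 2) * (3 * (j : ZMod 9) + 1)) ^ 3) * ((Tz (3 * i) (3 * j + 2) : ℤ) : ZMod 9)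
      = (3 * (2 * (j : ZMod 9) + 1) * ((i : ZMod 9) + 2 * (j : ZMod 9) + 1) * (3 * ((i : ZMod 9) + 2 * (j : ZMod 9) + 1) + 1) * (6 * (j : ZMod 9) + 4) * (6 * (j : ZMod 9) + 2) * (6 * (j : ZMod 9) + 1)) * ((Tz i j : ℤ) : ZMod 9) := by
    apply cancel2 (3 * i + 4 * j + 1)
    linear_combination k9
  have e1 : ∀ I J : ZMod 9, (((3 * J + 2) * (3 * J + 1)) ^ 3) * (8) = 1 := by decide
  have e2 : ∀ I J : ZMod 9, (3 * (2 * J + 1) * (I + 2 * J + 1) * (3 * (I + 2 * J + 1) + 1) * (6 * J + 4) * (6 * J + 2) * (6 * J + 1)) * (8)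
      = (3 * (2 * J + 1) * (I + 2 * J + 1)) := by decide
  exact solve9 _ _ _ _ _ _ k10 (e1 (i : ZMod 9) (j : ZMod 9)) (e2 (i : ZMod 9) (j : ZMod 9))

end Pool.Agent.helper78.DC
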