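import Pool.Agent.helper78.DC.Main

set_option autoImplicit false

namespace Pool.Agent.helper78.DC

open Finset

/-- odd double factorials `u m = (2m-1)!!` -/
def u : ℕ → ℕ
  | 0 => 1
  | (m + 1) => (2 * m + 1) * u m

lemma u_odd (m : ℕ) : Odd (u m) := by
  induction m with
  | zero => exact odd_one
  | succ m ih =>
    unfold u
    exact Odd.mul ⟨m, rfl⟩ ih

lemma u_spec (m : ℕ) : (2 * m).factorial = 2 ^ m * m.factorial * u m := by
  induction m with
  | zero => simp [u]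
  | succ m ih =>
    rw [show 2 * (m + 1) = 2 * m + 1 + 1 by ring, Nat.factorial_succ, Nat.factorial_succ, ih,
      Nat.factorial_succ, u]
    ring

lemma cb_u (m : ℕ) : (m.factorial : ℚ) * (Nat.centralBinom m : ℚ) = 2 ^ m * (u m : ℚ) := by
  rw [cb_cast, u_spec]
  push_cast
  have : (m.factorial : ℚ) ≠ 0 := by positivity
  field_simp

/-- `O b m` with `m! G b m = 2^m O b m`. -/
def O (b m : ℕ) : ℕ :=
  ∑ j ∈ range (m + 1), m.choose j * (m + j).choose j * (u j * u (m - j) * b ^ (m - j))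

lemma O_spec (b m : ℕ) : (m.factorial : ℚ) * (G b m : ℚ) = 2 ^ m * (O b m : ℚ) := by
  unfold G O
  push_cast
  rw [Finset.mul_sum, Finset.mul_sum]
  apply Finset.sum_congr rfl
  intro j hj
  have hj' : j ≤ m := by
    have := Finset.mem_range.mp hj
    omega
  have h1 := cb_u j
  have h2 := cb_u (m - j)
  have h3 : (m.factorial : ℚ) = (m.choose j : ℚ) * (j.factorial : ℚ) * ((m - j).factorial : ℚ) := by
    have := Nat.choose_mul_factorial_mul_factorial hj'
    exact_mod_cast this.symm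
  have h4 : (2 : ℚ) ^ m = 2 ^ j * 2 ^ (m - j) := by
    rw [← pow_add]
    congr 1
    omega
  rw [h3, h4]
  calc (m.choose j : ℚ) * (j.factorial : ℚ) * ((m - j).factorial : ℚ) *
        (((m + j).choose j : ℚ) * (Nat.centralBinom j : ℚ) * (Nat.centralBinom (m - j) : ℚ) * (b : ℚ) ^ (m - j))
      = (m.choose j : ℚ) * ((m + j).choose j : ℚ) * (b : ℚ) ^ (m - j) *
        ((j.factorial : ℚ) * (Nat.centralBinom j : ℚ)) * (((m - j).factorial : ℚ) * (Nat.centralBinom (m - j) : ℚ)) := by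
          ring
    _ = _ := by rw [h1, h2]; ring

/-- The integer weights. -/
def R (n m : ℕ) : ℕ :=
  u (m + 1) * (2 * m + 1 + (n - 1 - m)).choose (n - 1 - m) * n.descFactorial (n - 1 - m) *
    (n - 1).descFactorial (n - 1 - m)

lemma R_spec (n m : ℕ) (h : m < n) :
    (n.factorial : ℚ) ^ 2 * ((n - 1).choose m : ℚ) * ((n + m).choose m : ℚ)
      = 2 ^ m * ((m + 1).factorial : ℚ) * (R n m : ℚ) := by
  obtain ⟨d, rfl⟩ : ∃ d, n = m + 1 + d := ⟨n - (m + 1), by omega⟩
  unfold R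
  rw [show m + 1 + d - 1 - m = d by omega, show m + 1 + d - 1 = m + d by omega]
  have e1 : ((m + d).choose m : ℚ) = (m + d).factorial / (m.factorial * d.factorial) := by
    rw [Nat.cast_choose ℚ (by omega : m ≤ m + d), show m + d - m = d by omega]
  have e2 : ((m + 1 + d + m).choose m : ℚ) = (2 * m + 1 + d).factorial / (m.factorial * (m + 1 + d).factorial) := by
    rw [Nat.cast_choose ℚ (by omega : m ≤ m + 1 + d + m), show m + 1 + d + m - m = m + 1 + d by omega,
      show m + 1 + d + m = 2 * m + 1 + d by omega]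
  have e3 : ((2 * m + 1 + d).choose d : ℚ) = (2 * m + 1 + d).factorial / (d.factorial * (2 * m + 1).factorial) := by
    rw [Nat.cast_choose ℚ (by omega : d ≤ 2 * m + 1 + d), show 2 * m + 1 + d - d = 2 * m + 1 by omega]
  have e4 : ((m + 1).factorial : ℚ) * ((m + 1 + d).descFactorial d : ℚ) = (m + 1 + d).factorial := by
    have := Nat.factorial_mul_descFactorial (by omega : d ≤ m + 1 + d)
    rw [show m + 1 + d - d = m + 1 by omega] at this
    exact_mod_cast this
  have e5 : (m.factorial : ℚ) * ((m + d).descFactorial d : ℚ) = (m + d).factorial := by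
    have := Nat.factorial_mul_descFactorial (by omega : d ≤ m + d)
    rw [show m + d - d = m by omega] at this
    exact_mod_cast this
  have e6 : ((2 * m + 1).factorial : ℚ) = 2 ^ m * (m.factorial : ℚ) * (u (m + 1) : ℚ) := by
    rw [Nat.factorial_succ, u_spec, u]
    push_cast
    ring
  push_cast
  rw [e1, e2, e3, ← e4, ← e5, e6]
  have n1 : (m.factorial : ℚ) ≠ 0 := by positivity
  have n2 : (d.factorial : ℚ) ≠ 0 := by positivity
  have n3 : ((m + 1).factorial : ℚ) ≠ 0 := by positivity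
  have n4 : (u (m + 1) : ℚ) ≠ 0 := by
    have := (u_odd (m + 1)).pos
    positivity
  have n5 : ((m + 1 + d).descFactorial d : ℚ) ≠ 0 := by
    have : (m + 1 + d).descFactorial d ≠ 0 := by
      rw [Ne, Nat.descFactorial_eq_zero_iff_lt]
      omega
    exact_mod_cast this
  field_simp

/-- The integer `(n!)^2 s(n)`. -/
def W (n : ℕ) : ℤ := ∑ m ∈ range n, (-1) ^ m * (O 1 m : ℤ) * (R n m : ℤ)

lemma s_W (n : ℕ) (hn : 0 < n) : ((n.factorial ^ 2 : ℕ) : ℚ) * s n = (W n : ℚ) := by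
  rw [s_formula n hn, Finset.mul_sum]
  unfold W
  push_cast
  apply Finset.sum_congr rfl
  intro m hm
  have hm' : m < n := Finset.mem_range.mp hm
  have h1 := R_spec n m hm'
  have h2 := O_spec 1 m
  have h3 : ((m : ℚ) + 1) * (B 1 m : ℚ) = (G 1 m : ℚ) := by
    have := B_spec 1 m
    exact_mod_cast this
  have h4 : ((m + 1).factorial : ℚ) * (B 1 m : ℚ) = 2 ^ m * (O 1 m : ℚ) := by
    rw [← h2, ← h3, Nat.factorial_succ]
    push_cast
    ring
  have h5 : (4 : ℚ) ^ m = 2 ^ m * 2 ^ m := by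
    rw [← mul_pow]
    norm_num
  calc (n.factorial : ℚ) ^ 2 * ((-1) ^ m * ((n - 1).choose m : ℚ) * ((n + m).choose m : ℚ) * ((B 1 m : ℚ) / 4 ^ m))
      = ((n.factorial : ℚ) ^ 2 * ((n - 1).choose m : ℚ) * ((n + m).choose m : ℚ)) * ((-1) ^ m * ((B 1 m : ℚ) / 4 ^ m)) := by ring
    _ = (-1) ^ m * (((m + 1).factorial : ℚ) * (B 1 m : ℚ)) * (R n m : ℚ) * (2 ^ m / 4 ^ m) := by rw [h1]; ring
    _ = _ := by
      rw [h4, h5]
      have : (2 : ℚ) ^ m ≠ 0 := by positivity
      field_simp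

lemma four_dvd_R (n m : ℕ) (h : m + 1 < n) : 4 ∣ R n m := by
  obtain ⟨d, rfl⟩ : ∃ d, n = m + 1 + d := ⟨n - (m + 1), by omega⟩
  unfold R
  rw [show m + 1 + d - 1 - m = d by omega, show m + 1 + d - 1 = m + d by omega]
  by_cases hd : d = 1
  · subst hd
    have h1 : (m + 1 + 1).descFactorial 1 = m + 2 := by simp
    have h2 : (m + 1).descFactorial 1 = m + 1 := by simp
    have h3 : (2 * m + 1 + 1).choose 1 = 2 * (m + 1) := by
      rw [Nat.choose_one_right]
      ring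
    rw [h1, h2, h3]
    have h4 : 2 ∣ (m + 2) * (m + 1) := by
      have := Nat.even_mul_succ_self (m + 1)
      rw [mul_comm]
      exact this.two_dvd
    obtain ⟨c, hc⟩ := h4
    exact ⟨u (m + 1) * (m + 1) * c, by
      calc u (m + 1) * (2 * (m + 1)) * (m + 2) * (m + 1)
          = u (m + 1) * (2 * (m + 1)) * ((m + 2) * (m + 1)) := by ring
        _ = _ := by rw [hc]; ring⟩
  · have hd2 : 2 ≤ d := by omega
    have h1 : 2 ∣ (m + 1 + d).descFactorial d :=
      (Nat.dvd_factorial (by norm_num) hd2).trans (Nat.factorial_dvd_descFactorial _ _)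
    have h2 : 2 ∣ (m + d).descFactorial d :=
      (Nat.dvd_factorial (by norm_num) hd2).trans (Nat.factorial_dvd_descFactorial _ _)
    have h3 : 2 * 2 ∣ (m + 1 + d).descFactorial d * (m + d).descFactorial d := mul_dvd_mul h1 h2
    obtain ⟨c, hc⟩ := h3
    exact ⟨u (m + 1) * (2 * m + 1 + d).choose d * c, by
      calc u (m + 1) * (2 * m + 1 + d).choose d * (m + 1 + d).descFactorial d * (m + d).descFactorial d
          = u (m + 1) * (2 * m + 1 + d).choose d * ((m + 1 + d).descFactorial d * (m + d).descFactorial d) := by ring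
        _ = _ := by rw [hc]; ring⟩

lemma R_top (n : ℕ) : R (n + 1) n = u (n + 1) := by
  unfold R
  simp

/-- odd times even mod 4 -/
lemma even_mul_odd_mod4 (a w : ℕ) (ha : Even a) (hw : Odd w) : (a * w : ℤ) ≡ a [ZMOD 4] := by
  obtain ⟨x, hx⟩ := ha
  obtain ⟨y, hy⟩ := hw
  subst hx hy
  rw [Int.modEq_iff_dvd]
  exact ⟨-(x * y), by push_cast; ring⟩

lemma choose_even (m j : ℕ) (hj : 0 < j) (hjm : j ≤ m) : Even (m.choose j * (m + j).choose j) := by
  have h : (m + j).choose (2 * j) * Nat.centralBinom j = m.choose j * (m + j).choose j := by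
    have c1 : ((m + j).choose (2 * j) : ℚ) * (Nat.centralBinom j : ℚ)
        = (m.choose j : ℚ) * ((m + j).choose j : ℚ) := by
      rw [cb_cast, Nat.cast_choose ℚ (by omega : 2 * j ≤ m + j), Nat.cast_choose ℚ hjm,
        Nat.cast_choose ℚ (by omega : j ≤ m + j), show m + j - 2 * j = m - j by omega,
        show m + j - j = m by omega]
      have n1 : (m.factorial : ℚ) ≠ 0 := by positivity
      have n2 : (j.factorial : ℚ) ≠ 0 := by positivity
      have n3 : ((2 * j).factorial : ℚ) ≠ 0 := by positivity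
      have n4 : ((m - j).factorial : ℚ) ≠ 0 := by positivity
      field_simp
    exact_mod_cast c1
  rw [← h]
  exact (even_iff_two_dvd.mpr (Nat.two_dvd_centralBinom_of_one_le hj)).mul_left _

lemma delannoy (m : ℕ) :
    ((∑ j ∈ range (m + 1), m.choose j * (m + j).choose j : ℕ) : ℤ) ≡ 1 + 2 * m ^ 2 [ZMOD 4] := by
  have h := sq_sum (R := ℤ) m 1 1
  -- with A = 1, D = 1 : ∑ C(m,j)^2 2^(m-j)
  have h1 : ((∑ j ∈ range (m + 1), m.choose j * (m + j).choose j : ℕ) : ℤ)
      = ∑ j ∈ range (m + 1), (m.choose j : ℤ) ^ 2 * 1 ^ j * (1 + 1) ^ (m - j) := by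
    rw [h]
    push_cast
    apply Finset.sum_congr rfl
    intro j _
    ring
  rw [h1, ← Finset.sum_range_reflect]
  have h2 : ∀ j ∈ range (m + 1), (m.choose (m + 1 - 1 - j) : ℤ) ^ 2 * 1 ^ (m + 1 - 1 - j) *
      (1 + 1) ^ (m - (m + 1 - 1 - j)) = (m.choose j : ℤ) ^ 2 * 2 ^ j := by
    intro j hj
    have hj' : j ≤ m := by
      have := Finset.mem_range.mp hj
      omega
    rw [show m + 1 - 1 - j = m - j by omega, Nat.choose_symm hj', show m - (m - j) = j by omega]
    ring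
  rw [Finset.sum_congr rfl h2]
  rcases m with _ | m
  · simp
  · rw [Finset.sum_range_succ', Finset.sum_range_succ']
    have h3 : (4 : ℤ) ∣ ∑ k ∈ range m, ((m + 1).choose (k + 1 + 1) : ℤ) ^ 2 * 2 ^ (k + 1 + 1) := by
      apply Finset.dvd_sum
      intro k _
      exact ⟨((m + 1).choose (k + 1 + 1) : ℤ) ^ 2 * 2 ^ k, by ring⟩
    obtain ⟨c, hc⟩ := h3
    rw [hc, Int.modEq_iff_dvd]
    simp
    exact ⟨-c, by ring⟩

lemma O_mod4 (m : ℕ) : (O 1 m : ℤ) ≡ (u m : ℤ) + 2 * m ^ 2 [ZMOD 4] := by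
  have h1 : (O 1 m : ℤ) - u m ≡ ((∑ j ∈ range (m + 1), m.choose j * (m + j).choose j : ℕ) : ℤ) - 1 [ZMOD 4] := by
    unfold O
    push_cast
    rw [Finset.sum_range_succ' _ m, Finset.sum_range_succ' _ m]
    simp only [Nat.choose_zero_right, Nat.cast_one, mul_one, one_mul, one_pow, Nat.sub_zero, Nat.add_zero]
    have h2 : ∀ k ∈ range m, ((m.choose (k + 1) : ℤ) * ((m + (k + 1)).choose (k + 1) : ℤ)) *
        ((u (k + 1) : ℤ) * (u (m - (k + 1)) : ℤ))
        ≡ (m.choose (k + 1) : ℤ) * ((m + (k + 1)).choose (k + 1) : ℤ) [ZMOD 4] := by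
      intro k hk
      have hk' : k < m := Finset.mem_range.mp hk
      have := even_mul_odd_mod4 (m.choose (k + 1) * (m + (k + 1)).choose (k + 1)) (u (k + 1) * u (m - (k + 1)))
        (choose_even m (k + 1) (by omega) (by omega)) ((u_odd _).mul (u_odd _))
      push_cast at this
      exact this
    have h3 : ∑ k ∈ range m, ((m.choose (k + 1) : ℤ) * ((m + (k + 1)).choose (k + 1) : ℤ)) *
        ((u (k + 1) : ℤ) * (u (m - (k + 1)) : ℤ))
        ≡ ∑ k ∈ range m, (m.choose (k + 1) : ℤ) * ((m + (k + 1)).choose (k + 1) : ℤ) [ZMOD 4] :=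
      Int.ModEq.sum h2
    have h4 : (u 0 : ℤ) * (u m : ℤ) = u m := by simp [u]
    rw [h4]
    simpa using h3
  have h5 := delannoy m
  have h6 : (O 1 m : ℤ) = ((O 1 m : ℤ) - u m) + u m := by ring
  rw [h6]
  calc ((O 1 m : ℤ) - u m) + u m ≡ (((∑ j ∈ range (m + 1), m.choose j * (m + j).choose j : ℕ) : ℤ) - 1) + u m [ZMOD 4] :=
        Int.ModEq.add_right _ h1
    _ ≡ ((1 + 2 * m ^ 2) - 1) + u m [ZMOD 4] := Int.ModEq.add_right _ (Int.ModEq.sub_right _ h5)
    _ = _ := by ring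

lemma odd_sq_mod4 (w : ℕ) (hw : Odd w) : (w : ℤ) * w ≡ 1 [ZMOD 4] := by
  obtain ⟨y, hy⟩ := hw
  subst hy
  rw [Int.modEq_iff_dvd]
  exact ⟨-(y ^ 2 + y), by push_cast; ring⟩

lemma W_mod4 (n : ℕ) (hn : 0 < n) : W n ≡ (-1) ^ (n - 1) [ZMOD 4] := by
  obtain ⟨k, rfl⟩ : ∃ k, n = k + 1 := ⟨n - 1, by omega⟩
  unfold W
  rw [Finset.sum_range_succ, R_top]
  have h1 : (4 : ℤ) ∣ ∑ m ∈ range k, (-1) ^ m * (O 1 m : ℤ) * (R (k + 1) m : ℤ) := by
    apply Finset.dvd_sum
    intro m hm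
    have hm' : m < k := Finset.mem_range.mp hm
    have h := four_dvd_R (k + 1) m (by omega)
    exact Dvd.dvd.mul_left (by exact_mod_cast h) _
  have h2 : (u (k + 1) : ℤ) = (2 * k + 1) * u k := by
    rw [u]
    push_cast
    ring
  have h3 : (O 1 k : ℤ) * (u (k + 1) : ℤ) ≡ 1 [ZMOD 4] := by
    have a1 : (O 1 k : ℤ) * (u (k + 1) : ℤ) ≡ ((u k : ℤ) + 2 * k ^ 2) * (u (k + 1) : ℤ) [ZMOD 4] :=
      Int.ModEq.mul_right _ (O_mod4 k)
    have a2 : ((u k : ℤ) + 2 * k ^ 2) * (u (k + 1) : ℤ)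
        = (2 * k + 1) * ((u k : ℤ) * u k) + ((2 * k ^ 2 * u (k + 1) : ℕ) : ℤ) := by
      rw [h2]
      push_cast
      rw [h2]
      ring
    have a3 : ((2 * k ^ 2 * u (k + 1) : ℕ) : ℤ) ≡ ((2 * k ^ 2 : ℕ) : ℤ) [ZMOD 4] := by
      have := even_mul_odd_mod4 (2 * k ^ 2) (u (k + 1)) (even_two_mul _) (u_odd _)
      exact_mod_cast this
    rw [a2] at a1
    refine a1.trans ?_
    have a4 : (2 * (k : ℤ) + 1) * ((u k : ℤ) * u k) ≡ (2 * k + 1) * 1 [ZMOD 4] :=
      Int.ModEq.mul_left _ (odd_sq_mod4 _ (u_odd k))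
    refine (a4.add a3).trans ?_
    have a5 : Even (k * (k + 1)) := Nat.even_mul_succ_self k
    obtain ⟨c, hc⟩ := a5
    rw [Int.modEq_iff_dvd]
    refine ⟨-c, ?_⟩
    have hc' : (k : ℤ) * (k + 1) = c + c := by exact_mod_cast hc
    push_cast
    linear_combination (-2 : ℤ) * hc'
  have h4 : (-1) ^ k * (O 1 k : ℤ) * (u (k + 1) : ℤ) ≡ (-1) ^ k [ZMOD 4] := by
    have := Int.ModEq.mul_left ((-1) ^ k) h3
    rw [mul_one] at this
    rw [mul_assoc]
    exact this
  have h5 : ∑ m ∈ range k, (-1) ^ m * (O 1 m : ℤ) * (R (k + 1) m : ℤ) ≡ 0 [ZMOD 4] :=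
    (Int.modEq_zero_iff_dvd).mpr h1
  have := h5.add h4
  simpa using this

/-- general lemma about denominators -/
lemma den_lemma (r : ℚ) (N : ℕ) (hN : N ≠ 0) (V Z : ℤ) (k : ℕ) (hV : Odd V)
    (h1 : (N : ℚ) * r = V) (h2 : (2 : ℚ) ^ k * r = Z) :
    r.den = 2 ^ (padicValNat 2 N) ∧ ∃ w : ℕ, Odd w ∧ N = 2 ^ (padicValNat 2 N) * w ∧
      r.num * (w : ℤ) = V := by
  have hden : r.den ∣ 2 ^ k := by
    have h3 : (2 : ℤ) ^ k * r.num = Z * r.den := by
      have : (2 : ℚ) ^ k * (r.num / r.den) = Z := by rw [Rat.num_div_den]; exact h2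
      have hd : (r.den : ℚ) ≠ 0 := by exact_mod_cast r.den_ne_zero
      have h' : (2 : ℚ) ^ k * r.num = Z * r.den := by
        rw [← this]
        field_simp
      exact_mod_cast h'
    have h4 : (r.den : ℤ) ∣ (2 : ℤ) ^ k * r.num := ⟨Z, by rw [h3]; ring⟩
    have h5 : IsCoprime (r.den : ℤ) r.num := by
      rw [Int.isCoprime_iff_gcd_eq_one, Int.gcd, Int.natAbs_natCast, Nat.gcd_comm]
      exact r.reduced
    have h6 : (r.den : ℤ) ∣ (2 : ℤ) ^ k := h5.dvd_of_dvd_mul_right h4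
    exact_mod_cast h6
  obtain ⟨c, _, hc⟩ := (Nat.dvd_prime_pow Nat.prime_two).mp hden
  obtain ⟨w, hw⟩ : ∃ w, N = 2 ^ (padicValNat 2 N) * w := pow_padicValNat_dvd
  have hwodd : Odd w := by
    rw [← Nat.not_even_iff_odd]
    intro he
    obtain ⟨x, hx⟩ := he
    have : 2 ^ (padicValNat 2 N + 1) ∣ N := ⟨x, by
      calc N = 2 ^ (padicValNat 2 N) * w := hw
        _ = _ := by rw [hx]; ring⟩
    exact pow_succ_padicValNat_not_dvd hN this
  have h3 : (N : ℤ) * r.num = V * 2 ^ c := by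
    have : (N : ℚ) * (r.num / r.den) = V := by rw [Rat.num_div_den]; exact h1
    have hd : (r.den : ℚ) ≠ 0 := by exact_mod_cast r.den_ne_zero
    have h' : (N : ℚ) * r.num = V * r.den := by
      rw [← this]
      field_simp
    rw [hc] at h'
    exact_mod_cast h'
  have h3' : (2 : ℤ) ^ (padicValNat 2 N) * (w * r.num) = V * 2 ^ c := by
    have e : (N : ℤ) = 2 ^ (padicValNat 2 N) * w := by exact_mod_cast hw
    rw [← h3, e]
    ring
  have hvc : padicValNat 2 N = c := by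
    rcases Nat.lt_trichotomy (padicValNat 2 N) c with h | h | h
    · exfalso
      obtain ⟨e, he⟩ : ∃ e, c = padicValNat 2 N + (e + 1) := ⟨c - padicValNat 2 N - 1, by omega⟩
      have h5 : (w : ℤ) * r.num = V * 2 ^ (e + 1) := by
        have hp : (2 : ℤ) ^ (padicValNat 2 N) ≠ 0 := by positivity
        apply mul_left_cancel₀ hp
        rw [h3']
        conv_lhs => rw [he]
        ring
      have h6 : Even ((w : ℤ) * r.num) := by
        rw [h5]
        exact ⟨V * 2 ^ e, by ring⟩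
      have hwo : ¬ Even (w : ℤ) := by
        rw [Int.not_even_iff_odd]
        exact_mod_cast hwodd
      have h7 : Even r.num := by
        rcases Int.even_mul.mp h6 with h | h
        · exact absurd h hwo
        · exact h
      have h8 : 2 ∣ r.num.natAbs := Int.natAbs_dvd_natAbs.mpr h7.two_dvd
      have h9 : 2 ∣ r.den := by
        rw [hc, he]
        exact dvd_pow_self 2 (by omega)
      have := Nat.dvd_gcd h8 h9
      rw [Nat.Coprime.gcd_eq_one r.reduced] at this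
      omega
    · exact h
    · exfalso
      obtain ⟨e, he⟩ : ∃ e, padicValNat 2 N = c + (e + 1) := ⟨padicValNat 2 N - c - 1, by omega⟩
      have h5 : (2 : ℤ) ^ (e + 1) * (w * r.num) = V := by
        have hp : (2 : ℤ) ^ c ≠ 0 := by positivity
        apply mul_right_cancel₀ hp
        rw [← h3']
        conv_rhs => rw [he]
        ring
      have : Even V := by
        rw [← h5]
        exact ⟨2 ^ e * (w * r.num), by ring⟩
      exact (Int.not_even_iff_odd.mpr hV) this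
  refine ⟨by rw [hc, hvc], w, hwodd, hw, ?_⟩
  rw [hvc] at h3'
  have hp : (2 : ℤ) ^ c ≠ 0 := by positivity
  apply mul_left_cancel₀ hp
  linear_combination h3'

theorem s_den_num (n : ℕ) (hn : 0 < n) :
    (s n).den = 2 ^ (2 * padicValNat 2 n.factorial) ∧ (s n).num ≡ (-1) ^ (n - 1) [ZMOD 4] := by
  have hodd : Odd (W n) := by
    have h := W_mod4 n hn
    have h2 : W n ≡ (-1) ^ (n - 1) [ZMOD 2] := h.of_dvd (by norm_num)
    rw [← Int.not_even_iff_odd]
    intro he
    have h3 : W n ≡ 0 [ZMOD 2] := (Int.modEq_zero_iff_dvd).mpr he.two_dvd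
    have h4 := h2.symm.trans h3
    have h5 : (2 : ℤ) ∣ (-1) ^ (n - 1) := (Int.modEq_zero_iff_dvd).mp h4
    rcases neg_one_pow_eq_or ℤ (n - 1) with h | h <;> rw [h] at h5 <;> revert h5 <;> decide
  have hs2 : (2 : ℚ) ^ (2 * (n - 1)) * s n = (SS n : ℚ) := by
    rw [← s_SS n hn, pow_mul]
    norm_num
  obtain ⟨h1, w, hw, hN, hnum⟩ := den_lemma (s n) (n.factorial ^ 2) (by positivity) (W n) (SS n) (2 * (n - 1))
    hodd (s_W n hn) hs2
  have hval : padicValNat 2 (n.factorial ^ 2) = 2 * padicValNat 2 n.factorial := by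
    rw [padicValNat.pow]
  refine ⟨by rw [h1, hval], ?_⟩
  -- w is a square of an odd number
  obtain ⟨w0, hw0⟩ : ∃ w0, n.factorial = 2 ^ (padicValNat 2 n.factorial) * w0 := pow_padicValNat_dvd
  have hww : w = w0 * w0 := by
    rw [hval] at hN
    have hp : 2 ^ (2 * padicValNat 2 n.factorial) ≠ 0 := by positivity
    apply mul_left_cancel₀ hp
    rw [← hN]
    nth_rw 1 [hw0]
    rw [pow_mul']
    ring
  have hw0odd : Odd w0 := by
    rw [hww] at hw
    exact Nat.Odd.of_mul_left hw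
  have h4 : (w : ℤ) ≡ 1 [ZMOD 4] := by
    rw [hww]
    push_cast
    exact odd_sq_mod4 _ hw0odd
  have h5 : (s n).num * (w : ℤ) ≡ (s n).num * 1 [ZMOD 4] := Int.ModEq.mul_left _ h4
  rw [hnum, mul_one] at h5
  exact h5.symm.trans (W_mod4 n hn)

/-! The second sequence. -/

/-- `O2 m` with `(m!)^2 G 4 m = 4^m O2 m`. -/
def O2 (m : ℕ) : ℕ :=
  ∑ j ∈ range (m + 1), u j ^ 2 * u (m - j) * (m + j).choose (m - j) * m.descFactorial (m - j) * 2 ^ (m - j)

lemma O2_spec (m : ℕ) : (m.factorial : ℚ) ^ 2 * (G 4 m : ℚ) = 4 ^ m * (O2 m : ℚ) := by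
  unfold G O2
  push_cast
  rw [Finset.mul_sum, Finset.mul_sum]
  apply Finset.sum_congr rfl
  intro j hj
  have hj' : j ≤ m := by
    have := Finset.mem_range.mp hj
    omega
  obtain ⟨i, rfl⟩ : ∃ i, m = j + i := ⟨m - j, by omega⟩
  rw [show j + i - j = i by omega]
  have h1 := cb_u j
  have h2 := cb_u i
  have n1 : (j.factorial : ℚ) ≠ 0 := by positivity
  have n2 : (i.factorial : ℚ) ≠ 0 := by positivity
  have n3 : ((j + i).factorial : ℚ) ≠ 0 := by positivity
  have n4 : (u j : ℚ) ≠ 0 := by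
    have := (u_odd j).pos
    positivity
  have h1' : (Nat.centralBinom j : ℚ) = 2 ^ j * (u j : ℚ) / (j.factorial : ℚ) := by
    rw [← h1]
    field_simp
  have h2' : (Nat.centralBinom i : ℚ) = 2 ^ i * (u i : ℚ) / (i.factorial : ℚ) := by
    rw [← h2]
    field_simp
  have h3 : ((j + i + j).choose j : ℚ) = (j + i + j).factorial / (j.factorial * (j + i).factorial) := by
    rw [Nat.cast_choose ℚ (by omega : j ≤ j + i + j), show j + i + j - j = j + i by omega]
  have h4 : ((j + i + j).choose i : ℚ) = (j + i + j).factorial / (i.factorial * (2 ^ j * j.factorial * u j)) := by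
    rw [Nat.cast_choose ℚ (by omega : i ≤ j + i + j), show j + i + j - i = 2 * j by omega, u_spec]
    push_cast
    ring
  have h5 : ((j + i).descFactorial i : ℚ) = (j + i).factorial / j.factorial := by
    have := Nat.factorial_mul_descFactorial (by omega : i ≤ j + i)
    rw [show j + i - i = j by omega] at this
    rw [eq_div_iff n1]
    have h : (j.factorial : ℚ) * ((j + i).descFactorial i : ℚ) = ((j + i).factorial : ℚ) := by exact_mod_cast this
    linarith
  rw [h1', h2', h3, h4, h5]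
  have e1 : (4 : ℚ) ^ (j + i) = 2 ^ j * 2 ^ j * (2 ^ i * 2 ^ i) := by
    rw [pow_add, ← mul_pow, ← mul_pow]
    norm_num
  have e2 : (4 : ℚ) ^ i = 2 ^ i * 2 ^ i := by
    rw [← mul_pow]
    norm_num
  rw [e1, e2]
  field_simp

lemma O2_odd (m : ℕ) : Odd (O2 m) := by
  unfold O2
  rw [Finset.sum_range_succ]
  simp only [Nat.sub_self, Nat.choose_zero_right, Nat.descFactorial_zero, pow_zero, mul_one]
  rw [add_comm]
  apply Odd.add_even
  · exact ((u_odd m).pow).mul (u_odd 0)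
  · apply Finset.even_sum
    intro j hj
    have hj' : j < m := Finset.mem_range.mp hj
    apply Even.mul_left
    rw [show m - j = (m - j - 1) + 1 by omega, pow_succ]
    exact (even_two).mul_left _

/-- The integer `8^(n-1) (n!)^2 (n-1)! t(n)`. -/
def V (n : ℕ) : ℤ :=
  ∑ m ∈ range n, (-1) ^ m * 3 ^ m * (O2 m : ℤ) *
    (8 ^ (n - 1 - m) * (R n m : ℤ) * ((n - 1).descFactorial (n - 1 - m) : ℤ))

lemma t_V (n : ℕ) (hn : 0 < n) :
    ((8 ^ (n - 1) * n.factorial ^ 2 * (n - 1).factorial : ℕ) : ℚ) * t n = (V n : ℚ) := by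
  rw [t_formula n hn, Finset.mul_sum]
  unfold V
  push_cast
  apply Finset.sum_congr rfl
  intro m hm
  have hm' : m < n := Finset.mem_range.mp hm
  have h1 := R_spec n m hm'
  have h2 := O2_spec m
  have h3 : ((m : ℚ) + 1) * (B 4 m : ℚ) = (G 4 m : ℚ) := by
    have := B_spec 4 m
    exact_mod_cast this
  have h4 : (m.factorial : ℚ) * ((m + 1).factorial : ℚ) * (B 4 m : ℚ) = 4 ^ m * (O2 m : ℚ) := by
    rw [← h2, ← h3, Nat.factorial_succ]
    push_cast
    ring
  have h5 : (m.factorial : ℚ) * ((n - 1).descFactorial (n - 1 - m) : ℚ) = ((n - 1).factorial : ℚ) := by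
    have := Nat.factorial_mul_descFactorial (by omega : n - 1 - m ≤ n - 1)
    rw [show n - 1 - (n - 1 - m) = m by omega] at this
    exact_mod_cast this
  have h6 : (8 : ℚ) ^ (n - 1) = 8 ^ (n - 1 - m) * 8 ^ m := by
    rw [← pow_add]
    congr 1
    omega
  have h7 : (8 : ℚ) ^ m * 2 ^ m * 4 ^ m = 64 ^ m := by
    rw [← mul_pow, ← mul_pow]
    norm_num
  calc (8 : ℚ) ^ (n - 1) * (n.factorial : ℚ) ^ 2 * ((n - 1).factorial : ℚ) *
        ((-1) ^ m * ((n - 1).choose m : ℚ) * ((n + m).choose m : ℚ) * ((3 / 64) ^ m * (B 4 m : ℚ)))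
      = 8 ^ (n - 1) * ((n - 1).factorial : ℚ) * ((n.factorial : ℚ) ^ 2 * ((n - 1).choose m : ℚ) * ((n + m).choose m : ℚ))
          * ((-1) ^ m * ((3 / 64) ^ m * (B 4 m : ℚ))) := by ring
    _ = (8 ^ (n - 1 - m) * 8 ^ m) * ((m.factorial : ℚ) * ((n - 1).descFactorial (n - 1 - m) : ℚ)) *
          (2 ^ m * ((m + 1).factorial : ℚ) * (R n m : ℚ)) * ((-1) ^ m * ((3 / 64) ^ m * (B 4 m : ℚ))) := by
          rw [h1, h5, h6]
    _ = 8 ^ (n - 1 - m) * ((n - 1).descFactorial (n - 1 - m) : ℚ) * (R n m : ℚ) * ((-1) ^ m * (3 / 64) ^ m) *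
          (8 ^ m * 2 ^ m) * ((m.factorial : ℚ) * ((m + 1).factorial : ℚ) * (B 4 m : ℚ)) := by ring
    _ = 8 ^ (n - 1 - m) * ((n - 1).descFactorial (n - 1 - m) : ℚ) * (R n m : ℚ) * ((-1) ^ m * (3 / 64) ^ m) *
          (8 ^ m * 2 ^ m) * (4 ^ m * (O2 m : ℚ)) := by rw [h4]
    _ = 8 ^ (n - 1 - m) * ((n - 1).descFactorial (n - 1 - m) : ℚ) * (R n m : ℚ) * ((-1) ^ m * (3 / 64) ^ m) *
          (8 ^ m * 2 ^ m * 4 ^ m) * (O2 m : ℚ) := by ring
    _ = _ := by
      rw [h7, div_pow]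
      have : (64 : ℚ) ^ m ≠ 0 := by positivity
      field_simp

lemma V_odd (n : ℕ) (hn : 0 < n) : Odd (V n) := by
  obtain ⟨k, rfl⟩ : ∃ k, n = k + 1 := ⟨n - 1, by omega⟩
  unfold V
  rw [Finset.sum_range_succ, R_top]
  simp only [Nat.add_sub_cancel, Nat.sub_self, pow_zero, Nat.descFactorial_zero, Nat.cast_one, mul_one, one_mul]
  rw [add_comm]
  apply Odd.add_even
  · have h1 : Odd ((O2 k : ℤ)) := by exact_mod_cast O2_odd k
    have h2 : Odd ((u (k + 1) : ℤ)) := by exact_mod_cast u_odd (k + 1)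
    have h3 : Odd ((-1 : ℤ) ^ k * 3 ^ k) := (Odd.pow (by decide)).mul (Odd.pow (by decide))
    exact (h3.mul h1).mul h2
  · apply Finset.even_sum
    intro j hj
    have hj' : j < k := Finset.mem_range.mp hj
    apply Even.mul_left
    rw [show k - j = (k - j - 1) + 1 by omega, pow_succ]
    exact ⟨8 ^ (k - j - 1) * 4 * (R (k + 1) j : ℤ) * (k.descFactorial (k - j - 1 + 1) : ℤ), by ring⟩

theorem t_den (n : ℕ) (hn : 0 < n) :
    (t n).den = 2 ^ (3 * (n - 1 + padicValNat 2 n.factorial) - padicValNat 2 n) := by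
  have ht2 : (2 : ℚ) ^ (6 * (n - 1)) * t n = (TT n : ℚ) := by
    rw [← t_TT n hn, pow_mul]
    norm_num
  obtain ⟨h1, _⟩ := den_lemma (t n) (8 ^ (n - 1) * n.factorial ^ 2 * (n - 1).factorial)
    (by positivity) (V n) (TT n) (6 * (n - 1)) (V_odd n hn) (t_V n hn) ht2
  rw [h1]
  congr 1
  have e1 : padicValNat 2 (8 ^ (n - 1)) = 3 * (n - 1) := by
    rw [show (8 : ℕ) = 2 ^ 3 by norm_num, ← pow_mul, padicValNat.prime_pow]
  have hf : (n.factorial) ≠ 0 := Nat.factorial_ne_zero n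
  have hf1 : ((n - 1).factorial) ≠ 0 := Nat.factorial_ne_zero _
  have e2 : padicValNat 2 n.factorial = padicValNat 2 n + padicValNat 2 (n - 1).factorial := by
    rw [← Nat.mul_factorial_pred (by omega : n ≠ 0)]
    exact padicValNat.mul (by omega) hf1
  rw [padicValNat.mul (by positivity) hf1, padicValNat.mul (by positivity) (by positivity), e1,
    padicValNat.pow]
  omega

end Pool.Agent.helper78.DC
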